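import Mathlib

set_option autoImplicit false
universe u

/-!
# A large almost disjoint family

We construct a type `T` together with `2 ^ |T|` many uncountable subsets of `T`, any two of which
have countable intersection.
-/

namespace Pool.Agent.Helper76

open Set Cardinal

/-- There are cardinals `k ξ` (`ξ < ω₁`) with `k ξ = 2 ^ (sum of the k η, η < ξ)`. -/
theorem exists_card_seq (Ω : Type u) [LinearOrder Ω] [WellFoundedLT Ω] :
    ∃ k : Ω → Cardinal.{u}, ∀ ξ, k ξ = 2 ^ (Cardinal.sum fun η : Iio ξ => k η.1) := by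
  let F : (ξ : Ω) → ((η : Ω) → η < ξ → Cardinal.{u}) → Cardinal.{u} :=
    fun ξ g => 2 ^ (Cardinal.sum fun η : Iio ξ => g η.1 η.2)
  refine ⟨WellFounded.fix (wellFounded_lt : WellFounded ((· < ·) : Ω → Ω → Prop)) F, ?_⟩
  intro ξ
  rw [WellFounded.fix_eq]

/-- There is a type `T` with a family of uncountable subsets of `T` indexed by the subsets of `T`,
any two of which have countable intersection. -/
theorem exists_almost_disjoint : ∃ T : Type u, Infinite T ∧ ∃ b : Set T → Set T,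
    (∀ A, ¬ (b A).Countable) ∧ ∀ A A', A ≠ A' → (b A ∩ b A').Countable := by
  let Ω : Type u := (ℵ₁ : Cardinal.{u}).ord.ToType
  have hΩ : ¬ (univ : Set Ω).Countable := by
    rw [Set.countable_univ_iff, ← Cardinal.mk_le_aleph0_iff, not_le]
    rw [Cardinal.mk_toType, Cardinal.card_ord]
    exact Cardinal.aleph0_lt_aleph_one
  have hΩ' : ∀ ξ : Ω, (Iic ξ).Countable := by
    intro ξ
    have h1 : (Iio ξ).Countable := by
      rw [← Cardinal.le_aleph0_iff_set_countable, ← Cardinal.lt_aleph_one_iff]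
      have := Cardinal.mk_Iio_lt ξ (by simp [Ω])
      simpa [Ω] using this
    rw [← Iio_insert]
    exact h1.insert ξ
  obtain ⟨k, hk⟩ := exists_card_seq Ω
  let K : Ω → Type u := fun ξ => (k ξ).out
  let P : Ω → Type u := fun ξ => Σ η : Iio ξ, K η.1
  have hφ : ∀ ξ, Nonempty (Set (P ξ) ≃ K ξ) := by
    intro ξ
    rw [← Cardinal.eq]
    simp only [K, P, Cardinal.mk_set, Cardinal.mk_sigma, Cardinal.mk_out]
    exact (hk ξ).symm
  have φ : ∀ ξ, Set (P ξ) ≃ K ξ := fun ξ => (hφ ξ).some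
  let T : Type u := Σ ξ : Ω, K ξ
  let tr : Set T → (ξ : Ω) → Set (P ξ) := fun A ξ => {y | (⟨y.1.1, y.2⟩ : T) ∈ A}
  let pnt : Set T → Ω → T := fun A ξ => ⟨ξ, φ ξ (tr A ξ)⟩
  have hb : ∀ A, ¬ (range (pnt A)).Countable := by
    intro A hc
    apply hΩ
    have hinj : Function.Injective (pnt A) := by
      intro ξ ξ' h
      exact congrArg Sigma.fst h
    have : ((pnt A) ⁻¹' (range (pnt A))).Countable := hc.preimage_of_injOn hinj.injOn
    rwa [preimage_range] at this
  refine ⟨T, ?_, fun A => range (pnt A), hb, ?_⟩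
  · by_contra hfin
    rw [not_infinite_iff_finite] at hfin
    exact hb ∅ (Set.toFinite _).countable
  · intro A A' hAA'
    -- a point where they differ
    obtain ⟨t, ht⟩ : ∃ t : T, ¬ (t ∈ A ↔ t ∈ A') := by
      by_contra hcon
      push Not at hcon
      exact hAA' (Set.ext hcon)
    obtain ⟨ζ, c⟩ := t
    have hsub : range (pnt A) ∩ range (pnt A') ⊆ pnt A '' Iic ζ := by
      rintro _ ⟨⟨ξ, rfl⟩, ⟨ξ', h⟩⟩
      have h1 : ξ' = ξ := congrArg Sigma.fst h
      subst h1
      refine ⟨ξ', ?_, rfl⟩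
      by_contra hlt
      simp only [mem_Iic, not_le] at hlt
      have h2 : φ ξ' (tr A' ξ') = φ ξ' (tr A ξ') := eq_of_heq (Sigma.mk.inj_iff.1 h).2
      have h3 : tr A' ξ' = tr A ξ' := (φ ξ').injective h2
      have h4 : (⟨⟨ζ, hlt⟩, c⟩ : P ξ') ∈ tr A' ξ' ↔ (⟨⟨ζ, hlt⟩, c⟩ : P ξ') ∈ tr A ξ' := by rw [h3]
      exact ht h4.symm
    exact ((hΩ' ζ).image _).mono hsub

/-- A version with the countable factor `ℕ × ℕ`. -/
theorem exists_almost_disjoint' : ∃ T : Type u, ∃ b : Set (T × ℕ × ℕ) → Set T,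
    (∀ A, ¬ (b A).Countable) ∧ ∀ A A', A ≠ A' → (b A ∩ b A').Countable := by
  obtain ⟨T, hT, b, hb, hb'⟩ := exists_almost_disjoint.{u}
  have h : Nonempty (T × ℕ × ℕ ≃ T) := by
    rw [← Cardinal.lift_mk_eq'.{u, u}]
    simp only [Cardinal.mk_prod, Cardinal.lift_id, Cardinal.mk_denumerable, Cardinal.lift_aleph0,
      Cardinal.lift_uzero]
    exact Cardinal.mul_aleph0_eq (Cardinal.aleph0_le_mk T)
  obtain ⟨φ⟩ := h
  refine ⟨T, fun A => b (φ '' A), fun A => hb _, ?_⟩
  intro A A' hAA'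
  apply hb'
  intro h
  exact hAA' (φ.injective.image_injective h)

end Pool.Agent.Helper76
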