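import Mathlib
import Pool.Agent.Helper76.AlmostDisjoint

set_option autoImplicit false
universe u

/-!
# Configurations of clusters and lines

A configuration of order `k` consists of an infinite set of clusters and of lines (uncountable sets
of clusters with pairwise countable intersections), with the property that whenever countably many
clusters are removed from each line, some cluster still is on uncountably many lines and on lines
of each type `i < k`.
-/

namespace Pool.Agent.Helper76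

open Set Cardinal

/-- Configurations of order `k`. -/
structure Config (k : ℕ) : Type (u + 1) where
  G : Type u
  P : Type u
  inc : P → Set G
  τ : P → ℕ
  inf : Infinite G
  c0 : ∀ y, ¬ (inc y).Countable
  c1 : ∀ y z, y ≠ z → (inc y ∩ inc z).Countable
  c2 : ∀ K : P → Set G, (∀ y, (K y).Countable) →
    ∃ g, (∀ i < k, ∃ y, τ y = i ∧ g ∈ inc y ∧ g ∉ K y) ∧ ¬ {z | g ∈ inc z ∧ g ∉ K z}.Countable

/-- A union over `ι` of countable sets is smaller than `Set ι`. -/
theorem exists_notMem_iUnion_countable {ι : Type u} [Infinite ι] (s : ι → Set (Set ι))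
    (hs : ∀ i, (s i).Countable) : ∃ A : Set ι, ∀ i, A ∉ s i := by
  by_contra hcon
  push Not at hcon
  have h1 : (⋃ i, s i) = Set.univ := by
    rw [eq_univ_iff_forall]
    intro A
    obtain ⟨i, hi⟩ := hcon A
    exact mem_iUnion.2 ⟨i, hi⟩
  have h2 : #(⋃ i, s i) ≤ #ι * ⨆ i, #(s i) := Cardinal.mk_iUnion_le s
  have h3 : (⨆ i, #(s i)) ≤ ℵ₀ := by
    apply ciSup_le'
    intro i
    exact Cardinal.le_aleph0_iff_set_countable.2 (hs i)
  have h4 : #(⋃ i, s i) ≤ #ι := by
    refine h2.trans ((mul_le_mul' le_rfl h3).trans ?_)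
    rw [Cardinal.mul_aleph0_eq (Cardinal.aleph0_le_mk ι)]
  rw [h1, Cardinal.mk_univ, Cardinal.mk_set] at h4
  exact absurd h4 (not_le.2 (Cardinal.cantor _))

theorem exists_config_zero : Nonempty (Config.{u} 0) := by
  obtain ⟨T, hT, b, hb, hb'⟩ := exists_almost_disjoint.{u}
  refine ⟨⟨T, Set T, b, fun _ => 0, hT, hb, hb', ?_⟩⟩
  intro K hK
  by_contra hcon
  push Not at hcon
  have hcon' : ∀ g, {z | g ∈ b z ∧ g ∉ K z}.Countable := by
    intro g
    exact hcon g (fun i hi => absurd hi (Nat.not_lt_zero i))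
  obtain ⟨z, hz⟩ := exists_notMem_iUnion_countable _ hcon'
  apply hb z
  apply (hK z).mono
  intro g hg
  by_contra hgK
  exact hz g ⟨hg, hgK⟩

theorem exists_config_succ {k : ℕ} (c : Config.{u} k) : Nonempty (Config.{u} (k + 1)) := by
  obtain ⟨G, P, inc, τ, inf, c0, c1, c2⟩ := c
  have hX : ¬ (univ : Set (Set G)).Countable := by
    intro h
    obtain ⟨A, hA⟩ := exists_notMem_iUnion_countable (fun _ : G => univ) (fun _ => h)
    obtain ⟨i⟩ := (inferInstance : Nonempty G)
    exact hA i (mem_univ _)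
  let inc' : (P × Set G) ⊕ G → Set (G × Set G) := fun y => match y with
    | Sum.inl (y, x) => {q | q.1 ∈ inc y ∧ q.2 = x}
    | Sum.inr g => {q | q.1 = g}
  let τ' : (P × Set G) ⊕ G → ℕ := fun y => match y with
    | Sum.inl (y, _) => τ y
    | Sum.inr _ => k
  refine ⟨⟨G × Set G, (P × Set G) ⊕ G, inc', τ', inferInstance, ?_, ?_, ?_⟩⟩
  · rintro (⟨y, x⟩ | g) hc
    · apply c0 y
      have : inc y = Prod.fst '' inc' (Sum.inl (y, x)) := by
        ext g
        simp [inc']
      rw [this]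
      exact hc.image _
    · apply hX
      have : (univ : Set (Set G)) = Prod.snd '' inc' (Sum.inr g) := by
        ext A
        simp [inc']
      rw [this]
      exact hc.image _
  · rintro (⟨y, x⟩ | g) (⟨z, x'⟩ | g') hne
    · have hsub : inc' (Sum.inl (y, x)) ∩ inc' (Sum.inl (z, x')) ⊆
          {q | q.1 ∈ inc y ∩ inc z ∧ q.2 = x ∧ x = x'} := by
        rintro ⟨q1, q2⟩ ⟨⟨h1, h2⟩, ⟨h3, h4⟩⟩
        simp only at h1 h2 h3 h4
        exact ⟨⟨h1, h3⟩, h2, h2.symm.trans h4⟩
      by_cases hx : x = x'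
      · subst hx
        have hyz : y ≠ z := by
          rintro rfl
          exact hne rfl
        refine ((c1 y z hyz).image (fun g => (g, x))).mono (hsub.trans ?_)
        rintro ⟨q1, q2⟩ ⟨h1, h2, -⟩
        simp only at h1 h2
        exact ⟨q1, h1, by rw [h2]⟩
      · have : inc' (Sum.inl (y, x)) ∩ inc' (Sum.inl (z, x')) = ∅ := by
          apply eq_empty_of_subset_empty
          intro q hq
          exact hx (hsub hq).2.2
        rw [this]
        exact countable_empty
    · refine (countable_singleton (g', x)).mono ?_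
      rintro ⟨q1, q2⟩ ⟨⟨h1, h2⟩, h3⟩
      simp only [inc', mem_ofPred_eq] at h1 h2 h3
      simp [h2, h3]
    · refine (countable_singleton (g, x')).mono ?_
      rintro ⟨q1, q2⟩ ⟨h3, ⟨h1, h2⟩⟩
      simp only [inc', mem_ofPred_eq] at h1 h2 h3
      simp [h2, h3]
    · have : inc' (Sum.inr g) ∩ inc' (Sum.inr g') = ∅ := by
        apply eq_empty_of_subset_empty
        rintro ⟨q1, q2⟩ ⟨h1, h2⟩
        simp only [inc', mem_ofPred_eq] at h1 h2
        apply hne
        rw [← h1, ← h2]
      rw [this]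
      exact countable_empty
  · intro K' hK'
    obtain ⟨x, hx⟩ := exists_notMem_iUnion_countable
      (fun g => Prod.snd '' K' (Sum.inr g)) (fun g => (hK' _).image _)
    obtain ⟨g, hg1, hg2⟩ := c2 (fun y => {G | (G, x) ∈ K' (Sum.inl (y, x))}) (by
      intro y
      have hinj : Function.Injective (fun G : G => (G, x)) := by
        intro a b hab
        exact (Prod.mk.inj hab).1
      exact (hK' (Sum.inl (y, x))).preimage hinj)
    refine ⟨(g, x), ?_, ?_⟩
    · intro i hi
      rcases Nat.lt_succ_iff_lt_or_eq.1 hi with hi | rfl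
      · obtain ⟨y, hy1, hy2, hy3⟩ := hg1 i hi
        exact ⟨Sum.inl (y, x), hy1, ⟨hy2, rfl⟩, hy3⟩
      · refine ⟨Sum.inr g, rfl, rfl, ?_⟩
        intro h
        exact hx g ⟨(g, x), h, rfl⟩
    · intro hc
      apply hg2
      have hinj : Function.Injective (fun z : P => (Sum.inl (z, x) : (P × Set G) ⊕ G)) := by
        intro a b hab
        exact (Prod.mk.inj (Sum.inl.inj hab)).1
      refine (hc.preimage hinj).mono ?_
      rintro z ⟨hz1, hz2⟩
      exact ⟨⟨hz1, rfl⟩, hz2⟩

theorem exists_config (k : ℕ) : Nonempty (Config.{u} k) := by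
  induction k with
  | zero => exact exists_config_zero
  | succ k ih =>
    obtain ⟨c⟩ := ih
    exact exists_config_succ c

/-- The union of all configurations. -/
structure Config' : Type (u + 1) where
  G : Type u
  P : Type u
  inc : P → Set G
  τ : P → ℕ
  lev : G → ℕ
  c0 : ∀ y, ¬ (inc y).Countable
  c1 : ∀ y z, y ≠ z → (inc y ∩ inc z).Countable
  c2 : ∀ K : P → Set G, (∀ y, (K y).Countable) → ∀ k : ℕ,
    ∃ g, lev g = k ∧ (∀ i < k, ∃ y, τ y = i ∧ g ∈ inc y ∧ g ∉ K y) ∧
      ¬ {z | g ∈ inc z ∧ g ∉ K z}.Countable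
  c3 : ∀ y, ∀ g ∈ inc y, ∀ g' ∈ inc y, lev g = lev g'

theorem exists_config' : Nonempty Config'.{u} := by
  let c : (k : ℕ) → Config.{u} k := fun k => (exists_config k).some
  let GG : Type u := Σ k, (c k).G
  let PP : Type u := Σ k, (c k).P
  let em : (k : ℕ) → (c k).G → GG := fun k g => ⟨k, g⟩
  have hem : ∀ k, Function.Injective (em k) := by
    intro k a b h
    exact eq_of_heq (Sigma.mk.inj h).2
  let ep : (k : ℕ) → (c k).P → PP := fun k g => ⟨k, g⟩
  have hep : ∀ k, Function.Injective (ep k) := by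
    intro k a b h
    exact eq_of_heq (Sigma.mk.inj h).2
  let inc' : PP → Set GG := fun y => em y.1 '' (c y.1).inc y.2
  refine ⟨⟨GG, PP, inc', fun y => (c y.1).τ y.2, fun g => g.1, ?_, ?_, ?_, ?_⟩⟩
  · rintro ⟨k, y⟩ hc
    refine (c k).c0 y (Set.Countable.mono ?_ (hc.preimage (hem k)))
    intro g hg
    exact ⟨g, hg, rfl⟩
  · rintro ⟨k, y⟩ ⟨l, z⟩ hne
    by_cases hkl : k = l
    · subst hkl
      have hyz : y ≠ z := by
        rintro rfl
        exact hne rfl
      refine (((c k).c1 y z hyz).image (em k)).mono ?_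
      rintro _ ⟨⟨g, hg, rfl⟩, ⟨g', hg', h⟩⟩
      have : g' = g := hem k h
      subst this
      exact ⟨g', ⟨hg, hg'⟩, rfl⟩
    · have : inc' ⟨k, y⟩ ∩ inc' ⟨l, z⟩ = ∅ := by
        apply eq_empty_of_subset_empty
        rintro _ ⟨⟨g, hg, rfl⟩, ⟨g', hg', h⟩⟩
        exact hkl (congrArg Sigma.fst h).symm
      rw [this]
      exact countable_empty
  · intro K hK k
    obtain ⟨g, hg1, hg2⟩ := (c k).c2 (fun y => em k ⁻¹' K (ep k y))
      (fun y => (hK _).preimage (hem k))
    refine ⟨em k g, rfl, ?_, ?_⟩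
    · intro i hi
      obtain ⟨y, hy1, hy2, hy3⟩ := hg1 i hi
      exact ⟨ep k y, hy1, ⟨g, hy2, rfl⟩, hy3⟩
    · intro hc
      apply hg2
      refine (hc.preimage (hep k)).mono ?_
      rintro z ⟨hz1, hz2⟩
      exact ⟨⟨g, hz1, rfl⟩, hz2⟩
  · rintro ⟨k, y⟩ _ ⟨g, hg, rfl⟩ _ ⟨g', hg', rfl⟩
    rfl

end Pool.Agent.Helper76
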