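import Mathlib

set_option autoImplicit false
universe u v

/-!
# The space of maximal filter bases in a family of sets

For a family `L` of subsets of `D` (closed under countable unions, but not necessarily under
intersections), `Ult2 L` is the space of all maximal centered subfamilies of `L` which are filter
bases, with the topology generated by the sets `hat B = {x | B ∈ x}`.
-/

namespace Pool.Agent.Helper76

open Set TopologicalSpace

/-- The maximal filter bases in the family `L`. -/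
def Ult2 {D : Type u} (L : Set (Set D)) : Type u :=
  {x : Set (Set D) // x ⊆ L ∧ ∅ ∉ x ∧ (∀ A ∈ x, ∀ B ∈ x, ∃ C ∈ x, C ⊆ A ∩ B) ∧
    ∀ B ∈ L, B ∉ x → ∃ C ∈ x, B ∩ C = ∅}

namespace Ult2

variable {D : Type u} {L : Set (Set D)}

/-- The basic set given by `B`. -/
def hat (L : Set (Set D)) (B : Set D) : Set (Ult2 L) := {x | B ∈ x.1}

theorem mem_hat {B : Set D} {x : Ult2 L} : x ∈ hat L B ↔ B ∈ x.1 := Iff.rfl

instance : TopologicalSpace (Ult2 L) := generateFrom {s | ∃ B ∈ L, s = hat L B}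

/-- The base of all `hat B`, `B ∈ L`. -/
def base (L : Set (Set D)) : Set (Set (Ult2 L)) := {s | ∃ B ∈ L, s = hat L B}

theorem nonempty_of_mem {x : Ult2 L} {B : Set D} (h : B ∈ x.1) : B.Nonempty := by
  rw [nonempty_iff_ne_empty]
  rintro rfl
  exact x.2.2.1 h

theorem exists_sub {x : Ult2 L} {A B : Set D} (hA : A ∈ x.1) (hB : B ∈ x.1) :
    ∃ C ∈ x.1, C ⊆ A ∩ B := x.2.2.2.1 A hA B hB

theorem inter_nonempty {x : Ult2 L} {A B : Set D} (hA : A ∈ x.1) (hB : B ∈ x.1) :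
    (A ∩ B).Nonempty := by
  obtain ⟨C, hC, hCs⟩ := exists_sub hA hB
  exact (nonempty_of_mem hC).mono hCs

theorem up {x : Ult2 L} {B C : Set D} (h : B ∈ x.1) (hC : C ∈ L) (hBC : B ⊆ C) : C ∈ x.1 := by
  by_contra hn
  obtain ⟨E, hE, hE'⟩ := x.2.2.2.2 C hC hn
  obtain ⟨d, hd1, hd2⟩ := inter_nonempty h hE
  have : d ∈ C ∩ E := ⟨hBC hd1, hd2⟩
  rw [hE'] at this
  exact this

theorem exists_mem (he : ∅ ∈ L) (x : Ult2 L) : ∃ B, B ∈ x.1 := by
  obtain ⟨C, hC, -⟩ := x.2.2.2.2 ∅ he x.2.2.1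
  exact ⟨C, hC⟩

/-- Finitely many members have a common lower bound. -/
theorem exists_sub_sInter (he : ∅ ∈ L) (x : Ult2 L) (t : Set (Set D)) (ht : t ⊆ x.1)
    (htf : t.Finite) : ∃ C ∈ x.1, C ⊆ ⋂₀ t := by
  induction t, htf using Set.Finite.induction_on with
  | empty => obtain ⟨C, hC⟩ := exists_mem he x; exact ⟨C, hC, by simp⟩
  | @insert a s _ _ ih =>
    obtain ⟨C, hC, hCs⟩ := ih ((subset_insert a s).trans ht)
    obtain ⟨E, hE, hEs⟩ := exists_sub (ht (mem_insert a s)) hC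
    refine ⟨E, hE, ?_⟩
    rw [sInter_insert]
    exact fun d hd => ⟨(hEs hd).1, hCs (hEs hd).2⟩

theorem isTopologicalBasis (he : ∅ ∈ L) : IsTopologicalBasis (base L) where
  exists_subset_inter := by
    rintro _ ⟨B, hB, rfl⟩ _ ⟨C, hC, rfl⟩ x hx
    obtain ⟨E, hE, hEs⟩ := exists_sub hx.1 hx.2
    refine ⟨hat L E, ⟨E, x.2.1 hE, rfl⟩, hE, ?_⟩
    intro y hy
    exact ⟨up hy hB (fun d hd => (hEs hd).1), up hy hC (fun d hd => (hEs hd).2)⟩
  sUnion_eq := by
    apply eq_univ_of_forall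
    intro x
    obtain ⟨B, hB⟩ := exists_mem he x
    exact ⟨hat L B, ⟨B, x.2.1 hB, rfl⟩, hB⟩
  eq_generateFrom := rfl

theorem isOpen_hat {B : Set D} (hB : B ∈ L) : IsOpen (hat L B) :=
  isOpen_generateFrom_of_mem ⟨B, hB, rfl⟩

theorem disjoint_hat {B C : Set D} (h : B ∩ C = ∅) : Disjoint (hat L B) (hat L C) := by
  rw [Set.disjoint_left]
  intro x hx hx'
  have := inter_nonempty hx hx'
  rw [h] at this
  exact not_nonempty_empty this

theorem isClopen_hat {B : Set D} (hB : B ∈ L) : IsClopen (hat L B) := by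
  refine ⟨?_, isOpen_hat hB⟩
  rw [← isOpen_compl_iff, isOpen_iff_forall_mem_open]
  intro x hx
  obtain ⟨C, hC, hC'⟩ := x.2.2.2.2 B hB hx
  exact ⟨hat L C, (disjoint_hat hC').symm.subset_compl_right, isOpen_hat (x.2.1 hC), hC⟩

theorem eq_of_subset {x y : Ult2 L} (h : x.1 ⊆ y.1) : x = y := by
  apply Subtype.ext
  apply Subset.antisymm h
  intro B hB
  by_contra hn
  obtain ⟨C, hC, hC'⟩ := x.2.2.2.2 B (y.2.1 hB) hn
  have := inter_nonempty hB (h hC)
  rw [hC'] at this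
  exact not_nonempty_empty this

instance : T2Space (Ult2 L) := by
  constructor
  intro x y hxy
  have h : ¬ x.1 ⊆ y.1 := fun h => hxy (eq_of_subset h)
  rw [Set.not_subset] at h
  obtain ⟨B, hB, hB'⟩ := h
  obtain ⟨C, hC, hC'⟩ := y.2.2.2.2 B (x.2.1 hB) hB'
  exact ⟨hat L B, hat L C, isOpen_hat (x.2.1 hB), isOpen_hat (y.2.1 hC), hB, hC, disjoint_hat hC'⟩

theorem isTopologicalBasis_clopens (he : ∅ ∈ L) :
    IsTopologicalBasis {s : Set (Ult2 L) | IsClopen s} := by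
  refine (isTopologicalBasis he).of_isOpen_of_subset (fun s hs => hs.isOpen) ?_
  rintro _ ⟨B, hB, rfl⟩
  exact isClopen_hat hB

theorem t35Space (he : ∅ ∈ L) : T35Space (Ult2 L) := by
  have := CompletelyRegularSpace.of_isTopologicalBasis_clopens (isTopologicalBasis_clopens he)
  exact @T35Space.mk (Ult2 L) _ inferInstance this

/-- The extension property: every centered subfamily of `L` is contained in a point. -/
def Ext (L : Set (Set D)) : Prop :=
  ∀ F : Set (Set D), F ⊆ L → (∀ t ⊆ F, t.Finite → (⋂₀ t).Nonempty) → ∃ x : Ult2 L, F ⊆ x.1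

theorem inter_eq_empty_of_disjoint (hext : Ext L) {B C : Set D} (hB : B ∈ L)
    (hC : C ∈ L) (h : Disjoint (hat L B) (hat L C)) : B ∩ C = ∅ := by
  by_contra hne
  obtain ⟨d, hd1, hd2⟩ := nonempty_iff_ne_empty.2 hne
  obtain ⟨x, hx⟩ := hext {B, C} (by
    intro E hE
    rcases hE with rfl | rfl
    · exact hB
    · exact hC) (by
    intro t ht _
    refine ⟨d, fun E hE => ?_⟩
    rcases ht hE with rfl | rfl
    · exact hd1
    · exact hd2)
  exact Set.disjoint_left.1 h (show x ∈ hat L B from hx (by simp)) (hx (by simp))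

/-- The pretty base property. -/
theorem pretty (he : ∅ ∈ L) (hext : Ext L)
    (hu : ∀ f : ℕ → Set D, (∀ n, f n ∈ L) → (⋃ n, f n) ∈ L)
    (𝒞 𝒟 : Set (Set (Ult2 L))) (h𝒞 : 𝒞 ⊆ base L) (h𝒟 : 𝒟 ⊆ base L) (hc : 𝒞.Countable)
    (hd : ∀ C ∈ 𝒞, ∀ E ∈ 𝒟, Disjoint C E) :
    ∃ B ∈ base L, (∀ C ∈ 𝒞, C ⊆ B) ∧ ∀ E ∈ 𝒟, Disjoint B E := by
  rcases 𝒞.eq_empty_or_nonempty with rfl | hne
  · refine ⟨hat L ∅, ⟨∅, he, rfl⟩, by simp, ?_⟩
    intro E _
    rw [Set.disjoint_left]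
    intro x hx
    exact absurd hx x.2.2.1
  obtain ⟨g, hg⟩ := hc.exists_eq_range hne
  have hgL : ∀ n, ∃ B ∈ L, g n = hat L B := fun n => h𝒞 (by rw [hg]; exact mem_range_self n)
  choose f hfL hgf using hgL
  refine ⟨hat L (⋃ n, f n), ⟨_, hu f hfL, rfl⟩, ?_, ?_⟩
  · intro C hC
    rw [hg] at hC
    obtain ⟨n, rfl⟩ := hC
    rw [hgf n]
    intro x hx
    exact up hx (hu f hfL) (subset_iUnion f n)
  · intro E hE
    obtain ⟨B, hB, rfl⟩ := h𝒟 hE
    apply disjoint_hat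
    rw [iUnion_inter, iUnion_eq_empty]
    intro n
    apply inter_eq_empty_of_disjoint hext (hfL n) hB
    rw [← hgf n]
    exact hd _ (by rw [hg]; exact mem_range_self n) _ hE

/-- Compactness of the cotopology. -/
theorem cocompact (he : ∅ ∈ L) (hext : Ext L) :
    @CompactSpace (Ult2 L) (generateFrom {U | ∃ B ∈ base L, U = (closure B)ᶜ}) := by
  refine @CompactSpace.mk (Ult2 L) (generateFrom {U | ∃ B ∈ base L, U = (closure B)ᶜ})
    (@isCompact_generateFrom (Ult2 L) (generateFrom {U | ∃ B ∈ base L, U = (closure B)ᶜ})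
      {U | ∃ B ∈ base L, U = (closure B)ᶜ} rfl univ ?_)
  intro P hP hcov
  by_contra hcon
  push Not at hcon
  -- the corresponding family of sets in `L`
  let F : Set (Set D) := {B | B ∈ L ∧ (hat L B)ᶜ ∈ P}
  have hPF : ∀ U ∈ P, ∃ B ∈ F, U = (hat L B)ᶜ := by
    intro U hU
    obtain ⟨_, ⟨B, hB, rfl⟩, hUB⟩ := hP hU
    rw [(isClopen_hat hB).isClosed.closure_eq] at hUB
    exact ⟨B, ⟨hB, by rw [← hUB]; exact hU⟩, hUB⟩
  obtain ⟨x, hx⟩ := hext F (fun B hB => hB.1) (by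
    intro t ht htf
    by_contra hemp
    refine hcon ((fun B => (hat L B)ᶜ) '' t) ?_ (htf.image _) ?_
    · rintro _ ⟨B, hB, rfl⟩
      exact (ht hB).2
    · intro x _
      by_contra hx
      simp only [sUnion_image, mem_iUnion, mem_compl_iff, exists_prop, not_exists, not_and,
        not_not] at hx
      obtain ⟨C, hC, hCt⟩ := exists_sub_sInter he x t (fun B hB => hx B hB) htf
      exact hemp ((nonempty_of_mem hC).mono hCt))
  obtain ⟨U, hU, hxU⟩ := hcov (mem_univ x)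
  obtain ⟨B, hB, rfl⟩ := hPF U hU
  exact hxU (hx hB)

end Ult2

end Pool.Agent.Helper76
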