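import Mathlib
import Pool.Agent.Helper76.ClusterConfig
import Pool.Agent.Helper76.Ult2

set_option autoImplicit false
universe u

/-!
# The cluster family

For a total configuration `c` we define a family `fam c` of subsets of a set `Dom c`, closed under
countable unions and containing all countable sets, and show that it has the extension property.
-/

namespace Pool.Agent.Helper76

open Set TopologicalSpace

/-- Maximal centered subfamilies of `L`. -/
structure MaxC {D : Type u} (L M : Set (Set D)) : Prop where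
  sub : M ⊆ L
  cen : ∀ t ⊆ M, t.Finite → (⋂₀ t).Nonempty
  max : ∀ B ∈ L, (∀ t ⊆ M, t.Finite → (B ∩ ⋂₀ t).Nonempty) → B ∈ M

theorem exists_maxC {D : Type u} (L F : Set (Set D)) (hF : F ⊆ L)
    (hc : ∀ t ⊆ F, t.Finite → (⋂₀ t).Nonempty) : ∃ M, F ⊆ M ∧ MaxC L M := by
  obtain ⟨M, hFM, hM⟩ := zorn_subset_nonempty
    {M : Set (Set D) | M ⊆ L ∧ ∀ t ⊆ M, t.Finite → (⋂₀ t).Nonempty} (by
      intro c hc hchain hcne
      refine ⟨⋃₀ c, ⟨sUnion_subset fun s hs => (hc hs).1, ?_⟩, fun s hs => subset_sUnion_of_mem hs⟩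
      intro t ht htf
      obtain ⟨s, hs, hts⟩ := hchain.directedOn.exists_mem_subset_of_finite_of_subset_sUnion
        hcne htf ht
      exact (hc hs).2 t hts htf) F ⟨hF, hc⟩
  refine ⟨M, hFM, hM.prop.1, hM.prop.2, ?_⟩
  intro B hB hBt
  have hins : insert B M ∈ {M : Set (Set D) | M ⊆ L ∧ ∀ t ⊆ M, t.Finite → (⋂₀ t).Nonempty} := by
    refine ⟨insert_subset hB hM.prop.1, ?_⟩
    intro t ht htf
    have h1 := hBt (t \ {B}) (by
      intro s hs
      rcases ht hs.1 with h | h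
      · exact absurd h hs.2
      · exact h) htf.sdiff
    obtain ⟨d, hd1, hd2⟩ := h1
    refine ⟨d, ?_⟩
    intro s hs
    by_cases hsB : s = B
    · rw [hsB]; exact hd1
    · exact hd2 s ⟨hs, hsB⟩
  exact hM.le_of_ge hins (subset_insert B M) (mem_insert B M)

theorem Ult2.maxC {D : Type u} {L : Set (Set D)} (he : ∅ ∈ L) (x : Ult2 L) : MaxC L x.1 := by
  refine ⟨x.2.1, ?_, ?_⟩
  · intro t ht htf
    obtain ⟨C, hC, hCt⟩ := Ult2.exists_sub_sInter he x t ht htf
    exact (Ult2.nonempty_of_mem hC).mono hCt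
  · intro B hB h
    by_contra hn
    obtain ⟨C, hC, hC'⟩ := x.2.2.2.2 B hB hn
    have := h {C} (by simpa using hC) (finite_singleton C)
    rw [sInter_singleton, hC'] at this
    exact not_nonempty_empty this

namespace Cluster

variable (c : Config'.{u})

/-- The underlying set. -/
abbrev Dom : Type u := c.G × (ℕ ⊕ Finset c.P)

/-- The basic sets. -/
def V (y : c.P) (K : Set c.G) : Set (Dom c) :=
  {d | d.1 ∈ c.inc y ∧ d.1 ∉ K ∧ ((∃ j, d.2 = Sum.inl j ∧ j < c.lev d.1 ∧ j ≠ c.τ y) ∨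
     ∃ σ, d.2 = Sum.inr σ ∧ y ∈ σ ∧ σ.card ≤ 2 * c.lev d.1 + 1)}

variable {c}

theorem inl_mem_V {y : c.P} {K : Set c.G} {g : c.G} {j : ℕ} :
    (g, Sum.inl j) ∈ V c y K ↔ g ∈ c.inc y ∧ g ∉ K ∧ j < c.lev g ∧ j ≠ c.τ y := by
  simp [V]

theorem inr_mem_V {y : c.P} {K : Set c.G} {g : c.G} {σ : Finset c.P} :
    (g, Sum.inr σ) ∈ V c y K ↔ g ∈ c.inc y ∧ g ∉ K ∧ y ∈ σ ∧ σ.card ≤ 2 * c.lev g + 1 := by
  simp [V]

theorem fst_of_mem_V {y : c.P} {K : Set c.G} {d : Dom c} (h : d ∈ V c y K) :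
    d.1 ∈ c.inc y ∧ d.1 ∉ K := ⟨h.1, h.2.1⟩

theorem V_inter (y : c.P) (K K' : Set c.G) : V c y K ∩ V c y K' = V c y (K ∪ K') := by
  ext ⟨g, j | σ⟩
  · rw [mem_inter_iff, inl_mem_V, inl_mem_V, inl_mem_V, mem_union]
    tauto
  · rw [mem_inter_iff, inr_mem_V, inr_mem_V, inr_mem_V, mem_union]
    tauto

theorem mem_V_union {y : c.P} {K K' : Set c.G} {d : Dom c} (h : d ∈ V c y K) (h' : d.1 ∉ K') :
    d ∈ V c y (K ∪ K') := by
  obtain ⟨h1, h2, h3⟩ := h
  refine ⟨h1, ?_, h3⟩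
  rintro (hK | hK)
  · exact h2 hK
  · exact h' hK

theorem V_anti {y : c.P} {K K' : Set c.G} (h : K ⊆ K') : V c y K' ⊆ V c y K := by
  rintro d ⟨h1, h2, h3⟩
  exact ⟨h1, fun hK => h2 (h hK), h3⟩

variable (c)

/-- The family of all sets `A ∪ ⋃ V y K`, with `A` countable and countably many countable `K`. -/
def fam : Set (Set (Dom c)) :=
  {B | ∃ (A : Set (Dom c)) (T : Set (c.P × Set c.G)), A.Countable ∧ T.Countable ∧
    (∀ p ∈ T, p.2.Countable) ∧ B = A ∪ ⋃ p ∈ T, V c p.1 p.2}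

variable {c}

theorem countable_mem_fam {A : Set (Dom c)} (hA : A.Countable) : A ∈ fam c :=
  ⟨A, ∅, hA, countable_empty, by simp, by simp⟩

theorem empty_mem_fam : ∅ ∈ fam c := countable_mem_fam countable_empty

theorem V_mem_fam (y : c.P) {K : Set c.G} (hK : K.Countable) : V c y K ∈ fam c :=
  ⟨∅, {(y, K)}, countable_empty, countable_singleton _, by simpa using hK, by simp⟩

theorem iUnion_mem_fam (f : ℕ → Set (Dom c)) (hf : ∀ n, f n ∈ fam c) : (⋃ n, f n) ∈ fam c := by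
  choose A T hA hT hTc hB using hf
  refine ⟨⋃ n, A n, ⋃ n, T n, countable_iUnion hA, countable_iUnion hT, ?_, ?_⟩
  · intro p hp
    obtain ⟨n, hn⟩ := mem_iUnion.1 hp
    exact hTc n p hn
  · ext d
    constructor
    · intro hd
      obtain ⟨n, hn⟩ := mem_iUnion.1 hd
      rw [hB n] at hn
      rcases hn with hn | hn
      · exact Or.inl (mem_iUnion.2 ⟨n, hn⟩)
      · obtain ⟨p, hp, hd⟩ := mem_iUnion₂.1 hn
        exact Or.inr (mem_iUnion₂.2 ⟨p, mem_iUnion.2 ⟨n, hp⟩, hd⟩)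
    · rintro (hd | hd)
      · obtain ⟨n, hn⟩ := mem_iUnion.1 hd
        refine mem_iUnion.2 ⟨n, ?_⟩
        rw [hB n]
        exact Or.inl hn
      · obtain ⟨p, hp, hd⟩ := mem_iUnion₂.1 hd
        obtain ⟨n, hn⟩ := mem_iUnion.1 hp
        refine mem_iUnion.2 ⟨n, ?_⟩
        rw [hB n]
        exact Or.inr (mem_iUnion₂.2 ⟨p, hn, hd⟩)

theorem V_nonempty (y : c.P) {K : Set c.G} (hK : K.Countable) : (V c y K).Nonempty := by
  by_contra hne
  apply c.c0 y
  apply hK.mono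
  intro g hg
  by_contra hgK
  apply hne
  refine ⟨(g, Sum.inr {y}), inr_mem_V.2 ⟨hg, hgK, Finset.mem_singleton_self y, ?_⟩⟩
  simp

/-- If a finite intersection of a maximal centered family lives over a countable set of clusters,
then the family has a countable member. -/
theorem exists_countable_mem {M : Set (Set (Dom c))} (hM : MaxC (fam c) M) {C : Set c.G}
    (hC : C.Countable) {t : Set (Set (Dom c))} (ht : t ⊆ M) (htf : t.Finite)
    (htC : ∀ d ∈ ⋂₀ t, d.1 ∈ C) : ∃ A ∈ M, A.Countable := by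
  classical
  by_contra hno
  push Not at hno
  have hfam : ∀ B ∈ M, ∃ (A : Set (Dom c)) (T : Set (c.P × Set c.G)), A.Countable ∧
      T.Countable ∧ (∀ p ∈ T, p.2.Countable) ∧ B = A ∪ ⋃ p ∈ T, V c p.1 p.2 :=
    fun B hB => hM.sub hB
  choose! AA TT hAA hTT hTTc hBB using hfam
  -- an ultrafilter
  have hne : (Filter.generate M).NeBot := Filter.generate_neBot_iff.2 fun t ht htf => hM.cen t ht htf
  obtain ⟨U, hU⟩ := Ultrafilter.exists_le (Filter.generate M)
  have hUM : ∀ B ∈ M, B ∈ U := fun B hB => hU (Filter.mem_generate_of_mem hB)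
  have hUt : ∀ t ⊆ M, t.Finite → ⋂₀ t ∈ U := by
    intro t ht htf
    have : ⋂₀ t ∈ (U : Filter (Dom c)) := (Filter.sInter_mem htf).2 fun B hB => hUM B (ht hB)
    exact this
  have hUC : {d : Dom c | d.1 ∈ C} ∈ U := Filter.mem_of_superset (hUt t ht htf) htC
  have hUnc : ∀ A : Set (Dom c), A.Countable → Aᶜ ∈ U := by
    intro A hA
    rw [Ultrafilter.compl_mem_iff_notMem]
    intro hAU
    refine hno A (hM.max A (countable_mem_fam hA) ?_) hA
    intro s hs hsf
    exact Ultrafilter.nonempty_of_mem (Filter.inter_mem hAU (hUt s hs hsf))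
  have hUA : ∀ s ⊆ M, s.Finite → (⋂ B ∈ s, (AA B)ᶜ) ∈ U := by
    intro s hs hsf
    have : (⋂ B ∈ s, (AA B)ᶜ) ∈ (U : Filter (Dom c)) :=
      (Filter.biInter_mem hsf).2 fun B hB => hUnc _ (hAA B (hs hB))
    exact this
  have hcase : ∀ B ∈ M, ∀ d ∈ B, d ∉ AA B → ∃ p ∈ TT B, d ∈ V c p.1 p.2 := by
    intro B hB d hd hdA
    rw [hBB B hB] at hd
    rcases hd with hd | hd
    · exact absurd hd hdA
    · obtain ⟨p, hp, hdp⟩ := mem_iUnion₂.1 hd
      exact ⟨p, hp, hdp⟩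
  have hsubB : ∀ B ∈ M, ∀ p ∈ TT B, V c p.1 p.2 ⊆ B := by
    intro B hB p hp d hd
    rw [hBB B hB]
    exact Or.inr (mem_iUnion₂.2 ⟨p, hp, hd⟩)
  have hcore : {d : Dom c | d.1 ∈ C ∧ ∃ j, d.2 = Sum.inl j}.Countable := by
    refine ((hC.prod (countable_univ (α := ℕ))).image
      (fun q : c.G × ℕ => ((q.1, Sum.inl q.2) : Dom c))).mono ?_
    rintro ⟨g, e⟩ ⟨h1, j, h2⟩
    simp only at h1 h2
    subst h2
    exact ⟨(g, j), ⟨h1, mem_univ _⟩, rfl⟩
  by_cases hlev : ∀ m : ℕ, {d : Dom c | m < c.lev d.1} ∈ U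
  · -- unbounded levels
    refine hno _ (hM.max _ (countable_mem_fam hcore) ?_) hcore
    intro s hs hsf
    obtain ⟨d, hd⟩ := Ultrafilter.nonempty_of_mem (Filter.inter_mem
      (Filter.inter_mem (hUt s hs hsf) hUC)
      (Filter.inter_mem (hlev hsf.toFinset.card) (hUA s hs hsf)))
    obtain ⟨⟨hd1, hd2⟩, hd3, hd4⟩ := hd
    have hp : ∀ B ∈ s, ∃ n : ℕ, ∃ p ∈ TT B, d ∈ V c p.1 p.2 ∧ c.τ p.1 = n := by
      intro B hB
      obtain ⟨p, hp, hdp⟩ := hcase B (hs hB) d (hd1 B hB) (mem_iInter₂.1 hd4 B hB)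
      exact ⟨_, p, hp, hdp, rfl⟩
    choose! n hn using hp
    obtain ⟨j, hj1, hj2⟩ : ∃ j ∈ Finset.range (c.lev d.1), j ∉ hsf.toFinset.image n := by
      apply Finset.exists_mem_notMem_of_card_lt_card
      rw [Finset.card_range]
      exact lt_of_le_of_lt Finset.card_image_le hd3
    refine ⟨(d.1, Sum.inl j), ⟨hd2, j, rfl⟩, ?_⟩
    intro B hB
    obtain ⟨p, hp, hdp, hpn⟩ := hn B hB
    apply hsubB B (hs hB) p hp
    obtain ⟨h1, h2⟩ := fst_of_mem_V hdp
    refine inl_mem_V.2 ⟨h1, h2, Finset.mem_range.1 hj1, ?_⟩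
    rintro rfl
    exact hj2 (Finset.mem_image.2 ⟨B, hsf.mem_toFinset.2 hB, hpn.symm⟩)
  · -- bounded levels
    push Not at hlev
    obtain ⟨m, hm⟩ := hlev
    have hm' : {d : Dom c | c.lev d.1 ≤ m} ∈ U := by
      have := Ultrafilter.compl_mem_iff_notMem.2 hm
      refine Filter.mem_of_superset this ?_
      intro d hd
      simpa using hd
    let wE : Set (c.G × Finset c.P) → Set (Dom c) := fun E =>
      {d | ∃ σ, d.2 = Sum.inr σ ∧ ∃ e ∈ E, e.1 = d.1 ∧ e.2 ⊆ σ}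
    let Φ : ℕ → Prop := fun j => ∃ E : Set (c.G × Finset c.P), E.Countable ∧
      (∀ e ∈ E, j ≤ e.2.card) ∧ wE E ∈ U
    have h0 : Φ 0 := by
      refine ⟨(fun g => (g, ∅)) '' C, hC.image _, fun e _ => Nat.zero_le _, ?_⟩
      refine Filter.mem_of_superset (Filter.inter_mem hUC (hUnc _ hcore)) ?_
      rintro ⟨g, j | σ⟩ ⟨h1, h2⟩
      · exact absurd ⟨h1, j, rfl⟩ h2
      · exact ⟨σ, rfl, (g, ∅), ⟨g, h1, rfl⟩, rfl, Finset.empty_subset _⟩
    have hbig : ¬ Φ (2 * m + 2) := by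
      rintro ⟨E, hE, hEc, hEU⟩
      have hMne : M.Nonempty := by
        by_contra hemp
        rw [not_nonempty_iff_eq_empty] at hemp
        obtain ⟨d, -⟩ := Ultrafilter.nonempty_of_mem hEU
        have : ({d} : Set (Dom c)) ∈ M := by
          apply hM.max _ (countable_mem_fam (countable_singleton d))
          intro s hs _
          rw [hemp, subset_empty_iff] at hs
          rw [hs]
          simp
        exact hno _ this (countable_singleton d)
      obtain ⟨B, hB⟩ := hMne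
      obtain ⟨d, ⟨hd1, hd2⟩, hd3, hd4⟩ := Ultrafilter.nonempty_of_mem (Filter.inter_mem
        (Filter.inter_mem hEU (hUM B hB)) (Filter.inter_mem (hUnc _ (hAA B hB)) hm'))
      obtain ⟨σ, hσ, e, he, he1, he2⟩ := hd1
      obtain ⟨p, hp, hdp⟩ := hcase B hB d hd2 hd3
      obtain ⟨g, x⟩ := d
      simp only at hσ
      subst hσ
      have h1 := (inr_mem_V.1 hdp).2.2.2
      have h2 := Finset.card_le_card he2
      have h3 := hEc e he
      have h4 : c.lev g ≤ m := hd4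
      omega
    have hex : ∃ j, Φ j ∧ ¬ Φ (j + 1) := by
      by_contra hcon
      push Not at hcon
      have : ∀ j, Φ j := by
        intro j
        induction j with
        | zero => exact h0
        | succ j ih => exact hcon j ih
      exact hbig (this _)
    obtain ⟨j, ⟨E, hE, hEc, hEU⟩, hj⟩ := hex
    have hAc : ((fun e : c.G × Finset c.P => ((e.1, Sum.inr e.2) : Dom c)) '' E).Countable :=
      hE.image _
    refine hno _ (hM.max _ (countable_mem_fam hAc) ?_) hAc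
    intro s hs hsf
    by_contra hemp
    apply hj
    refine ⟨⋃ B ∈ s, (fun q : (c.G × Finset c.P) × (c.P × Set c.G) =>
      ((q.1.1, insert q.2.1 q.1.2) : c.G × Finset c.P)) ''
        {q | q.1 ∈ E ∧ q.2 ∈ TT B ∧ q.2.1 ∉ q.1.2}, ?_, ?_, ?_⟩
    · apply hsf.countable.biUnion
      intro B hB
      apply Countable.image
      refine (hE.prod (hTT B (hs hB))).mono ?_
      rintro ⟨q1, q2⟩ ⟨h1, h2, -⟩
      exact ⟨h1, h2⟩
    · intro e he
      obtain ⟨B, hB, q, ⟨hq1, hq2, hq3⟩, rfl⟩ := mem_iUnion₂.1 he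
      simp only
      rw [Finset.card_insert_of_notMem hq3]
      exact Nat.succ_le_succ (hEc _ hq1)
    · refine Filter.mem_of_superset (Filter.inter_mem
        (Filter.inter_mem hEU (hUt s hs hsf)) (hUA s hs hsf)) ?_
      rintro d ⟨⟨hd1, hd2⟩, hd3⟩
      obtain ⟨σ, hσ, e, he, he1, he2⟩ := hd1
      -- the element `(e.1, e.2)` is not in the intersection
      have : ∃ B ∈ s, ((e.1, Sum.inr e.2) : Dom c) ∉ B := by
        by_contra hall
        push Not at hall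
        exact hemp ⟨(e.1, Sum.inr e.2), ⟨e, he, rfl⟩, hall⟩
      obtain ⟨B, hB, heB⟩ := this
      obtain ⟨p, hp, hdp⟩ := hcase B (hs hB) d (hd2 B hB) (mem_iInter₂.1 hd3 B hB)
      obtain ⟨g, x⟩ := d
      simp only at hσ he1
      subst hσ
      subst he1
      obtain ⟨h1, h2, h3, h4⟩ := inr_mem_V.1 hdp
      have hpe : p.1 ∉ e.2 := by
        intro hpe
        apply heB
        apply hsubB B (hs hB) p hp
        exact inr_mem_V.2 ⟨h1, h2, hpe, (Finset.card_le_card he2).trans h4⟩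
      refine ⟨σ, rfl, (e.1, insert p.1 e.2), ?_, rfl, ?_⟩
      · exact mem_iUnion₂.2 ⟨B, hB, (e, p), ⟨he, hp, hpe⟩, rfl⟩
      · exact Finset.insert_subset h3 he2

/-- The extension property of `fam c`. -/
theorem ext_fam : Ult2.Ext (fam c) := by
  intro F hF hFc
  obtain ⟨M, hFM, hM⟩ := exists_maxC (fam c) F hF hFc
  have hadd : ∀ B1 ∈ M, ∀ B2 ∈ M, ∀ t ⊆ M, t.Finite → (B1 ∩ B2 ∩ ⋂₀ t).Nonempty := by
    intro B1 hB1 B2 hB2 t ht htf
    have := hM.cen (insert B1 (insert B2 t))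
      (insert_subset hB1 (insert_subset hB2 ht)) ((htf.insert B2).insert B1)
    simpa [sInter_insert, inter_assoc] using this
  have hbase : ∀ B1 ∈ M, ∀ B2 ∈ M, ∃ B3 ∈ M, B3 ⊆ B1 ∩ B2 := by
    intro B1 hB1 B2 hB2
    by_cases hA : ∃ A ∈ M, A.Countable
    · obtain ⟨A, hAM, hAc⟩ := hA
      refine ⟨A ∩ (B1 ∩ B2), ?_, inter_subset_right⟩
      apply hM.max _ (countable_mem_fam (hAc.mono inter_subset_left))
      intro t ht htf
      have := hM.cen (insert A (insert B1 (insert B2 t)))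
        (insert_subset hAM (insert_subset hB1 (insert_subset hB2 ht)))
        (((htf.insert B2).insert B1).insert A)
      simpa [sInter_insert, inter_assoc] using this
    · obtain ⟨A1, T1, hA1, hT1, hT1c, rfl⟩ := hM.sub hB1
      obtain ⟨A2, T2, hA2, hT2, hT2c, rfl⟩ := hM.sub hB2
      let T3 : Set (c.P × Set c.G) :=
        (fun q : (c.P × Set c.G) × (c.P × Set c.G) => (q.1.1, q.1.2 ∪ q.2.2)) ''
          {q | q.1 ∈ T1 ∧ q.2 ∈ T2 ∧ q.1.1 = q.2.1}
      have hT3 : T3.Countable := by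
        apply Countable.image
        refine (hT1.prod hT2).mono ?_
        rintro ⟨q1, q2⟩ ⟨h1, h2, -⟩
        exact ⟨h1, h2⟩
      have hT3c : ∀ p ∈ T3, p.2.Countable := by
        rintro _ ⟨q, ⟨h1, h2, -⟩, rfl⟩
        exact (hT1c _ h1).union (hT2c _ h2)
      have hB3 : (⋃ p ∈ T3, V c p.1 p.2) ∈ fam c :=
        ⟨∅, T3, countable_empty, hT3, hT3c, by simp⟩
      refine ⟨⋃ p ∈ T3, V c p.1 p.2, ?_, ?_⟩
      · by_contra hn
        have hn' : ∃ t ⊆ M, t.Finite ∧ ¬ ((⋃ p ∈ T3, V c p.1 p.2) ∩ ⋂₀ t).Nonempty := by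
          by_contra hall
          push Not at hall
          exact hn (hM.max _ hB3 hall)
        obtain ⟨t, ht, htf, hte⟩ := hn'
        -- a countable set of clusters
        let C : Set c.G := Prod.fst '' (A1 ∪ A2) ∪
          ⋃ q ∈ T1 ×ˢ T2, {g | q.1.1 ≠ q.2.1 ∧ g ∈ c.inc q.1.1 ∩ c.inc q.2.1}
        have hC : C.Countable := by
          apply ((hA1.union hA2).image _).union
          apply (hT1.prod hT2).biUnion
          intro q _
          by_cases hq : q.1.1 = q.2.1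
          · simp [hq]
          · exact (c.c1 _ _ hq).mono (fun g hg => hg.2)
        apply hA
        refine exists_countable_mem hM hC (t := insert (A1 ∪ ⋃ p ∈ T1, V c p.1 p.2)
          (insert (A2 ∪ ⋃ p ∈ T2, V c p.1 p.2) t))
          (insert_subset hB1 (insert_subset hB2 ht)) ((htf.insert _).insert _) ?_
        intro d hd
        rw [sInter_insert, sInter_insert] at hd
        obtain ⟨hd1, hd2, hd3⟩ := hd
        rcases hd1 with hd1 | hd1
        · exact Or.inl ⟨d, Or.inl hd1, rfl⟩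
        rcases hd2 with hd2 | hd2
        · exact Or.inl ⟨d, Or.inr hd2, rfl⟩
        obtain ⟨p1, hp1, hdp1⟩ := mem_iUnion₂.1 hd1
        obtain ⟨p2, hp2, hdp2⟩ := mem_iUnion₂.1 hd2
        by_cases hpp : p1.1 = p2.1
        · exfalso
          apply hte
          refine ⟨d, mem_iUnion₂.2 ⟨(p1.1, p1.2 ∪ p2.2), ⟨(p1, p2), ⟨hp1, hp2, hpp⟩, rfl⟩, ?_⟩, hd3⟩
          exact mem_V_union hdp1 (fst_of_mem_V hdp2).2
        · refine Or.inr (mem_iUnion₂.2 ⟨(p1, p2), ⟨hp1, hp2⟩, hpp, ?_, ?_⟩)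
          · exact (fst_of_mem_V hdp1).1
          · exact (fst_of_mem_V hdp2).1
      · intro d hd
        obtain ⟨_, ⟨q, ⟨hq1, hq2, hq3⟩, rfl⟩, hdV⟩ := mem_iUnion₂.1 hd
        simp only at hdV
        refine ⟨Or.inr (mem_iUnion₂.2 ⟨q.1, hq1, V_anti subset_union_left hdV⟩), ?_⟩
        refine Or.inr (mem_iUnion₂.2 ⟨q.2, hq2, ?_⟩)
        rw [hq3] at hdV
        exact V_anti subset_union_right hdV
  have hMne : M.Nonempty := by
    by_contra hemp
    rw [not_nonempty_iff_eq_empty] at hemp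
    obtain ⟨d, -⟩ := hM.cen ∅ (empty_subset _) finite_empty
    have : ({d} : Set (Dom c)) ∈ M := by
      apply hM.max _ (countable_mem_fam (countable_singleton d))
      intro s hs _
      rw [hemp, subset_empty_iff] at hs
      rw [hs]
      simp
    rw [hemp] at this
    exact this
  have hfin : ∀ t ⊆ M, t.Finite → ∃ C ∈ M, C ⊆ ⋂₀ t := by
    intro t ht htf
    induction t, htf using Set.Finite.induction_on with
    | empty => obtain ⟨C, hC⟩ := hMne; exact ⟨C, hC, by simp⟩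
    | @insert a s _ _ ih =>
      obtain ⟨C, hC, hCs⟩ := ih ((subset_insert a s).trans ht)
      obtain ⟨E, hE, hEs⟩ := hbase a (ht (mem_insert a s)) C hC
      refine ⟨E, hE, ?_⟩
      rw [sInter_insert]
      exact hEs.trans (inter_subset_inter_right a hCs)
  refine ⟨⟨M, hM.sub, ?_, hbase, ?_⟩, hFM⟩
  · intro he
    have := hM.cen {∅} (by simpa using he) (finite_singleton _)
    simp at this
  · intro B hB hBM
    by_contra hcon
    push Not at hcon
    apply hBM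
    apply hM.max B hB
    intro t ht htf
    obtain ⟨C, hC, hCt⟩ := hfin t ht htf
    obtain ⟨d, hd⟩ := hcon C hC
    exact ⟨d, hd.1, hCt hd.2⟩

/-- The point given by a line `y`. -/
def pt (y : c.P) : Ult2 (fam c) := by
  refine ⟨{B | B ∈ fam c ∧ ∃ K : Set c.G, K.Countable ∧ V c y K ⊆ B}, fun B hB => hB.1, ?_, ?_, ?_⟩
  · rintro ⟨-, K, hK, hKe⟩
    exact not_nonempty_empty ((V_nonempty y hK).mono hKe)
  · rintro B1 ⟨-, K1, hK1, h1⟩ B2 ⟨-, K2, hK2, h2⟩
    refine ⟨V c y (K1 ∪ K2), ⟨V_mem_fam y (hK1.union hK2), K1 ∪ K2, hK1.union hK2, Subset.rfl⟩, ?_⟩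
    rw [← V_inter]
    exact inter_subset_inter h1 h2
  · intro B hB hBn
    obtain ⟨A, T, hA, hT, hTc, rfl⟩ := id hB
    have hyT : ∀ p ∈ T, p.1 ≠ y := by
      rintro ⟨p1, p2⟩ hp hpy
      simp only at hpy
      subst hpy
      exact hBn ⟨hB, p2, hTc _ hp, fun d hd => Or.inr (mem_iUnion₂.2 ⟨(p1, p2), hp, hd⟩)⟩
    let K : Set c.G := Prod.fst '' A ∪ ⋃ p ∈ T, c.inc p.1 ∩ c.inc y
    have hK : K.Countable := (hA.image _).union (hT.biUnion fun p hp => c.c1 _ _ (hyT p hp))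
    refine ⟨V c y K, ⟨V_mem_fam y hK, K, hK, Subset.rfl⟩, ?_⟩
    apply eq_empty_of_subset_empty
    rintro d ⟨hd1, hd2⟩
    obtain ⟨h1, h2⟩ := fst_of_mem_V hd2
    apply h2
    rcases hd1 with hd1 | hd1
    · exact Or.inl ⟨d, hd1, rfl⟩
    · obtain ⟨p, hp, hdp⟩ := mem_iUnion₂.1 hd1
      exact Or.inr (mem_iUnion₂.2 ⟨p, hp, (fst_of_mem_V hdp).1, h1⟩)

theorem mem_pt {y : c.P} {B : Set (Dom c)} :
    B ∈ (pt y).1 ↔ B ∈ fam c ∧ ∃ K : Set c.G, K.Countable ∧ V c y K ⊆ B := Iff.rfl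

end Cluster

end Pool.Agent.Helper76
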