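import Mathlib
import Pool.Agent.Helper76.ClusterBase

set_option autoImplicit false
universe u

/-!
# No base of the cluster space is closed under finite intersections and cocompact
-/

namespace Pool.Agent.Helper76

open Set TopologicalSpace

/-- A base closed under finite intersections and under closures of countable unions, all of whose
centered subfamilies have nonempty intersection. -/
structure NiceBase {X : Type u} [TopologicalSpace X] (𝓑 : Set (Set X)) : Prop where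
  basis : IsTopologicalBasis 𝓑
  inter : ∀ U ∈ 𝓑, ∀ W ∈ 𝓑, U ∩ W ∈ 𝓑
  clu : ∀ f : ℕ → Set X, (∀ n, f n ∈ 𝓑) → closure (⋃ n, f n) ∈ 𝓑
  fip : ∀ F ⊆ 𝓑, (∀ t ⊆ F, t.Finite → (⋂₀ t).Nonempty) → (⋂₀ F).Nonempty

namespace Cluster

variable {c : Config'.{u}}

theorem no_nice_base (𝓑 : Set (Set (Ult2 (fam c)))) (h𝓑 : NiceBase 𝓑) : False := by
  classical
  obtain ⟨hbase, hinter, hclu, hfip⟩ := h𝓑
  have h1 : ∀ y : c.P, ∃ B' ∈ 𝓑, ∃ K : Set c.G, K.Countable ∧
      Ult2.hat (fam c) (V c y K) ⊆ B' ∧ B' ⊆ Ult2.hat (fam c) (V c y ∅) := by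
    intro y
    obtain ⟨B', hB', hy, hsub⟩ := hbase.exists_subset_of_mem_open
      (show pt y ∈ Ult2.hat (fam c) (V c y ∅) from
        ⟨V_mem_fam y countable_empty, ∅, countable_empty, Subset.rfl⟩)
      (Ult2.isOpen_hat (V_mem_fam y countable_empty))
    obtain ⟨_, ⟨B, hB, rfl⟩, hyB, hBB'⟩ :=
      (Ult2.isTopologicalBasis empty_mem_fam).exists_subset_of_mem_open hy (hbase.isOpen hB')
    obtain ⟨hBf, K, hK, hKB⟩ := hyB
    refine ⟨B', hB', K, hK, ?_, hsub⟩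
    intro x hx
    exact hBB' (Ult2.up hx hBf hKB)
  choose B' hB' K hK hKB hBV using h1
  have h2 : ∀ k : ℕ, ∃ g, c.lev g = k + 1 ∧ ∃ y : ℕ → c.P,
      (∀ i < k + 1, c.τ (y i) = i ∧ g ∈ c.inc (y i) ∧ g ∉ K (y i)) ∧
      ¬ {z | g ∈ c.inc z ∧ g ∉ K z}.Countable := by
    intro k
    obtain ⟨g, hg1, hg2, hg3⟩ := c.c2 K hK (k + 1)
    have : Nonempty c.P := by
      obtain ⟨y, -⟩ := hg2 0 (Nat.succ_pos k)
      exact ⟨y⟩
    choose! y hy using hg2
    exact ⟨g, hg1, y, hy, hg3⟩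
  choose g hg y hy hZ' using h2
  have hZ : ∀ k, ∀ S : Set c.P, S.Countable →
      ∃ z, g k ∈ c.inc z ∧ g k ∉ K z ∧ z ≠ y k 0 ∧ z ∉ S := by
    intro k S hS
    by_contra hcon
    push Not at hcon
    apply hZ' k
    refine (hS.insert (y k 0)).mono ?_
    rintro z ⟨hz1, hz2⟩
    by_cases hz : z = y k 0
    · exact Or.inl hz
    · exact Or.inr (hcon z hz1 hz2 hz)
  have hP : Nonempty c.P := ⟨y 0 0⟩
  let σ' : (ℕ → c.P) → ℕ → Finset c.P := fun ζ k =>
    insert (ζ k) ((Finset.range (k + 1)).image (y k))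
  let W : (ℕ → c.P) → ℕ → Set (Ult2 (fam c)) := fun ζ k => ⋂ z ∈ σ' ζ k, B' z
  have hfinint : ∀ σ : Finset c.P, σ.Nonempty → (⋂ z ∈ σ, B' z) ∈ 𝓑 := by
    intro σ hσ
    induction hσ using Finset.Nonempty.cons_induction with
    | singleton a => simpa using hB' a
    | cons a s ha hs ih =>
      have : (⋂ z ∈ Finset.cons a s ha, B' z) = B' a ∩ ⋂ z ∈ s, B' z := by
        simp
      rw [this]
      exact hinter _ (hB' a) _ ih
  have hW𝓑 : ∀ ζ k, W ζ k ∈ 𝓑 := fun ζ k => hfinint _ (Finset.insert_nonempty _ _)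
  have hWζ : ∀ ζ k, ∀ x ∈ W ζ k, V c (ζ k) ∅ ∈ x.1 := by
    intro ζ k x hx
    exact hBV _ (mem_iInter₂.1 hx _ (Finset.mem_insert_self _ _))
  have hWy : ∀ ζ k, ∀ x ∈ W ζ k, ∀ i < k + 1, V c (y k i) ∅ ∈ x.1 := by
    intro ζ k x hx i hi
    exact hBV _ (mem_iInter₂.1 hx _ (Finset.mem_insert_of_mem
      (Finset.mem_image_of_mem _ (Finset.mem_range.2 hi))))
  let good : (ℕ → c.P) → Prop := fun ζ =>
    ∀ k, g k ∈ c.inc (ζ k) ∧ g k ∉ K (ζ k) ∧ ζ k ≠ y k 0
  let U : (ℕ → c.P) → Set (Ult2 (fam c)) := fun ζ => closure (⋃ k, W ζ k)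
  -- the intersection of all `U ζ` is nonempty
  obtain ⟨x, hx⟩ : (⋂₀ {u | ∃ ζ, good ζ ∧ U ζ = u}).Nonempty := by
    apply hfip
    · rintro _ ⟨ζ, -, rfl⟩
      exact hclu _ (hW𝓑 ζ)
    · intro t ht htf
      have hζ : ∀ u ∈ t, ∃ ζ, good ζ ∧ U ζ = u := fun u hu => ht hu
      choose! ζ hζ1 hζ2 using hζ
      let n := htf.toFinset.card
      let σ : Finset c.P := (Finset.range (n + 1)).image (y n) ∪
        htf.toFinset.image (fun u => ζ u n)
      have hσc : σ.card ≤ 2 * c.lev (g n) + 1 := by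
        rw [hg n]
        have h3 : ((Finset.range (n + 1)).image (y n)).card ≤ n + 1 := by
          refine Finset.card_image_le.trans ?_
          rw [Finset.card_range]
        have h4 : (htf.toFinset.image (fun u => ζ u n)).card ≤ n := Finset.card_image_le
        have h5 := Finset.card_union_le ((Finset.range (n + 1)).image (y n))
          (htf.toFinset.image (fun u => ζ u n))
        have h6 : σ.card ≤ _ := h5
        omega
      have hσg : ∀ z ∈ σ, g n ∈ c.inc z ∧ g n ∉ K z := by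
        intro z hz
        rcases Finset.mem_union.1 hz with hz | hz
        · obtain ⟨i, hi, rfl⟩ := Finset.mem_image.1 hz
          exact (hy n i (Finset.mem_range.1 hi)).2
        · obtain ⟨u, hu, rfl⟩ := Finset.mem_image.1 hz
          have := hζ1 u (htf.mem_toFinset.1 hu) n
          exact ⟨this.1, this.2.1⟩
      obtain ⟨x, hx⟩ := ext_fam (c := c) {B | ∃ z ∈ σ, B = V c z (K z)} (by
        rintro _ ⟨z, -, rfl⟩
        exact V_mem_fam z (hK z)) (by
        intro s hs _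
        refine ⟨(g n, Sum.inr σ), ?_⟩
        intro B hB
        obtain ⟨z, hz, rfl⟩ := hs hB
        exact inr_mem_V.2 ⟨(hσg z hz).1, (hσg z hz).2, hz, hσc⟩)
      refine ⟨x, ?_⟩
      intro u hu
      rw [← hζ2 u hu]
      apply subset_closure
      refine mem_iUnion.2 ⟨n, mem_iInter₂.2 ?_⟩
      intro z hz
      apply hKB z
      have hzσ : z ∈ σ := by
        rcases Finset.mem_insert.1 hz with rfl | hz
        · exact Finset.mem_union_right _ (Finset.mem_image.2 ⟨u, htf.mem_toFinset.2 hu, rfl⟩)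
        · exact Finset.mem_union_left _ hz
      exact hx ⟨z, hzσ, rfl⟩
  have hxU : ∀ ζ, good ζ → x ∈ U ζ := fun ζ hζ => hx _ ⟨ζ, hζ, rfl⟩
  by_cases hA : ∃ A ∈ x.1, A.Countable
  · obtain ⟨A, hAx, hAc⟩ := hA
    have hS : {z : c.P | ∃ d ∈ A, ∃ σ, d.2 = Sum.inr σ ∧ z ∈ σ}.Countable := by
      have : {z : c.P | ∃ d ∈ A, ∃ σ, d.2 = Sum.inr σ ∧ z ∈ σ} ⊆
          ⋃ d ∈ A, {z : c.P | ∃ σ, d.2 = Sum.inr σ ∧ z ∈ σ} := by
        rintro z ⟨d, hd, h⟩
        exact mem_iUnion₂.2 ⟨d, hd, h⟩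
      refine (hAc.biUnion ?_).mono this
      rintro ⟨g', j | σ⟩ _
      · simp
      · refine σ.countable_toSet.mono ?_
        rintro z ⟨σ', h1, h2⟩
        simp only [Sum.inr.injEq] at h1
        rw [h1]
        exact h2
    choose ζ hζ1 hζ2 hζ3 hζ4 using fun k => hZ k _ hS
    have hgood : good ζ := fun k => ⟨hζ1 k, hζ2 k, hζ3 k⟩
    obtain ⟨x', hx'A, hx'W⟩ := mem_closure_iff.1 (hxU ζ hgood) (Ult2.hat (fam c) A)
      (Ult2.isOpen_hat (countable_mem_fam hAc)) hAx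
    obtain ⟨k, hk⟩ := mem_iUnion.1 hx'W
    obtain ⟨C, hC, hCs⟩ := Ult2.exists_sub_sInter empty_mem_fam x'
      (insert A (insert (V c (ζ k) ∅) ((fun i => V c (y k i) ∅) '' {i | i < k + 1}))) (by
        refine insert_subset (show A ∈ x'.1 from hx'A) (insert_subset (hWζ ζ k x' hk) ?_)
        rintro _ ⟨i, hi, rfl⟩
        exact hWy ζ k x' hk i hi) (by
        exact (((finite_lt_nat (k + 1)).image _).insert _).insert _)
    obtain ⟨d, hd⟩ := Ult2.nonempty_of_mem hC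
    have hd' := hCs hd
    have hdA : d ∈ A := hd' A (mem_insert _ _)
    have hdζ : d ∈ V c (ζ k) ∅ := hd' _ (mem_insert_of_mem _ (mem_insert _ _))
    have hdy : ∀ i < k + 1, d ∈ V c (y k i) ∅ := fun i hi =>
      hd' _ (mem_insert_of_mem _ (mem_insert_of_mem _ ⟨i, hi, rfl⟩))
    obtain ⟨g', j | σ⟩ := d
    · have h3 := inl_mem_V.1 (hdy 0 (Nat.succ_pos k))
      have h4 : c.lev g' = k + 1 := by
        rw [← hg k]
        exact c.c3 (y k 0) g' h3.1 (g k) (hy k 0 (Nat.succ_pos k)).2.1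
      have h5 : j < k + 1 := by
        rw [← h4]
        exact h3.2.2.1
      exact (inl_mem_V.1 (hdy j h5)).2.2.2 (hy k j h5).1.symm
    · exact hζ4 k ⟨(g', Sum.inr σ), hdA, σ, rfl, (inr_mem_V.1 hdζ).2.2.1⟩
  · choose ζ hζ1 hζ2 hζ3 _ using fun k => hZ k ∅ countable_empty
    have hgood : good ζ := fun k => ⟨hζ1 k, hζ2 k, hζ3 k⟩
    let C : Set c.G := ⋃ k, c.inc (y k 0) ∩ c.inc (ζ k)
    have hC : C.Countable := countable_iUnion fun k => c.c1 _ _ (hζ3 k).symm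
    obtain ⟨B, hB⟩ := Ult2.exists_mem empty_mem_fam x
    obtain ⟨A, T, hAc, hT, hTc, hBe⟩ := x.2.1 hB
    have hBs : (⋃ p ∈ T, V c p.1 (p.2 ∪ C)) ∈ fam c := by
      refine ⟨∅, (fun p : c.P × Set c.G => (p.1, p.2 ∪ C)) '' T, countable_empty, hT.image _,
        ?_, ?_⟩
      · rintro _ ⟨p, hp, rfl⟩
        exact (hTc p hp).union hC
      · rw [biUnion_image, empty_union]
    have hBsx : (⋃ p ∈ T, V c p.1 (p.2 ∪ C)) ∈ x.1 := by
      by_contra hn
      obtain ⟨B2, hB2, hB2e⟩ := x.2.2.2.2 _ hBs hn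
      apply hA
      refine exists_countable_mem (Ult2.maxC empty_mem_fam x) (C := Prod.fst '' A ∪ C)
        ((hAc.image _).union hC) (t := {B, B2}) ?_ ((finite_singleton _).insert _) ?_
      · rintro _ (rfl | rfl)
        · exact hB
        · exact hB2
      · intro d hd
        have hdB : d ∈ B := hd B (mem_insert _ _)
        have hdB2 : d ∈ B2 := hd B2 (mem_insert_of_mem _ rfl)
        rw [hBe] at hdB
        rcases hdB with hdA | hdV
        · exact Or.inl ⟨d, hdA, rfl⟩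
        · obtain ⟨p, hp, hdp⟩ := mem_iUnion₂.1 hdV
          by_contra hdn
          have : d ∈ (⋃ p ∈ T, V c p.1 (p.2 ∪ C)) ∩ B2 :=
            ⟨mem_iUnion₂.2 ⟨p, hp, mem_V_union hdp (fun h => hdn (Or.inr h))⟩, hdB2⟩
          rw [hB2e] at this
          exact this
    obtain ⟨x', hx'B, hx'W⟩ := mem_closure_iff.1 (hxU ζ hgood) (Ult2.hat (fam c) _)
      (Ult2.isOpen_hat hBs) hBsx
    obtain ⟨k, hk⟩ := mem_iUnion.1 hx'W
    obtain ⟨E, hE, hEs⟩ := Ult2.exists_sub (hWζ ζ k x' hk) (hWy ζ k x' hk 0 (Nat.succ_pos k))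
    obtain ⟨d, hd1, hd2⟩ := Ult2.inter_nonempty hx'B hE
    obtain ⟨p, hp, hdp⟩ := mem_iUnion₂.1 hd1
    apply (fst_of_mem_V hdp).2
    refine Or.inr (mem_iUnion.2 ⟨k, ?_, ?_⟩)
    · exact (fst_of_mem_V (hEs hd2).2).1
    · exact (fst_of_mem_V (hEs hd2).1).1

end Cluster

end Pool.Agent.Helper76
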