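import Mathlib

set_option autoImplicit false
universe u

namespace Pool.Agent.Helper76

open Cardinal Set

/-- Delta-system lemma for finite sets of a fixed size. -/
theorem delta_system_aux {I A : Type u} [DecidableEq A] (κ : Cardinal.{u}) (hκ : κ.IsRegular)
    (n : ℕ) :
    ∀ (F : I → Finset A) (S : Set I), κ ≤ #S → (∀ i ∈ S, (F i).card = n) →
    ∃ J : Set I, J ⊆ S ∧ κ ≤ #J ∧
      ∃ R : Finset A, ∀ i ∈ J, ∀ j ∈ J, i ≠ j → F i ∩ F j = R := by
  induction n with
  | zero =>
    intro F S hS hF
    exact ⟨S, Subset.rfl, hS, ∅, fun i hi j hj _ => by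
      have := Finset.card_eq_zero.1 (hF i hi); simp [this]⟩
  | succ n ih =>
    intro F S hS hF
    by_cases h : ∃ a : A, κ ≤ #{i | i ∈ S ∧ a ∈ F i}
    · obtain ⟨a, ha⟩ := h
      obtain ⟨J, hJS, hJ, R, hR⟩ := ih (fun i => (F i).erase a) {i | i ∈ S ∧ a ∈ F i} ha (by
        intro i hi
        rw [Finset.card_erase_of_mem hi.2, hF i hi.1]; rfl)
      refine ⟨J, fun i hi => (hJS hi).1, hJ, insert a R, ?_⟩
      intro i hi j hj hij
      have h1 := hR i hi j hj hij
      have hi' := (hJS hi).2
      have hj' := (hJS hj).2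
      ext x
      by_cases hx : x = a
      · subst hx; simp [hi', hj']
      · have : x ∈ (F i).erase a ∩ (F j).erase a ↔ x ∈ R := by rw [h1]
        simp only [Finset.mem_inter, Finset.mem_erase, ne_eq, hx, not_false_eq_true, true_and,
          Finset.mem_insert, false_or] at this ⊢
        exact this
    · push Not at h
      obtain ⟨M, hM⟩ := zorn_subset {J : Set I | J ⊆ S ∧ ∀ i ∈ J, ∀ j ∈ J, i ≠ j →
        F i ∩ F j = ∅} (by
          intro c hc hchain
          refine ⟨⋃₀ c, ⟨?_, ?_⟩, fun s hs => subset_sUnion_of_mem hs⟩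
          · exact sUnion_subset fun s hs => (hc hs).1
          · rintro i ⟨s, hs, his⟩ j ⟨t, ht, hjt⟩ hij
            rcases hchain.total hs ht with hst | hts
            · exact (hc ht).2 i (hst his) j hjt hij
            · exact (hc hs).2 i his j (hts hjt) hij)
      refine ⟨M, hM.prop.1, ?_, ∅, hM.prop.2⟩
      by_contra hlt
      push Not at hlt
      -- S is covered by small pieces
      have hcov : S ⊆ ⋃ m : M, ⋃ a : (F m.1 : Set A), {i | i ∈ S ∧ a.1 ∈ F i} := by
        intro i hi
        by_contra hne
        simp only [mem_iUnion, mem_ofPred_eq, not_exists, not_and] at hne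
        have hiM : i ∉ M := by
          intro hiM
          have hcard := hF i hi
          have hne' : (F i).Nonempty := by
            rw [← Finset.card_pos, hcard]; omega
          obtain ⟨a, ha⟩ := hne'
          exact hne ⟨i, hiM⟩ ⟨a, by simpa using ha⟩ hi ha
        have hins : insert i M ∈ {J : Set I | J ⊆ S ∧ ∀ i ∈ J, ∀ j ∈ J, i ≠ j →
            F i ∩ F j = ∅} := by
          refine ⟨insert_subset hi hM.prop.1, ?_⟩
          have key : ∀ j ∈ M, F i ∩ F j = ∅ := by
            intro j hj
            ext a
            simp only [Finset.mem_inter, Finset.notMem_empty, iff_false, not_and]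
            intro hai haj
            exact hne ⟨j, hj⟩ ⟨a, by simpa using haj⟩ hi hai
          intro x hx y hy hxy
          rcases hx with rfl | hx
          · rcases hy with rfl | hy
            · exact absurd rfl hxy
            · exact key y hy
          · rcases hy with rfl | hy
            · rw [Finset.inter_comm]; exact key x hx
            · exact hM.prop.2 x hx y hy hxy
        have := hM.le_of_ge hins (subset_insert i M)
        exact hiM (this (mem_insert i M))
      have hlt2 : #(⋃ m : M, ⋃ a : (F m.1 : Set A), {i | i ∈ S ∧ a.1 ∈ F i} : Set I) < κ := by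
        rw [card_iUnion_lt_iff_forall_of_isRegular hκ hlt]
        intro m
        rw [card_iUnion_lt_iff_forall_of_isRegular hκ]
        · intro a
          exact h a.1
        · exact lt_of_lt_of_le (Cardinal.lt_aleph0_of_finite _) hκ.aleph0_le
      exact absurd (hS.trans (mk_le_mk_of_subset hcov)) (not_le.2 hlt2)

/-- Delta-system lemma: every family of finite sets indexed by a set of regular uncountable
size `κ` (or more) contains a delta-system of size `κ`. -/
theorem delta_system {I A : Type u} [DecidableEq A] (κ : Cardinal.{u}) (hκ : κ.IsRegular)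
    (hκ' : ℵ₀ < κ) (F : I → Finset A) (hI : κ ≤ #I) :
    ∃ J : Set I, κ ≤ #J ∧
      ∃ R : Finset A, ∀ i ∈ J, ∀ j ∈ J, i ≠ j → F i ∩ F j = R := by
  obtain ⟨n, hn⟩ := infinite_pigeonhole_card (fun i => ULift.up.{u} (F i).card) κ hI
    hκ.aleph0_le (by rw [hκ.cof_ord]; simpa using hκ')
  obtain ⟨J, -, hJ, R, hR⟩ := delta_system_aux κ hκ n.down F _ hn (by
    intro i hi
    simp only [mem_preimage, mem_singleton_iff] at hi
    rw [← hi])
  exact ⟨J, hJ, R, hR⟩

end Pool.Agent.Helper76
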