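import Mathlib

set_option autoImplicit false
universe u v

/-!
# The space of maximal filters of a lattice of sets

For a family `L` of subsets of a set `D` (closed under finite intersections and countable unions)
we study the space `Ult L` of maximal proper filters of `L`, with the topology generated by the
sets `hat B = {x | B ∈ x}`.
-/

namespace Pool.Agent.Helper76

open Set TopologicalSpace

/-- The maximal proper filters in the family `L`. -/
def Ult {D : Type u} (L : Set (Set D)) : Type u :=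
  {x : Set (Set D) // x ⊆ L ∧ ∅ ∉ x ∧ (∀ A ∈ x, ∀ B ∈ x, A ∩ B ∈ x) ∧
    ∀ B ∈ L, B ∉ x → ∃ C ∈ x, B ∩ C = ∅}

namespace Ult

variable {D : Type u} {L : Set (Set D)}

/-- The basic set given by `B`. -/
def hat (L : Set (Set D)) (B : Set D) : Set (Ult L) := {x | B ∈ x.1}

theorem mem_hat {B : Set D} {x : Ult L} : x ∈ hat L B ↔ B ∈ x.1 := Iff.rfl

instance : TopologicalSpace (Ult L) := generateFrom {s | ∃ B ∈ L, s = hat L B}

/-- The base of all `hat B`, `B ∈ L`. -/
def base (L : Set (Set D)) : Set (Set (Ult L)) := {s | ∃ B ∈ L, s = hat L B}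

theorem nonempty_of_mem {x : Ult L} {B : Set D} (h : B ∈ x.1) : B.Nonempty := by
  rw [nonempty_iff_ne_empty]
  rintro rfl
  exact x.2.2.1 h

theorem up {x : Ult L} {B C : Set D} (h : B ∈ x.1) (hC : C ∈ L) (hBC : B ⊆ C) : C ∈ x.1 := by
  by_contra hn
  obtain ⟨E, hE, hE'⟩ := x.2.2.2.2 C hC hn
  have h1 := nonempty_of_mem (x.2.2.2.1 B h E hE)
  obtain ⟨d, hd1, hd2⟩ := h1
  have : d ∈ C ∩ E := ⟨hBC hd1, hd2⟩
  rw [hE'] at this
  exact this

theorem inter_mem_iff {x : Ult L} {B C : Set D} (hB : B ∈ L)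
    (hC : C ∈ L) : B ∩ C ∈ x.1 ↔ B ∈ x.1 ∧ C ∈ x.1 :=
  ⟨fun h => ⟨up h hB inter_subset_left, up h hC inter_subset_right⟩,
    fun h => x.2.2.2.1 B h.1 C h.2⟩

theorem exists_mem (he : ∅ ∈ L) (x : Ult L) : ∃ B, B ∈ x.1 := by
  obtain ⟨C, hC, -⟩ := x.2.2.2.2 ∅ he x.2.2.1
  exact ⟨C, hC⟩

theorem hat_inter {B C : Set D} (hB : B ∈ L) (hC : C ∈ L) :
    hat L (B ∩ C) = hat L B ∩ hat L C := by
  ext x
  exact inter_mem_iff hB hC

theorem isTopologicalBasis (he : ∅ ∈ L) (hi : ∀ A ∈ L, ∀ B ∈ L, A ∩ B ∈ L) :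
    IsTopologicalBasis (base L) where
  exists_subset_inter := by
    rintro _ ⟨B, hB, rfl⟩ _ ⟨C, hC, rfl⟩ x hx
    refine ⟨hat L (B ∩ C), ⟨B ∩ C, hi B hB C hC, rfl⟩, ?_, ?_⟩
    · rw [hat_inter hB hC]; exact hx
    · rw [hat_inter hB hC]
  sUnion_eq := by
    apply eq_univ_of_forall
    intro x
    obtain ⟨B, hB⟩ := exists_mem he x
    exact ⟨hat L B, ⟨B, x.2.1 hB, rfl⟩, hB⟩
  eq_generateFrom := rfl

theorem isOpen_hat {B : Set D} (hB : B ∈ L) : IsOpen (hat L B) :=
  isOpen_generateFrom_of_mem ⟨B, hB, rfl⟩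

theorem disjoint_hat {B C : Set D} (h : B ∩ C = ∅) : Disjoint (hat L B) (hat L C) := by
  rw [Set.disjoint_left]
  intro x hx hx'
  have := x.2.2.2.1 B hx C hx'
  rw [h] at this
  exact x.2.2.1 this

theorem isClopen_hat {B : Set D} (hB : B ∈ L) : IsClopen (hat L B) := by
  refine ⟨?_, isOpen_hat hB⟩
  rw [← isOpen_compl_iff, isOpen_iff_forall_mem_open]
  intro x hx
  obtain ⟨C, hC, hC'⟩ := x.2.2.2.2 B hB hx
  exact ⟨hat L C, (disjoint_hat hC').symm.subset_compl_right, isOpen_hat (x.2.1 hC), hC⟩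

theorem eq_of_subset {x y : Ult L} (h : x.1 ⊆ y.1) : x = y := by
  apply Subtype.ext
  apply Subset.antisymm h
  intro B hB
  by_contra hn
  obtain ⟨C, hC, hC'⟩ := x.2.2.2.2 B (y.2.1 hB) hn
  have := y.2.2.2.1 B hB C (h hC)
  rw [hC'] at this
  exact y.2.2.1 this

instance : T2Space (Ult L) := by
  constructor
  intro x y hxy
  have h : ¬ x.1 ⊆ y.1 := fun h => hxy (eq_of_subset h)
  rw [Set.not_subset] at h
  obtain ⟨B, hB, hB'⟩ := h
  obtain ⟨C, hC, hC'⟩ := y.2.2.2.2 B (x.2.1 hB) hB'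
  exact ⟨hat L B, hat L C, isOpen_hat (x.2.1 hB), isOpen_hat (y.2.1 hC), hB, hC, disjoint_hat hC'⟩

theorem isTopologicalBasis_clopens (he : ∅ ∈ L) (hi : ∀ A ∈ L, ∀ B ∈ L, A ∩ B ∈ L) :
    IsTopologicalBasis {s : Set (Ult L) | IsClopen s} := by
  refine (isTopologicalBasis he hi).of_isOpen_of_subset (fun s hs => hs.isOpen) ?_
  rintro _ ⟨B, hB, rfl⟩
  exact isClopen_hat hB

theorem t35Space (he : ∅ ∈ L) (hi : ∀ A ∈ L, ∀ B ∈ L, A ∩ B ∈ L) : T35Space (Ult L) := by
  have := CompletelyRegularSpace.of_isTopologicalBasis_clopens (isTopologicalBasis_clopens he hi)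
  exact @T35Space.mk (Ult L) _ inferInstance this

/-- Every centered subfamily of `L` extends to a point of `Ult L`. -/
theorem exists_extension (hi : ∀ A ∈ L, ∀ B ∈ L, A ∩ B ∈ L)
    (F : Set (Set D)) (hF : F ⊆ L) (hne : F.Nonempty)
    (hc : ∀ t ⊆ F, t.Finite → (⋂₀ t).Nonempty) : ∃ x : Ult L, F ⊆ x.1 := by
  obtain ⟨M, hFM, hM⟩ := zorn_subset_nonempty
    {M : Set (Set D) | M ⊆ L ∧ ∀ t ⊆ M, t.Finite → (⋂₀ t).Nonempty} (by
      intro c hc hchain hcne
      refine ⟨⋃₀ c, ⟨sUnion_subset fun s hs => (hc hs).1, ?_⟩, fun s hs => subset_sUnion_of_mem hs⟩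
      intro t ht htf
      obtain ⟨s, hs, hts⟩ := hchain.directedOn.exists_mem_subset_of_finite_of_subset_sUnion
        hcne htf ht
      exact (hc hs).2 t hts htf) F ⟨hF, hc⟩
  have hML := hM.prop.1
  have hMc := hM.prop.2
  -- adding a set
  have key : ∀ B ∈ L, (∀ t ⊆ M, t.Finite → (B ∩ ⋂₀ t).Nonempty) → B ∈ M := by
    intro B hB hBt
    have hins : insert B M ∈ {M : Set (Set D) | M ⊆ L ∧ ∀ t ⊆ M, t.Finite → (⋂₀ t).Nonempty} := by
      refine ⟨insert_subset hB hML, ?_⟩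
      intro t ht htf
      have h1 := hBt (t \ {B}) (by
        intro s hs
        rcases ht hs.1 with h | h
        · exact absurd h hs.2
        · exact h) htf.sdiff
      obtain ⟨d, hd1, hd2⟩ := h1
      refine ⟨d, ?_⟩
      intro s hs
      by_cases hsB : s = B
      · rw [hsB]; exact hd1
      · exact hd2 s ⟨hs, hsB⟩
    exact hM.le_of_ge hins (subset_insert B M) (mem_insert B M)
  have hinter : ∀ A ∈ M, ∀ B ∈ M, A ∩ B ∈ M := by
    intro A hA B hB
    apply key _ (hi A (hML hA) B (hML hB))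
    intro t ht htf
    have := hMc (insert A (insert B t))
      (insert_subset hA (insert_subset hB ht)) ((htf.insert B).insert A)
    simpa [sInter_insert, inter_assoc] using this
  have hMne : M.Nonempty := hne.mono hFM
  have hfin : ∀ t ⊆ M, t.Finite → ∃ C ∈ M, C ⊆ ⋂₀ t := by
    intro t ht htf
    induction t, htf using Set.Finite.induction_on with
    | empty => obtain ⟨C, hC⟩ := hMne; exact ⟨C, hC, by simp⟩
    | @insert a s _ _ ih =>
      obtain ⟨C, hC, hCs⟩ := ih ((subset_insert a s).trans ht)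
      refine ⟨a ∩ C, hinter a (ht (mem_insert a s)) C hC, ?_⟩
      rw [sInter_insert]
      exact inter_subset_inter_right a hCs
  refine ⟨⟨M, hML, ?_, hinter, ?_⟩, hFM⟩
  · intro he
    have := hMc {∅} (by simpa using he) (finite_singleton _)
    simp at this
  · intro B hB hBM
    by_contra hcon
    push Not at hcon
    apply hBM
    apply key B hB
    intro t ht htf
    obtain ⟨C, hC, hCt⟩ := hfin t ht htf
    obtain ⟨d, hd⟩ := hcon C hC
    exact ⟨d, hd.1, hCt hd.2⟩

theorem hat_nonempty (hi : ∀ A ∈ L, ∀ B ∈ L, A ∩ B ∈ L) {B : Set D} (hB : B ∈ L)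
    (hne : B.Nonempty) : (hat L B).Nonempty := by
  obtain ⟨x, hx⟩ := exists_extension hi {B} (by simpa using hB) (singleton_nonempty B) (by
    intro t ht _
    rcases subset_singleton_iff_eq.1 ht with rfl | rfl
    · simpa using ⟨hne.some, trivial⟩
    · simpa using hne)
  exact ⟨x, hx rfl⟩

theorem inter_eq_empty_of_disjoint (hi : ∀ A ∈ L, ∀ B ∈ L, A ∩ B ∈ L) {B C : Set D} (hB : B ∈ L)
    (hC : C ∈ L) (h : Disjoint (hat L B) (hat L C)) : B ∩ C = ∅ := by
  by_contra hne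
  obtain ⟨x, hx⟩ := hat_nonempty hi (hi B hB C hC) (nonempty_iff_ne_empty.2 hne)
  rw [hat_inter hB hC] at hx
  exact Set.disjoint_left.1 h hx.1 hx.2

/-- The pretty base property. -/
theorem pretty (he : ∅ ∈ L) (hi : ∀ A ∈ L, ∀ B ∈ L, A ∩ B ∈ L)
    (hu : ∀ f : ℕ → Set D, (∀ n, f n ∈ L) → (⋃ n, f n) ∈ L)
    (𝒞 𝒟 : Set (Set (Ult L))) (h𝒞 : 𝒞 ⊆ base L) (h𝒟 : 𝒟 ⊆ base L) (hc : 𝒞.Countable)
    (hd : ∀ C ∈ 𝒞, ∀ E ∈ 𝒟, Disjoint C E) :
    ∃ B ∈ base L, (∀ C ∈ 𝒞, C ⊆ B) ∧ ∀ E ∈ 𝒟, Disjoint B E := by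
  rcases 𝒞.eq_empty_or_nonempty with rfl | hne
  · refine ⟨hat L ∅, ⟨∅, he, rfl⟩, by simp, ?_⟩
    intro E _
    rw [Set.disjoint_left]
    intro x hx
    exact absurd hx x.2.2.1
  obtain ⟨g, hg⟩ := hc.exists_eq_range hne
  have hgL : ∀ n, ∃ B ∈ L, g n = hat L B := fun n => h𝒞 (by rw [hg]; exact mem_range_self n)
  choose f hfL hgf using hgL
  refine ⟨hat L (⋃ n, f n), ⟨_, hu f hfL, rfl⟩, ?_, ?_⟩
  · intro C hC
    rw [hg] at hC
    obtain ⟨n, rfl⟩ := hC
    rw [hgf n]
    intro x hx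
    exact up hx (hu f hfL) (subset_iUnion f n)
  · intro E hE
    obtain ⟨B, hB, rfl⟩ := h𝒟 hE
    apply disjoint_hat
    rw [iUnion_inter, iUnion_eq_empty]
    intro n
    apply inter_eq_empty_of_disjoint hi (hfL n) hB
    rw [← hgf n]
    exact hd _ (by rw [hg]; exact mem_range_self n) _ hE

/-- Compactness of the cotopology. -/
theorem cocompact (hi : ∀ A ∈ L, ∀ B ∈ L, A ∩ B ∈ L) :
    @CompactSpace (Ult L) (generateFrom {U | ∃ B ∈ base L, U = (closure B)ᶜ}) := by
  refine @CompactSpace.mk (Ult L) (generateFrom {U | ∃ B ∈ base L, U = (closure B)ᶜ})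
    (@isCompact_generateFrom (Ult L) (generateFrom {U | ∃ B ∈ base L, U = (closure B)ᶜ})
      {U | ∃ B ∈ base L, U = (closure B)ᶜ} rfl univ ?_)
  intro P hP hcov
  by_contra hcon
  push Not at hcon
  -- the corresponding family of sets in `L`
  let F : Set (Set D) := {B | B ∈ L ∧ (hat L B)ᶜ ∈ P}
  have hPF : ∀ U ∈ P, ∃ B ∈ F, U = (hat L B)ᶜ := by
    intro U hU
    obtain ⟨_, ⟨B, hB, rfl⟩, hUB⟩ := hP hU
    rw [(isClopen_hat hB).isClosed.closure_eq] at hUB
    exact ⟨B, ⟨hB, by rw [← hUB]; exact hU⟩, hUB⟩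
  rcases F.eq_empty_or_nonempty with hFe | hFne
  · have hPe : P = ∅ := by
      rw [eq_empty_iff_forall_notMem]
      intro U hU
      obtain ⟨B, hB, -⟩ := hPF U hU
      rw [hFe] at hB
      exact hB
    refine hcon ∅ (empty_subset _) finite_empty ?_
    rw [← hPe]; exact hcov
  · obtain ⟨x, hx⟩ := exists_extension hi F (fun B hB => hB.1) hFne (by
      intro t ht htf
      by_contra hemp
      refine hcon ((fun B => (hat L B)ᶜ) '' t) ?_ (htf.image _) ?_
      · rintro _ ⟨B, hB, rfl⟩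
        exact (ht hB).2
      · intro x _
        by_contra hx
        simp only [sUnion_image, mem_iUnion, mem_compl_iff, exists_prop, not_exists, not_and,
          not_not] at hx
        -- x contains all of t
        apply hemp
        have : ∀ s ⊆ t, s.Finite → s.Nonempty → ⋂₀ s ∈ x.1 := by
          intro s hs hsf
          induction s, hsf using Set.Finite.induction_on with
          | empty => intro h; exact absurd h not_nonempty_empty
          | @insert a s _ _ ih =>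
            intro _
            rcases s.eq_empty_or_nonempty with rfl | hsne
            · rw [sInter_insert, sInter_empty, inter_univ]
              exact hx a (hs (mem_insert _ _))
            · rw [sInter_insert]
              exact x.2.2.2.1 a (hx a (hs (mem_insert _ _))) _
                (ih ((subset_insert a s).trans hs) hsne)
        rcases t.eq_empty_or_nonempty with rfl | htne
        · obtain ⟨B, hB⟩ := hFne
          simp only [sInter_empty]
          obtain ⟨B', hB'⟩ : ∃ B', B' ∈ x.1 := by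
            by_contra h0
            push Not at h0
            have hBx := h0 B
            obtain ⟨C, hC, -⟩ := x.2.2.2.2 B hB.1 hBx
            exact h0 C hC
          exact (nonempty_of_mem hB').mono (subset_univ _)
        · exact nonempty_of_mem (this t Subset.rfl htf htne))
    obtain ⟨U, hU, hxU⟩ := hcov (mem_univ x)
    obtain ⟨B, hB, rfl⟩ := hPF U hU
    exact hxU (hx hB)

/-- Finite unions: primeness of maximal filters. -/
theorem prime (he : ∅ ∈ L) (x : Ult L) {α : Type v} (s : Finset α) (g : α → Set D)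
    (hg : ∀ a ∈ s, g a ∈ L) (h : (⋃ a ∈ s, g a) ∈ x.1) : ∃ a ∈ s, g a ∈ x.1 := by
  classical
  by_contra hcon
  push Not at hcon
  have h1 : ∀ t : Finset α, t ⊆ s → ∃ C ∈ x.1, ∀ a ∈ t, g a ∩ C = ∅ := by
    intro t
    induction t using Finset.induction_on with
    | empty =>
      intro _
      obtain ⟨C, hC⟩ := exists_mem he x
      exact ⟨C, hC, by simp⟩
    | @insert a t _ ih =>
      intro hts
      obtain ⟨C, hC, hCt⟩ := ih ((Finset.subset_insert a t).trans hts)
      have ha : a ∈ s := hts (Finset.mem_insert_self a t)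
      obtain ⟨E, hE, hE'⟩ := x.2.2.2.2 (g a) (hg a ha) (hcon a ha)
      refine ⟨C ∩ E, x.2.2.2.1 C hC E hE, ?_⟩
      intro b hb
      rcases Finset.mem_insert.1 hb with rfl | hb
      · rw [← subset_empty_iff, ← hE']
        exact fun d hd => ⟨hd.1, hd.2.2⟩
      · rw [← subset_empty_iff, ← hCt b hb]
        exact fun d hd => ⟨hd.1, hd.2.1⟩
  obtain ⟨C, hC, hCs⟩ := h1 s (Finset.Subset.refl s)
  obtain ⟨d, hd1, hd2⟩ := nonempty_of_mem (x.2.2.2.1 _ h C hC)
  simp only [mem_iUnion, exists_prop] at hd1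
  obtain ⟨a, ha, hda⟩ := hd1
  have : d ∈ g a ∩ C := ⟨hda, hd2⟩
  rw [hCs a ha] at this
  exact this

end Ult

end Pool.Agent.Helper76
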