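import Mathlib
import Pool.Agent.Helper76.UltSpace

set_option autoImplicit false
universe u v

/-!
# The lattice of sets given by an almost disjoint family of filters
-/

namespace Pool.Agent.Helper76

open Set TopologicalSpace Filter Topology

variable {D : Type u} {ι : Type v}

/-- The lattice of all sets `W` which are, modulo a countable set, covered by countably many `r i`
with `W ∈ 𝓥 i`. -/
def Lat (r : ι → Set D) (𝓥 : ι → Filter D) : Set (Set D) :=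
  {W | ∃ A : Set D, A.Countable ∧ ∃ 𝒞 : Set ι, 𝒞.Countable ∧
    W ⊆ A ∪ (⋃ i ∈ 𝒞, r i) ∧ ∀ i ∈ 𝒞, W ∈ 𝓥 i}

/-- The assumptions on the family of filters. -/
structure GoodFamily (r : ι → Set D) (𝓥 : ι → Filter D) : Prop where
  mem : ∀ i, r i ∈ 𝓥 i
  co : ∀ i, ∀ A : Set D, A.Countable → Aᶜ ∈ 𝓥 i
  ad : ∀ i j, i ≠ j → (r i ∩ r j).Countable
  ne : ∀ i, (𝓥 i).NeBot

variable {r : ι → Set D} {𝓥 : ι → Filter D}

theorem Lat.of_countable {A : Set D} (hA : A.Countable) : A ∈ Lat r 𝓥 :=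
  ⟨A, hA, ∅, countable_empty, by simp, by simp⟩

theorem Lat.empty_mem : ∅ ∈ Lat r 𝓥 := Lat.of_countable countable_empty

theorem Lat.iUnion_mem (f : ℕ → Set D) (hf : ∀ n, f n ∈ Lat r 𝓥) : (⋃ n, f n) ∈ Lat r 𝓥 := by
  choose A hA 𝒞 h𝒞 hsub hmem using hf
  refine ⟨⋃ n, A n, countable_iUnion hA, ⋃ n, 𝒞 n, countable_iUnion h𝒞, ?_, ?_⟩
  · apply iUnion_subset
    intro n d hd
    rcases hsub n hd with h | h
    · exact Or.inl (mem_iUnion.2 ⟨n, h⟩)
    · right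
      simp only [mem_iUnion, exists_prop] at h ⊢
      obtain ⟨i, hi, hd⟩ := h
      exact ⟨i, ⟨n, hi⟩, hd⟩
  · intro i hi
    obtain ⟨n, hn⟩ := mem_iUnion.1 hi
    exact mem_of_superset (hmem n i hn) (subset_iUnion f n)

theorem Lat.inter_mem (hG : GoodFamily r 𝓥) : ∀ B ∈ Lat r 𝓥, ∀ C ∈ Lat r 𝓥, B ∩ C ∈ Lat r 𝓥 := by
  rintro B ⟨A₁, hA₁, 𝒞₁, h𝒞₁, hs₁, hm₁⟩ C ⟨A₂, hA₂, 𝒞₂, h𝒞₂, hs₂, hm₂⟩
  refine ⟨A₁ ∪ A₂ ∪ ⋃ i ∈ 𝒞₁, ⋃ j ∈ 𝒞₂, ⋃ _ : i ≠ j, r i ∩ r j, ?_, 𝒞₁ ∩ 𝒞₂,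
    h𝒞₁.mono inter_subset_left, ?_, ?_⟩
  · refine (hA₁.union hA₂).union (h𝒞₁.biUnion fun i _ => h𝒞₂.biUnion fun j _ => ?_)
    exact countable_iUnion fun hij => hG.ad i j hij
  · rintro d ⟨hd₁, hd₂⟩
    rcases hs₁ hd₁ with h₁ | h₁
    · exact Or.inl (Or.inl (Or.inl h₁))
    rcases hs₂ hd₂ with h₂ | h₂
    · exact Or.inl (Or.inl (Or.inr h₂))
    simp only [mem_iUnion, exists_prop] at h₁ h₂
    obtain ⟨i, hi, hdi⟩ := h₁
    obtain ⟨j, hj, hdj⟩ := h₂
    by_cases hij : i = j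
    · subst hij
      right
      simp only [mem_iUnion, exists_prop]
      exact ⟨i, ⟨hi, hj⟩, hdi⟩
    · left; right
      simp only [mem_iUnion, exists_prop]
      exact ⟨i, hi, j, hj, hij, hdi, hdj⟩
  · intro i hi
    exact Filter.inter_mem (hm₁ i hi.1) (hm₂ i hi.2)

/-- A set of the filter contained in `r i` is in the lattice. -/
theorem Lat.of_mem {i : ι} {V : Set D} (hV : V ∈ 𝓥 i) (hVr : V ⊆ r i) : V ∈ Lat r 𝓥 :=
  ⟨∅, countable_empty, {i}, countable_singleton i, by simpa using hVr, by simpa using hV⟩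

/-- The principal point of `d`. -/
def pt (r : ι → Set D) (𝓥 : ι → Filter D) (hG : GoodFamily r 𝓥) (d : D) : Ult (Lat r 𝓥) :=
  ⟨{W | W ∈ Lat r 𝓥 ∧ d ∈ W}, fun _ h => h.1, fun h => h.2,
    fun A hA B hB => ⟨Lat.inter_mem hG A hA.1 B hB.1, hA.2, hB.2⟩, by
      intro B hB hBn
      have hd : d ∉ B := fun h => hBn ⟨hB, h⟩
      exact ⟨{d}, ⟨Lat.of_countable (countable_singleton d), rfl⟩, by simpa using hd⟩⟩

/-- The point of `i`. -/
def fpt (r : ι → Set D) (𝓥 : ι → Filter D) (hG : GoodFamily r 𝓥) (i : ι) : Ult (Lat r 𝓥) :=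
  ⟨{W | W ∈ Lat r 𝓥 ∧ W ∈ 𝓥 i}, fun _ h => h.1, fun h => by
      have := (hG.ne i).nonempty_of_mem h.2
      simp at this,
    fun A hA B hB => ⟨Lat.inter_mem hG A hA.1 B hB.1, Filter.inter_mem hA.2 hB.2⟩, by
      intro B hB hBn
      have hBi : B ∉ 𝓥 i := fun h => hBn ⟨hB, h⟩
      obtain ⟨A, hA, 𝒞, h𝒞, hs, hm⟩ := hB
      have hi : i ∉ 𝒞 := fun h => hBi (hm i h)
      have hcount : (B ∩ r i).Countable := by
        refine (hA.union (h𝒞.biUnion fun j (hj : j ∈ 𝒞) =>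
          hG.ad j i (fun h => hi (h ▸ hj)))).mono ?_
        rintro d ⟨hdB, hdi⟩
        rcases hs hdB with h | h
        · exact Or.inl h
        · right
          simp only [mem_iUnion, exists_prop] at h ⊢
          obtain ⟨j, hj, hdj⟩ := h
          exact ⟨j, hj, hdj, hdi⟩
      have hmem : r i ∩ (B ∩ r i)ᶜ ∈ 𝓥 i := Filter.inter_mem (hG.mem i) (hG.co i _ hcount)
      refine ⟨r i ∩ (B ∩ r i)ᶜ, ⟨Lat.of_mem hmem inter_subset_left, hmem⟩, ?_⟩
      ext d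
      simp only [mem_inter_iff, mem_compl_iff, not_and, mem_empty_iff_false, iff_false]
      intro h1 h2 h3
      exact h3 h1 h2⟩

/-- Small oscillation. -/
theorem exists_small (hG : GoodFamily r 𝓥) (f : D → ℝ) (hf : ∀ d, f d ∈ Icc (0 : ℝ) 1)
    (e : ι → ℝ) (he : ∀ i, Tendsto f (𝓥 i) (𝓝 (e i))) (x : Ult (Lat r 𝓥)) (ε : ℝ) (hε : 0 < ε) :
    ∃ W ∈ x.1, ∃ c : ℝ, ∀ d ∈ W, |f d - c| ≤ ε := by
  have he01 : ∀ i, e i ∈ Icc (0 : ℝ) 1 := by
    intro i
    have := hG.ne i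
    exact isClosed_Icc.mem_of_tendsto (he i) (Eventually.of_forall hf)
  -- the neighbourhoods
  let V : ι → Set D := fun i => {d | |f d - e i| ≤ ε / 2}
  have hV : ∀ i, V i ∈ 𝓥 i := by
    intro i
    have := (he i) (Metric.closedBall_mem_nhds (e i) (half_pos hε))
    filter_upwards [this] with d hd
    simpa [V, Real.dist_eq] using hd
  -- step 1
  have step1 : ∃ W ∈ x.1, ∃ A : Set D, A.Countable ∧ ∃ 𝒞 : Set ι, 𝒞.Countable ∧
      W ⊆ A ∪ (⋃ i ∈ 𝒞, r i ∩ V i) ∧ ∀ i ∈ 𝒞, W ∈ 𝓥 i := by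
    obtain ⟨W, hW⟩ := Ult.exists_mem Lat.empty_mem x
    obtain ⟨A, hA, 𝒞, h𝒞, hs, hm⟩ := x.2.1 hW
    set W' : Set D := W ∩ (A ∪ ⋃ i ∈ 𝒞, r i ∩ V i) with hW'
    have hW'm : ∀ i ∈ 𝒞, W' ∈ 𝓥 i := by
      intro i hi
      refine mem_of_superset (Filter.inter_mem (hm i hi) (Filter.inter_mem (hG.mem i) (hV i))) ?_
      rintro d ⟨h1, h2⟩
      refine ⟨h1, Or.inr ?_⟩
      simp only [mem_iUnion, exists_prop]
      exact ⟨i, hi, h2⟩
    have hW'L : W' ∈ Lat r 𝓥 := by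
      refine ⟨A, hA, 𝒞, h𝒞, ?_, hW'm⟩
      rintro d ⟨_, h | h⟩
      · exact Or.inl h
      · right
        simp only [mem_iUnion, exists_prop] at h ⊢
        obtain ⟨i, hi, hd⟩ := h
        exact ⟨i, hi, hd.1⟩
    by_cases hx : W' ∈ x.1
    · exact ⟨W', hx, A, hA, 𝒞, h𝒞, inter_subset_right, hW'm⟩
    · obtain ⟨C, hC, hCW⟩ := x.2.2.2.2 W' hW'L hx
      have hC' : C ∩ W ∈ x.1 := x.2.2.2.1 C hC W hW
      obtain ⟨A₂, hA₂, 𝒞₂, h𝒞₂, hs₂, hm₂⟩ := x.2.1 hC'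
      have hdisj : ∀ i ∈ 𝒞, i ∉ 𝒞₂ := by
        intro i hi hi2
        have h1 := Filter.inter_mem (hm₂ i hi2) (hW'm i hi)
        have := hG.ne i
        obtain ⟨d, hd1, hd2⟩ := Filter.nonempty_of_mem h1
        have : d ∈ W' ∩ C := ⟨hd2, hd1.1⟩
        rw [hCW] at this
        exact this
      have hcount : (C ∩ W).Countable := by
        refine ((hA.union hA₂).union (h𝒞.biUnion fun i (hi : i ∈ 𝒞) =>
          h𝒞₂.biUnion fun j (hj : j ∈ 𝒞₂) =>
            hG.ad i j (fun h => hdisj i hi (h ▸ hj)))).mono ?_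
        intro d hd
        rcases hs hd.2 with h | h
        · exact Or.inl (Or.inl h)
        rcases hs₂ hd with h' | h'
        · exact Or.inl (Or.inr h')
        right
        simp only [mem_iUnion, exists_prop] at h h' ⊢
        obtain ⟨i, hi, hdi⟩ := h
        obtain ⟨j, hj, hdj⟩ := h'
        exact ⟨i, hi, j, hj, hdi, hdj⟩
      exact ⟨C ∩ W, hC', C ∩ W, hcount, ∅, countable_empty, by simp, by simp⟩
  obtain ⟨W, hW, A, hA, 𝒞, h𝒞, hs, hm⟩ := step1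
  -- finitely many centres
  obtain ⟨s, hsfin, hscov⟩ := Metric.totallyBounded_iff.1
    (isCompact_Icc (a := (0 : ℝ)) (b := 1)).totallyBounded (ε / 2) (half_pos hε)
  let g : ℝ → Set D := fun c => W ∩ ((A ∩ {d | |f d - c| ≤ ε}) ∪
    ⋃ i ∈ {i | i ∈ 𝒞 ∧ |e i - c| ≤ ε / 2}, r i ∩ V i)
  have hg : ∀ c, g c ∈ Lat r 𝓥 := by
    intro c
    refine ⟨A, hA, {i | i ∈ 𝒞 ∧ |e i - c| ≤ ε / 2}, h𝒞.mono fun i hi => hi.1, ?_, ?_⟩
    · rintro d ⟨_, h | h⟩
      · exact Or.inl h.1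
      · right
        simp only [mem_iUnion, exists_prop] at h ⊢
        obtain ⟨i, hi, hd⟩ := h
        exact ⟨i, hi, hd.1⟩
    · intro i hi
      refine mem_of_superset (Filter.inter_mem (hm i hi.1)
        (Filter.inter_mem (hG.mem i) (hV i))) ?_
      rintro d ⟨h1, h2⟩
      refine ⟨h1, Or.inr ?_⟩
      simp only [mem_iUnion, exists_prop]
      exact ⟨i, hi, h2⟩
  have hcov : (⋃ c ∈ hsfin.toFinset, g c) = W := by
    apply Subset.antisymm
    · refine iUnion₂_subset fun c _ => inter_subset_left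
    · intro d hd
      simp only [mem_iUnion, exists_prop, Set.Finite.mem_toFinset]
      rcases hs hd with h | h
      · have := hscov (hf d)
        simp only [mem_iUnion, exists_prop, Metric.mem_ball, Real.dist_eq] at this
        obtain ⟨c, hc, hdc⟩ := this
        exact ⟨c, hc, hd, Or.inl ⟨h, by simp only [mem_ofPred_eq]; linarith⟩⟩
      · simp only [mem_iUnion, exists_prop] at h
        obtain ⟨i, hi, hdi⟩ := h
        have := hscov (he01 i)
        simp only [mem_iUnion, exists_prop, Metric.mem_ball, Real.dist_eq] at this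
        obtain ⟨c, hc, hdc⟩ := this
        refine ⟨c, hc, hd, Or.inr ?_⟩
        simp only [mem_iUnion, exists_prop]
        exact ⟨i, ⟨hi, hdc.le⟩, hdi⟩
  obtain ⟨c, _, hc⟩ := Ult.prime Lat.empty_mem x hsfin.toFinset g (fun c _ => hg c)
    (by rw [hcov]; exact hW)
  refine ⟨g c, hc, c, ?_⟩
  rintro d ⟨_, h | h⟩
  · exact h.2
  · simp only [mem_iUnion, exists_prop] at h
    obtain ⟨i, hi, hdi⟩ := h
    have h1 : |f d - e i| ≤ ε / 2 := hdi.2
    have h2 : |e i - c| ≤ ε / 2 := hi.2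
    calc |f d - c| = |(f d - e i) + (e i - c)| := by ring_nf
      _ ≤ |f d - e i| + |e i - c| := abs_add_le _ _
      _ ≤ ε := by linarith

/-- The continuous extension of `f`. -/
theorem exists_continuous_ext (hG : GoodFamily r 𝓥) (f : D → ℝ) (hf : ∀ d, f d ∈ Icc (0 : ℝ) 1)
    (e : ι → ℝ) (he : ∀ i, Tendsto f (𝓥 i) (𝓝 (e i))) :
    ∃ F : Ult (Lat r 𝓥) → ℝ, Continuous F ∧ (∀ x, F x ∈ Icc (0 : ℝ) 1) ∧
      ∀ d, F (pt r 𝓥 hG d) = f d := by
  -- limit values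
  have h1 : ∀ x : Ult (Lat r 𝓥), ∃ t : ℝ, t ∈ Icc (0 : ℝ) 1 ∧ ∀ W ∈ x.1, t ∈ closure (f '' W) := by
    intro x
    have hne : (Filter.generate x.1).NeBot := by
      rw [Filter.generate_neBot_iff]
      intro t ht htf
      have : ∃ C ∈ x.1, C ⊆ ⋂₀ t := by
        induction t, htf using Set.Finite.induction_on with
        | empty =>
          obtain ⟨C, hC⟩ := Ult.exists_mem Lat.empty_mem x
          exact ⟨C, hC, by simp⟩
        | @insert a s _ _ ih =>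
          obtain ⟨C, hC, hCs⟩ := ih ((subset_insert a s).trans ht)
          refine ⟨a ∩ C, x.2.2.2.1 a (ht (mem_insert a s)) C hC, ?_⟩
          rw [sInter_insert]
          exact inter_subset_inter_right a hCs
      obtain ⟨C, hC, hCt⟩ := this
      exact (Ult.nonempty_of_mem hC).mono hCt
    obtain ⟨t, ht, hlt⟩ := isCompact_Icc.ultrafilter_le_nhds
      ((Ultrafilter.of (Filter.generate x.1)).map f) (by
        rw [le_principal_iff, Ultrafilter.coe_map, Filter.mem_map]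
        exact Filter.univ_mem' hf)
    refine ⟨t, ht, ?_⟩
    intro W hW
    rw [mem_closure_iff_ultrafilter]
    refine ⟨(Ultrafilter.of (Filter.generate x.1)).map f, ?_, hlt⟩
    rw [Ultrafilter.mem_map]
    refine mem_of_superset (Ultrafilter.of_le _ (Filter.mem_generate_of_mem hW)) ?_
    exact subset_preimage_image f W
  choose F hF01 hF using h1
  have hbound : ∀ (x : Ult (Lat r 𝓥)) (W : Set D) (c ε : ℝ), W ∈ x.1 → (∀ d ∈ W, |f d - c| ≤ ε) →
      |F x - c| ≤ ε := by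
    intro x W c ε hW h
    have hsub : f '' W ⊆ Metric.closedBall c ε := by
      rintro _ ⟨d, hd, rfl⟩
      simpa [Real.dist_eq] using h d hd
    have := closure_minimal hsub Metric.isClosed_closedBall (hF x W hW)
    simpa [Real.dist_eq] using this
  refine ⟨F, ?_, hF01, ?_⟩
  · rw [continuous_iff_continuousAt]
    intro x
    rw [ContinuousAt, Metric.tendsto_nhds]
    intro ε hε
    obtain ⟨W, hW, c, hc⟩ := exists_small hG f hf e he x (ε / 3) (by positivity)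
    have hopen : Ult.hat (Lat r 𝓥) W ∈ 𝓝 x := (Ult.isOpen_hat (x.2.1 hW)).mem_nhds hW
    filter_upwards [hopen] with y hy
    have h1 := hbound x W c (ε / 3) hW hc
    have h2 := hbound y W c (ε / 3) hy hc
    rw [Real.dist_eq]
    calc |F y - F x| = |(F y - c) - (F x - c)| := by ring_nf
      _ ≤ |F y - c| + |F x - c| := abs_sub _ _
      _ < ε := by linarith
  · intro d
    have hmem : ({d} : Set D) ∈ (pt r 𝓥 hG d).1 := ⟨Lat.of_countable (countable_singleton d), rfl⟩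
    have := hbound (pt r 𝓥 hG d) {d} (f d) 0 hmem (by simp)
    have h2 : |F (pt r 𝓥 hG d) - f d| = 0 := le_antisymm this (abs_nonneg _)
    linarith [abs_eq_zero.1 h2]

/-- Clopen sets have a trace which is decided by each filter. -/
theorem clopen_decided (hG : GoodFamily r 𝓥) (G : Set (Ult (Lat r 𝓥))) (hGc : IsClopen G) (i : ι) :
    {d | pt r 𝓥 hG d ∈ G} ∈ 𝓥 i ∨ {d | pt r 𝓥 hG d ∈ G}ᶜ ∈ 𝓥 i := by
  have hb := Ult.isTopologicalBasis (L := Lat r 𝓥) Lat.empty_mem (Lat.inter_mem hG)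
  by_cases h : fpt r 𝓥 hG i ∈ G
  · left
    obtain ⟨_, ⟨W, hW, rfl⟩, hmem, hsub⟩ := hb.exists_subset_of_mem_open h hGc.isOpen
    refine mem_of_superset hmem.2 ?_
    intro d hd
    exact hsub ⟨hW, hd⟩
  · right
    obtain ⟨_, ⟨W, hW, rfl⟩, hmem, hsub⟩ := hb.exists_subset_of_mem_open (show fpt r 𝓥 hG i ∈ Gᶜ from h)
      hGc.isClosed.isOpen_compl
    refine mem_of_superset hmem.2 ?_
    intro d hd
    exact hsub ⟨hW, hd⟩

end Pool.Agent.Helper76
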