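import Mathlib
import Pool.Agent.Helper76.FilterLat
import Pool.Agent.Helper76.AlmostDisjoint

set_option autoImplicit false
universe u v

/-!
# The diagonal filters and the main example
-/

namespace Pool.Agent.Helper76

open Set TopologicalSpace Filter Topology

/-- The function to be separated: `(z, j, k) ↦ min 1 (j / (k + 1))`. -/
noncomputable def hgt {T : Type u} (d : T × ℕ × ℕ) : ℝ := min 1 ((d.2.1 : ℝ) / (d.2.2 + 1))

theorem hgt_mem {T : Type u} (d : T × ℕ × ℕ) : hgt d ∈ Icc (0 : ℝ) 1 := by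
  refine ⟨le_min zero_le_one (by positivity), min_le_left _ _⟩

theorem hgt_of_le {T : Type u} (z : T) {j k : ℕ} (h : j ≤ k + 1) :
    hgt (z, j, k) = (j : ℝ) / (k + 1) := by
  unfold hgt
  simp only
  apply min_eq_right
  rw [div_le_one (by positivity)]
  exact_mod_cast h

/-- The sets which separate the value 0 from the value 1. -/
def Adm (T : Type u) : Type u :=
  {U : Set (T × ℕ × ℕ) // ∀ z k, (z, 0, k) ∈ U ∧ (z, k + 1, k) ∉ U}

theorem Adm.exists_jump {T : Type u} (U : Adm T) (z : T) (k : ℕ) :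
    ∃ j ≤ k, (z, j, k) ∈ U.1 ∧ (z, j + 1, k) ∉ U.1 := by
  by_contra hcon
  push Not at hcon
  have : ∀ j ≤ k + 1, (z, j, k) ∈ U.1 := by
    intro j
    induction j with
    | zero => intro _; exact (U.2 z k).1
    | succ j ih => intro hj; exact hcon j (by omega) (ih (by omega))
  exact (U.2 z k).2 (this (k + 1) le_rfl)

theorem Adm.exists_jump' {T : Type u} (b : Set T) (hb : ¬ b.Countable) (U : Adm T) (k : ℕ) :
    ∃ j ≤ k, ¬ {z | z ∈ b ∧ (z, j, k) ∈ U.1 ∧ (z, j + 1, k) ∉ U.1}.Countable := by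
  by_contra hcon
  push Not at hcon
  apply hb
  have hsub : b ⊆ ⋃ j ∈ {j | j ≤ k}, {z | z ∈ b ∧ (z, j, k) ∈ U.1 ∧ (z, j + 1, k) ∉ U.1} := by
    intro z hz
    obtain ⟨j, hj, h⟩ := U.exists_jump z k
    simp only [mem_iUnion, exists_prop]
    exact ⟨j, hj, hz, h⟩
  exact ((Set.to_countable _).biUnion fun j hj => hcon j hj).mono hsub

/-- The cocountable filter on a set `B`. -/
noncomputable def coc {T : Type u} (B : Set T) : Filter T := cocountable ⊓ 𝓟 B

theorem mem_coc {T : Type u} {B s : Set T} : s ∈ coc B ↔ (B \ s).Countable := by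
  rw [coc, mem_inf_principal, mem_cocountable]
  have : {x | x ∈ B → x ∈ s}ᶜ = B \ s := by
    ext x; simp
  rw [this]

/-- The main example. -/
theorem exists_example : ∃ (T : Type u) (r : Adm T → Set (T × ℕ × ℕ))
    (𝓥 : Adm T → Filter (T × ℕ × ℕ)) (_ : GoodFamily r 𝓥) (e : Adm T → ℝ),
    (∀ U, Tendsto hgt (𝓥 U) (𝓝 (e U))) ∧ ∀ U : Adm T, U.1 ∉ 𝓥 U ∧ U.1ᶜ ∉ 𝓥 U := by
  obtain ⟨T, b, hb, hb'⟩ := exists_almost_disjoint'.{u}
  have h1 : ∀ (U : Adm T) (k : ℕ), ∃ j ≤ k,
      ¬ {z | z ∈ b U.1 ∧ (z, j, k) ∈ U.1 ∧ (z, j + 1, k) ∉ U.1}.Countable :=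
    fun U k => U.exists_jump' (b U.1) (hb U.1) k
  choose J hJ hJc using h1
  let B : Adm T → ℕ → Set T := fun U k =>
    {z | z ∈ b U.1 ∧ (z, J U k, k) ∈ U.1 ∧ (z, J U k + 1, k) ∉ U.1}
  let G : Adm T → ℕ → Filter (T × ℕ × ℕ) := fun U k =>
    map (fun z => (z, J U k, k)) (coc (B U k)) ⊔ map (fun z => (z, J U k + 1, k)) (coc (B U k))
  have hG : ∀ U k V, V ∈ G U k ↔ (B U k \ {z | (z, J U k, k) ∈ V}).Countable ∧
      (B U k \ {z | (z, J U k + 1, k) ∈ V}).Countable := by
    intro U k V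
    simp only [G, mem_sup, mem_map]
    rw [mem_coc, mem_coc]
    rfl
  let 𝓥 : Adm T → Filter (T × ℕ × ℕ) := fun U => Filter.bind (hyperfilter ℕ : Filter ℕ) (G U)
  have h𝓥 : ∀ U V, V ∈ 𝓥 U ↔ ∀ᶠ k in (hyperfilter ℕ : Filter ℕ), V ∈ G U k := by
    intro U V
    exact mem_bind'
  have hsing : ∀ U V, V ∈ 𝓥 U → ∃ k, V ∈ G U k := by
    intro U V hV
    exact ((h𝓥 U V).1 hV).exists
  -- the limits
  have h2 : ∀ U : Adm T, ∃ e : ℝ, Tendsto (fun k : ℕ => (J U k : ℝ) / (k + 1))
      (hyperfilter ℕ : Filter ℕ) (𝓝 e) := by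
    intro U
    obtain ⟨e, _, he⟩ := isCompact_Icc.ultrafilter_le_nhds
      ((hyperfilter ℕ).map (fun k : ℕ => (J U k : ℝ) / (k + 1))) (show _ ≤ 𝓟 (Icc (0 : ℝ) 1) by
        rw [le_principal_iff, Ultrafilter.coe_map, mem_map]
        refine univ_mem' fun k => ?_
        refine ⟨by positivity, ?_⟩
        rw [div_le_one (by positivity)]
        have := hJ U k
        exact_mod_cast this.trans (Nat.le_succ k))
    exact ⟨e, he⟩
  choose e he using h2
  refine ⟨T, fun U => {d | d.1 ∈ b U.1}, 𝓥, ⟨?_, ?_, ?_, ?_⟩, e, ?_, ?_⟩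
  · -- mem
    intro U
    rw [h𝓥]
    refine Eventually.of_forall fun k => ?_
    rw [hG]
    have hsub : ∀ z ∈ B U k, z ∈ b U.1 := fun z hz => hz.1
    constructor
    · convert countable_empty (α := T)
      ext z
      simp only [Set.mem_sdiff, mem_ofPred_eq, mem_empty_iff_false, iff_false, not_and, not_not]
      exact hsub z
    · convert countable_empty (α := T)
      ext z
      simp only [Set.mem_sdiff, mem_ofPred_eq, mem_empty_iff_false, iff_false, not_and, not_not]
      exact hsub z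
  · -- cocountable
    intro U A hA
    rw [h𝓥]
    refine Eventually.of_forall fun k => ?_
    rw [hG]
    constructor
    · refine (hA.preimage_of_injOn (f := fun z => (z, J U k, k)) ?_).mono ?_
      · intro z _ z' _ h
        exact congrArg Prod.fst h
      · rintro z ⟨_, hz⟩
        simpa using hz
    · refine (hA.preimage_of_injOn (f := fun z => (z, J U k + 1, k)) ?_).mono ?_
      · intro z _ z' _ h
        exact congrArg Prod.fst h
      · rintro z ⟨_, hz⟩
        simpa using hz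
  · -- almost disjoint
    intro U U' hUU'
    have h3 : (b U.1 ∩ b U'.1).Countable := hb' _ _ (fun h => hUU' (Subtype.ext h))
    refine (h3.prod (Set.to_countable (univ : Set (ℕ × ℕ)))).mono ?_
    rintro ⟨z, jk⟩ ⟨hz, hz'⟩
    exact ⟨⟨hz, hz'⟩, mem_univ _⟩
  · -- NeBot
    intro U
    rw [← empty_mem_iff_bot.not.trans (neBot_iff.symm) ]
    intro hempty
    obtain ⟨k, hk⟩ := hsing U ∅ hempty
    rw [hG] at hk
    have := hk.1
    simp only [mem_empty_iff_false, ofPred_false, sdiff_empty] at this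
    exact hJc U k this
  · -- convergence
    intro U
    rw [tendsto_def]
    intro s hs
    rw [h𝓥]
    have ht1 : Tendsto (fun k : ℕ => ((J U k + 1 : ℕ) : ℝ) / (k + 1))
        (hyperfilter ℕ : Filter ℕ) (𝓝 (e U)) := by
      have h4 : Tendsto (fun k : ℕ => 1 / ((k : ℝ) + 1)) (hyperfilter ℕ : Filter ℕ) (𝓝 0) :=
        tendsto_one_div_add_atTop_nhds_zero_nat.mono_left Nat.hyperfilter_le_atTop
      have h5 := (he U).add h4
      rw [add_zero] at h5
      refine h5.congr fun k => ?_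
      push_cast
      ring
    filter_upwards [(he U) hs, ht1 hs] with k hk1 hk2
    rw [hG]
    have hz1 : ∀ z : T, (z, J U k, k) ∈ hgt ⁻¹' s := by
      intro z
      rw [mem_preimage, hgt_of_le z ((hJ U k).trans (Nat.le_succ k))]
      exact hk1
    have hz2 : ∀ z : T, (z, J U k + 1, k) ∈ hgt ⁻¹' s := by
      intro z
      rw [mem_preimage, hgt_of_le z (Nat.succ_le_succ (hJ U k))]
      exact hk2
    constructor
    · convert countable_empty (α := T)
      ext z
      simp only [Set.mem_sdiff, mem_ofPred_eq, mem_empty_iff_false, iff_false, not_and, not_not]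
      exact fun _ => hz1 z
    · convert countable_empty (α := T)
      ext z
      simp only [Set.mem_sdiff, mem_ofPred_eq, mem_empty_iff_false, iff_false, not_and, not_not]
      exact fun _ => hz2 z
  · -- undecided
    intro U
    constructor
    · intro hU
      obtain ⟨k, hk⟩ := hsing U _ hU
      rw [hG] at hk
      apply hJc U k
      refine hk.2.mono ?_
      intro z hz
      exact ⟨hz, hz.2.2⟩
    · intro hU
      obtain ⟨k, hk⟩ := hsing U _ hU
      rw [hG] at hk
      apply hJc U k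
      refine hk.1.mono ?_
      intro z hz
      exact ⟨hz, fun h => h hz.2.1⟩

/-- Conclusion: a space with a continuous function into `[0, 1]` whose level sets at 0 and 1 are
not separated by a clopen set. -/
theorem exists_example' : ∃ (D : Type u) (L : Set (Set D)),
    ∅ ∈ L ∧ (∀ A ∈ L, ∀ B ∈ L, A ∩ B ∈ L) ∧
    (∀ f : ℕ → Set D, (∀ n, f n ∈ L) → (⋃ n, f n) ∈ L) ∧
    ∃ F : Ult L → ℝ, Continuous F ∧ (∀ x, F x ∈ Icc (0 : ℝ) 1) ∧
      ¬ ∃ G : Set (Ult L), IsClopen G ∧ (∀ x, F x = 0 → x ∈ G) ∧ ∀ x, F x = 1 → x ∉ G := by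
  obtain ⟨T, r, 𝓥, hG, e, he, hU⟩ := exists_example.{u}
  obtain ⟨F, hF, hF01, hFd⟩ := exists_continuous_ext hG hgt hgt_mem e he
  refine ⟨T × ℕ × ℕ, Lat r 𝓥, Lat.empty_mem, Lat.inter_mem hG, Lat.iUnion_mem, F, hF, hF01, ?_⟩
  rintro ⟨G, hGc, hG0, hG1⟩
  let U : Adm T := ⟨{d | pt r 𝓥 hG d ∈ G}, by
    intro z k
    constructor
    · apply hG0
      rw [hFd, hgt_of_le z (Nat.zero_le _)]
      simp
    · apply hG1
      rw [hFd, hgt_of_le z le_rfl]
      push_cast
      exact div_self (by positivity)⟩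
  rcases clopen_decided hG G hGc U with h | h
  · exact (hU U).1 h
  · exact (hU U).2 h

end Pool.Agent.Helper76
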