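import Mathlib

set_option autoImplicit false
set_option linter.unusedSectionVars false
universe u

/-!
# Adding a point at infinity

From a non-normal `k`-semistratifiable `k_R`-space we produce a `k`-semistratifiable `k_R`-space
with a closed subspace which is not a `k_R`-space.
-/

namespace Pool.Agent.Helper76.Kr

open Set TopologicalSpace Filter Topology

/-- `X` is `k`-semistratifiable. -/
def KSemistrat (X : Type u) [TopologicalSpace X] : Prop :=
  ∃ S : Set X → ℕ → Set X,
    (∀ U, IsOpen U → (∀ n, IsClosed (S U n)) ∧ U = ⋃ n, S U n ∧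
      ∀ K, IsCompact K → K ⊆ U → ∃ n, K ⊆ S U n) ∧
    ∀ U V, IsOpen U → IsOpen V → U ⊆ V → ∀ n, S U n ⊆ S V n

/-- Every `k`-continuous function is continuous. -/
def KR (X : Type u) [TopologicalSpace X] : Prop :=
  ∀ f : X → ℝ, (∀ K : Set X, IsCompact K → ContinuousOn f K) → Continuous f

/-- A version with an increasing assignment. -/
theorem KSemistrat.mono {X : Type u} [TopologicalSpace X] (h : KSemistrat X) :
    ∃ S : Set X → ℕ → Set X,
    (∀ U, IsOpen U → (∀ n, IsClosed (S U n)) ∧ U = ⋃ n, S U n ∧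
      ∀ K, IsCompact K → K ⊆ U → ∃ n, K ⊆ S U n) ∧
    (∀ U V, IsOpen U → IsOpen V → U ⊆ V → ∀ n, S U n ⊆ S V n) ∧
    ∀ U n m, n ≤ m → S U n ⊆ S U m := by
  obtain ⟨S, hS, hS'⟩ := h
  refine ⟨fun U n => ⋃ i ∈ Finset.range (n + 1), S U i, ?_, ?_, ?_⟩
  · intro U hU
    obtain ⟨h1, h2, h3⟩ := hS U hU
    refine ⟨?_, ?_, ?_⟩
    · intro n
      exact isClosed_biUnion_finset fun i _ => h1 i
    · apply Subset.antisymm
      · intro x hx
        rw [h2] at hx
        obtain ⟨n, hn⟩ := mem_iUnion.1 hx
        exact mem_iUnion.2 ⟨n, mem_iUnion₂.2 ⟨n, Finset.self_mem_range_succ n, hn⟩⟩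
      · intro x hx
        obtain ⟨n, hn⟩ := mem_iUnion.1 hx
        obtain ⟨i, -, hi⟩ := mem_iUnion₂.1 hn
        rw [h2]
        exact mem_iUnion.2 ⟨i, hi⟩
    · intro K hK hKU
      obtain ⟨n, hn⟩ := h3 K hK hKU
      exact ⟨n, hn.trans (fun x hx => mem_iUnion₂.2 ⟨n, Finset.self_mem_range_succ n, hx⟩)⟩
  · intro U V hU hV hUV n x hx
    obtain ⟨i, hi, hx⟩ := mem_iUnion₂.1 hx
    exact mem_iUnion₂.2 ⟨i, hi, hS' U V hU hV hUV i hx⟩
  · intro U n m hnm x hx
    obtain ⟨i, hi, hx⟩ := mem_iUnion₂.1 hx
    refine mem_iUnion₂.2 ⟨i, ?_, hx⟩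
    rw [Finset.mem_range] at hi ⊢
    omega

variable {Z : Type u} [TopologicalSpace Z]

/-- `W` is a functional neighborhood of `H`. -/
def CS (H W : Set Z) : Prop :=
  ∃ h : Z → ℝ, Continuous h ∧ (∀ z ∈ H, h z = 0) ∧ ∀ z, z ∉ W → 1 ≤ h z

theorem CS.univ (H : Set Z) : CS H Set.univ :=
  ⟨fun _ => 0, continuous_const, fun _ _ => rfl, fun z hz => absurd (mem_univ z) hz⟩

theorem CS.inter {H W W' : Set Z} (h : CS H W) (h' : CS H W') : CS H (W ∩ W') := by
  obtain ⟨f, hf, hf0, hf1⟩ := h
  obtain ⟨g, hg, hg0, hg1⟩ := h'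
  refine ⟨fun z => max (f z) (g z), hf.max hg, ?_, ?_⟩
  · intro z hz
    simp [hf0 z hz, hg0 z hz]
  · intro z hz
    by_cases hzW : z ∈ W
    · exact le_max_of_le_right (hg1 z (fun h => hz ⟨hzW, h⟩))
    · exact le_max_of_le_left (hf1 z hzW)

theorem CS.mono {H W W' : Set Z} (h : CS H W) (hW : W ⊆ W') : CS H W' := by
  obtain ⟨f, hf, hf0, hf1⟩ := h
  exact ⟨f, hf, hf0, fun z hz => hf1 z (fun h => hz (hW h))⟩

theorem CS.subset {H W : Set Z} (h : CS H W) : H ⊆ W := by
  obtain ⟨f, hf, hf0, hf1⟩ := h
  intro z hz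
  by_contra hzW
  have h1 := hf1 z hzW
  rw [hf0 z hz] at h1
  linarith

/-- The space: countably many copies of `Z` and a point at infinity. -/
def Inf (_H : Set Z) : Type u := Option (ℕ × Z)

variable {H : Set Z}

/-- The point `z` in the `n`-th copy. -/
def pt (H : Set Z) (n : ℕ) (z : Z) : Inf H := some (n, z)

/-- The point at infinity. -/
def infty (H : Set Z) : Inf H := none

theorem cases_inf {p : Inf H → Prop} (h0 : p (infty H)) (h1 : ∀ n z, p (pt H n z)) :
    ∀ x, p x := by
  rintro (_ | ⟨n, z⟩)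
  · exact h0
  · exact h1 n z

theorem pt_ne_infty (n : ℕ) (z : Z) : pt H n z ≠ infty H := by
  intro h
  exact Option.some_ne_none _ h

theorem pt_inj {n m : ℕ} {z w : Z} : pt H n z = pt H m w ↔ n = m ∧ z = w := by
  unfold pt
  constructor
  · intro h
    have h' := Option.some.inj h
    exact ⟨congrArg Prod.fst h', congrArg Prod.snd h'⟩
  · rintro ⟨rfl, rfl⟩
    rfl

instance : TopologicalSpace (Inf H) where
  IsOpen U := (∀ n, IsOpen {z | pt H n z ∈ U}) ∧
    (infty H ∈ U → ∃ n₀, ∀ n ≥ n₀, CS H {z | pt H n z ∈ U})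
  isOpen_univ := by
    refine ⟨fun n => by simp, fun _ => ⟨0, fun n _ => ?_⟩⟩
    simpa using CS.univ H
  isOpen_inter := by
    rintro U V ⟨hU, hU'⟩ ⟨hV, hV'⟩
    refine ⟨fun n => (hU n).inter (hV n), ?_⟩
    rintro ⟨h1, h2⟩
    obtain ⟨n1, hn1⟩ := hU' h1
    obtain ⟨n2, hn2⟩ := hV' h2
    refine ⟨max n1 n2, fun n hn => ?_⟩
    exact (hn1 n (le_of_max_le_left hn)).inter (hn2 n (le_of_max_le_right hn))
  isOpen_sUnion := by
    intro s hs
    refine ⟨fun n => ?_, ?_⟩
    · have : {z | pt H n z ∈ ⋃₀ s} = ⋃ U ∈ s, {z | pt H n z ∈ U} := by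
        ext z
        simp
      rw [this]
      exact isOpen_biUnion fun U hU => (hs U hU).1 n
    · rintro ⟨U, hU, hU'⟩
      obtain ⟨n0, hn0⟩ := (hs U hU).2 hU'
      exact ⟨n0, fun n hn => (hn0 n hn).mono fun z hz => ⟨U, hU, hz⟩⟩

theorem isOpen_iff {U : Set (Inf H)} : IsOpen U ↔ (∀ n, IsOpen {z | pt H n z ∈ U}) ∧
    (infty H ∈ U → ∃ n₀, ∀ n ≥ n₀, CS H {z | pt H n z ∈ U}) := Iff.rfl

theorem continuous_pt (n : ℕ) : Continuous (pt H n) := by
  rw [continuous_def]
  intro U hU
  exact hU.1 n

/-- The image of a subset of `Z` in the `n`-th copy. -/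
theorem isOpen_image_pt (n : ℕ) {W : Set Z} (hW : IsOpen W) : IsOpen (pt H n '' W) := by
  rw [isOpen_iff]
  refine ⟨fun m => ?_, ?_⟩
  · by_cases hnm : n = m
    · subst hnm
      have : {z | pt H n z ∈ pt H n '' W} = W := by
        ext z
        simp [pt_inj]
      rw [this]
      exact hW
    · have : {z | pt H m z ∈ pt H n '' W} = ∅ := by
        ext z
        simp [pt_inj, hnm]
      rw [this]
      exact isOpen_empty
  · rintro ⟨z, -, hz⟩
    exact absurd hz (pt_ne_infty n z)

theorem isClosed_image_pt (n : ℕ) {W : Set Z} (hW : IsClosed W) : IsClosed (pt H n '' W) := by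
  rw [← isOpen_compl_iff, isOpen_iff]
  refine ⟨fun m => ?_, fun _ => ⟨n + 1, fun m hm => ?_⟩⟩
  · by_cases hnm : n = m
    · subst hnm
      have : {z | pt H n z ∈ (pt H n '' W)ᶜ} = Wᶜ := by
        ext z
        simp [pt_inj]
      rw [this]
      exact hW.isOpen_compl
    · have : {z | pt H m z ∈ (pt H n '' W)ᶜ} = Set.univ := by
        ext z
        simp [pt_inj, hnm]
      rw [this]
      exact isOpen_univ
  · have : {z | pt H m z ∈ (pt H n '' W)ᶜ} = Set.univ := by
      ext z
      have : n ≠ m := by omega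
      simp [pt_inj, this]
    rw [this]
    exact CS.univ H

theorem isCompact_preimage_pt (n : ℕ) {K : Set (Inf H)} (hK : IsCompact K) :
    IsCompact {z | pt H n z ∈ K} := by
  have hemb : IsInducing (pt H n) := by
    refine ⟨?_⟩
    apply le_antisymm
    · exact (continuous_pt n).le_induced
    · intro W hW
      refine ⟨pt H n '' W, isOpen_image_pt n hW, ?_⟩
      ext z
      simp [pt_inj]
  have h1 : IsCompact (K ∩ pt H n '' Set.univ) :=
    hK.inter_right (isClosed_image_pt n isClosed_univ)
  rw [hemb.isCompact_iff]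
  have : pt H n '' {z | pt H n z ∈ K} = K ∩ pt H n '' Set.univ := by
    ext x
    constructor
    · rintro ⟨z, hz, rfl⟩
      exact ⟨hz, z, mem_univ _, rfl⟩
    · rintro ⟨hx, z, -, rfl⟩
      exact ⟨z, hx, rfl⟩
  rw [this]
  exact h1

/-- Continuity at infinity. -/
theorem continuous_of {f : Inf H → ℝ} (h1 : ∀ n, Continuous fun z => f (pt H n z))
    (h2 : ∀ ε > 0, ∃ n₀, ∀ n ≥ n₀, CS H {z | |f (pt H n z) - f (infty H)| < ε}) :
    Continuous f := by
  rw [continuous_def]
  intro O hO
  rw [isOpen_iff]
  refine ⟨fun n => hO.preimage (h1 n), ?_⟩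
  intro hinf
  obtain ⟨ε, hε, hεO⟩ := Metric.isOpen_iff.1 hO _ hinf
  obtain ⟨n0, hn0⟩ := h2 ε hε
  refine ⟨n0, fun n hn => (hn0 n hn).mono ?_⟩
  intro z hz
  apply hεO
  rw [Metric.mem_ball, Real.dist_eq]
  exact hz

theorem cs_compl_singleton [T35Space Z] (hH : IsClosed H) {x : Z} (hx : x ∉ H) :
    CS H {x}ᶜ := by
  obtain ⟨f, hf, hfx, hfH⟩ := CompletelyRegularSpace.completely_regular x H hH hx
  refine ⟨fun z => 1 - (f z : ℝ), continuous_const.sub (continuous_subtype_val.comp hf), ?_, ?_⟩
  · intro z hz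
    have := hfH hz
    simp only [Pi.one_apply] at this
    simp [this]
  · intro z hz
    have hzx : z = x := by
      by_contra h
      exact hz h
    show 1 ≤ 1 - (f z : ℝ)
    rw [hzx, hfx]
    simp

/-- A compact set is eventually contained in the `H`-parts. -/
theorem eventually_subset [T35Space Z] (hH : IsClosed H) {K : Set (Inf H)} (hK : IsCompact K) :
    ∃ n₀, ∀ n ≥ n₀, {z | pt H n z ∈ K} ⊆ H := by
  classical
  by_contra hcon
  push Not at hcon
  have h1 : ∀ n₀, ∃ n ≥ n₀, ∃ x, pt H n x ∈ K ∧ x ∉ H := by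
    intro n0
    obtain ⟨n, hn, hnH⟩ := hcon n0
    rw [Set.not_subset] at hnH
    obtain ⟨x, hx, hxH⟩ := hnH
    exact ⟨n, hn, x, hx, hxH⟩
  -- choose one bad point in each copy, if there is any
  let bad : ℕ → Prop := fun n => ∃ x, pt H n x ∈ K ∧ x ∉ H
  let O : Set (Inf H) := {y | ∀ n, ∀ hb : bad n, y ≠ pt H n hb.choose}
  have hO : IsOpen O := by
    rw [isOpen_iff]
    have key : ∀ n, IsOpen {z | pt H n z ∈ O} ∧ CS H {z | pt H n z ∈ O} := by
      intro n
      by_cases hb : bad n
      · have : {z | pt H n z ∈ O} = {hb.choose}ᶜ := by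
          ext z
          simp only [O, mem_ofPred_eq, mem_compl_iff, mem_singleton_iff]
          constructor
          · intro h hz
            exact h n hb (by rw [hz])
          · intro h m hbm hz
            obtain ⟨rfl, rfl⟩ := pt_inj.1 hz
            exact h rfl
        rw [this]
        exact ⟨isOpen_compl_singleton, cs_compl_singleton hH hb.choose_spec.2⟩
      · have : {z | pt H n z ∈ O} = Set.univ := by
          ext z
          simp only [O, mem_ofPred_eq, mem_univ, iff_true]
          intro m hbm hz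
          obtain ⟨rfl, -⟩ := pt_inj.1 hz
          exact hb hbm
        rw [this]
        exact ⟨isOpen_univ, CS.univ H⟩
    exact ⟨fun n => (key n).1, fun _ => ⟨0, fun n _ => (key n).2⟩⟩
  have hinf : infty H ∈ O := fun n _ h => (pt_ne_infty _ _) h.symm
  obtain ⟨t, ht⟩ := hK.elim_finite_subcover
    (fun i : ℕ => O ∪ ⋃ j ∈ Finset.range i, pt H j '' Set.univ)
    (fun i => hO.union (isOpen_biUnion fun j _ => isOpen_image_pt j isOpen_univ)) (by
      intro y _
      revert y
      apply cases_inf
      · intro _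
        exact mem_iUnion.2 ⟨0, Or.inl hinf⟩
      · intro n z _
        exact mem_iUnion.2 ⟨n + 1, Or.inr (mem_iUnion₂.2
          ⟨n, Finset.self_mem_range_succ n, z, mem_univ _, rfl⟩)⟩)
  obtain ⟨n, hn, x, hxK, hxH⟩ := h1 (t.sup id)
  have hb : bad n := ⟨x, hxK, hxH⟩
  obtain ⟨i, hit, hi⟩ := mem_iUnion₂.1 (ht hb.choose_spec.1)
  rcases hi with hi | hi
  · exact hi n hb rfl
  · obtain ⟨j, hj, z, -, hz⟩ := mem_iUnion₂.1 hi
    obtain ⟨rfl, -⟩ := pt_inj.1 hz
    have h2 : i ≤ t.sup id := Finset.le_sup (f := id) hit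
    rw [Finset.mem_range] at hj
    omega

/-- The new space is Tychonoff. -/
theorem t35 [T35Space Z] : T35Space (Inf H) := by
  have hT1 : T1Space (Inf H) := by
    refine ⟨?_⟩
    apply cases_inf
    · rw [← isOpen_compl_iff, isOpen_iff]
      refine ⟨fun n => ?_, fun h => absurd rfl h⟩
      have : {z | pt H n z ∈ ({infty H} : Set (Inf H))ᶜ} = Set.univ := by
        ext z
        simp [pt_ne_infty]
      rw [this]
      exact isOpen_univ
    · intro n z
      have : ({pt H n z} : Set (Inf H)) = pt H n '' {z} := by simp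
      rw [this]
      exact isClosed_image_pt n isClosed_singleton
  -- it suffices to find real functions
  have key : ∀ (x : Inf H) (K : Set (Inf H)), IsClosed K → x ∉ K →
      ∃ f : Inf H → ℝ, Continuous f ∧ f x = 0 ∧ ∀ y ∈ K, 1 ≤ f y := by
    intro x K hK hx
    have hKo : IsOpen Kᶜ := hK.isOpen_compl
    revert x
    apply cases_inf
    · intro hx
      obtain ⟨n0, hn0⟩ := hKo.2 hx
      choose! h hh hh0 hh1 using hn0
      classical
      let f : Inf H → ℝ := fun y => Option.elim y 0
        (fun q => if n0 ≤ q.1 then |h q.1 q.2| else 1)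
      have hf0 : f (infty H) = 0 := rfl
      have hf1 : ∀ n z, f (pt H n z) = if n0 ≤ n then |h n z| else 1 := fun n z => rfl
      refine ⟨f, continuous_of ?_ ?_, hf0, ?_⟩
      · intro n
        by_cases hn : n0 ≤ n
        · have : (fun z => f (pt H n z)) = fun z => |h n z| := by
            funext z
            rw [hf1, if_pos hn]
          rw [this]
          exact (hh n hn).abs
        · have : (fun z => f (pt H n z)) = fun z => 1 := by
            funext z
            rw [hf1, if_neg hn]
          rw [this]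
          exact continuous_const
      · intro ε hε
        refine ⟨n0, fun n hn => ⟨fun z => |h n z| / ε, (hh n hn).abs.div_const ε, ?_, ?_⟩⟩
        · intro z hz
          simp [hh0 n hn z hz]
        · intro z hz
          simp only [hf0, hf1, if_pos hn, sub_zero, abs_abs, mem_ofPred_eq, not_lt] at hz
          rw [le_div_iff₀ hε, one_mul]
          exact hz
      · apply cases_inf
        · intro h
          exact absurd h hx
        · intro n z hz
          rw [hf1]
          split_ifs with hn
          · exact (hh1 n hn z (fun h => h hz)).trans (le_abs_self _)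
          · exact le_rfl
    · intro n z hz
      have hcl : IsClosed {w | pt H n w ∈ K} := hK.preimage (continuous_pt n)
      obtain ⟨g, hg, hgz, hgK⟩ := CompletelyRegularSpace.completely_regular z _ hcl hz
      classical
      let f : Inf H → ℝ := fun y => Option.elim y 1
        (fun q => if q.1 = n then (g q.2 : ℝ) else 1)
      have hf0 : f (infty H) = 1 := rfl
      have hf1 : ∀ m w, f (pt H m w) = if m = n then (g w : ℝ) else 1 := fun m w => rfl
      refine ⟨f, continuous_of ?_ ?_, ?_, ?_⟩
      · intro m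
        by_cases hm : m = n
        · have : (fun w => f (pt H m w)) = fun w => (g w : ℝ) := by
            funext w
            rw [hf1, if_pos hm]
          rw [this]
          exact continuous_subtype_val.comp hg
        · have : (fun w => f (pt H m w)) = fun w => 1 := by
            funext w
            rw [hf1, if_neg hm]
          rw [this]
          exact continuous_const
      · intro ε hε
        refine ⟨n + 1, fun m hm => ?_⟩
        have : {w | |f (pt H m w) - f (infty H)| < ε} = Set.univ := by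
          ext w
          have hmn : m ≠ n := by omega
          simp [hf0, hf1, hmn, hε]
        rw [this]
        exact CS.univ H
      · rw [hf1, if_pos rfl, hgz]
        rfl
      · apply cases_inf
        · intro _
          rw [hf0]
        · intro m w hw
          rw [hf1]
          split_ifs with hm
          · subst hm
            have := hgK hw
            simp only [Pi.one_apply] at this
            rw [this]
            simp
          · exact le_rfl
  have hCR : CompletelyRegularSpace (Inf H) := by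
    refine ⟨?_⟩
    intro x K hK hx
    obtain ⟨f, hf, hfx, hfK⟩ := key x K hK hx
    refine ⟨fun y => ⟨max 0 (min (f y) 1), le_max_left _ _,
      max_le zero_le_one (min_le_right _ _)⟩, ?_, ?_, ?_⟩
    · exact (continuous_const.max (hf.min continuous_const)).subtype_mk _
    · apply Subtype.ext
      simp [hfx]
    · intro y hy
      apply Subtype.ext
      have := hfK y hy
      simp [this]
  exact @T35Space.mk (Inf H) _ inferInstance hCR

/-- Points of the `H`-parts in different copies converge to infinity. -/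
theorem isCompact_seq {A : Set ℕ} (x : ℕ → Z) (hx : ∀ n ∈ A, x n ∈ H) :
    IsCompact (insert (infty H) ((fun n => pt H n (x n)) '' A)) := by
  rw [isCompact_iff_finite_subcover]
  intro ι U hU hcov
  obtain ⟨i0, hi0⟩ := mem_iUnion.1 (hcov (mem_insert _ _))
  obtain ⟨n0, hn0⟩ := (hU i0).2 hi0
  have : ∀ n ∈ A, ∃ i, pt H n (x n) ∈ U i := fun n hn =>
    mem_iUnion.1 (hcov (mem_insert_of_mem _ ⟨n, hn, rfl⟩))
  classical
  have hne : Nonempty ι := ⟨i0⟩
  choose! i hi using this
  refine ⟨insert i0 ((Finset.range n0).image i), ?_⟩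
  rintro y (rfl | ⟨n, hn, rfl⟩)
  · exact mem_iUnion₂.2 ⟨i0, Finset.mem_insert_self _ _, hi0⟩
  · by_cases h : n0 ≤ n
    · exact mem_iUnion₂.2 ⟨i0, Finset.mem_insert_self _ _, (hn0 n h).subset (hx n hn)⟩
    · refine mem_iUnion₂.2 ⟨i n, Finset.mem_insert_of_mem (Finset.mem_image_of_mem _ ?_), hi n hn⟩
      rw [Finset.mem_range]
      omega

/-- The new space has the `k_R`-property. -/
theorem kr (hZ : KR Z) : KR (Inf H) := by
  intro f hf
  have h1 : ∀ n, Continuous fun z => f (pt H n z) := by
    intro n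
    apply hZ
    intro K hK
    have := hf (pt H n '' K) (hK.image (continuous_pt n))
    exact this.comp (continuous_pt n).continuousOn (mapsTo_image _ _)
  apply continuous_of h1
  intro ε hε
  have h2 : ∃ n₀, ∀ n ≥ n₀, ∀ z ∈ H, |f (pt H n z) - f (infty H)| ≤ ε / 2 := by
    by_contra hcon
    push Not at hcon
    let A : Set ℕ := {n | ∃ z ∈ H, ε / 2 < |f (pt H n z) - f (infty H)|}
    have hA : ∀ n ∈ A, ∃ z, z ∈ H ∧ ε / 2 < |f (pt H n z) - f (infty H)| := fun n hn => hn
    obtain ⟨_, _, z0, _⟩ := hcon 0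
    have hne : Nonempty Z := ⟨z0⟩
    choose! x hx hx' using hA
    have hc := isCompact_seq (H := H) x hx
    have hcont := hf _ hc
    have h3 : ContinuousWithinAt f (insert (infty H) ((fun n => pt H n (x n)) '' A)) (infty H) :=
      hcont _ (mem_insert _ _)
    have h4 : {r : ℝ | |r - f (infty H)| < ε / 2} ∈ 𝓝 (f (infty H)) := by
      have h41 : {r : ℝ | |r - f (infty H)| < ε / 2} = Metric.ball (f (infty H)) (ε / 2) := by
        ext r
        rw [Metric.mem_ball, Real.dist_eq]
        rfl
      rw [h41]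
      exact Metric.ball_mem_nhds (f (infty H)) (half_pos hε)
    have h5 := h3 h4
    rw [Filter.mem_map, mem_nhdsWithin] at h5
    obtain ⟨O, hO, hinfO, hOs⟩ := h5
    obtain ⟨n0, hn0⟩ := hO.2 hinfO
    obtain ⟨n, hn, z, hz, hz'⟩ := hcon n0
    have hnA : n ∈ A := ⟨z, hz, hz'⟩
    have h6 : pt H n (x n) ∈ O := (hn0 n hn).subset (hx n hnA)
    have h7 := hOs ⟨h6, mem_insert_of_mem _ ⟨n, hnA, rfl⟩⟩
    exact absurd h7 (not_lt.2 (hx' n hnA).le)
  obtain ⟨n0, hn0⟩ := h2
  refine ⟨n0, fun n hn => ?_⟩
  refine ⟨fun z => max 0 ((|f (pt H n z) - f (infty H)| - ε / 2) / (ε / 2)), ?_, ?_, ?_⟩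
  · exact continuous_const.max
      (((((h1 n).sub continuous_const).abs).sub continuous_const).div_const _)
  · intro z hz
    have := hn0 n hn z hz
    apply max_eq_left
    apply div_nonpos_of_nonpos_of_nonneg
    · linarith
    · linarith
  · intro z hz
    simp only [mem_ofPred_eq, not_lt] at hz
    apply le_max_of_le_right
    rw [le_div_iff₀ (half_pos hε)]
    linarith

/-- The new space is `k`-semistratifiable. -/
theorem kSemistrat [T35Space Z] (hH : IsClosed H) (hZ : KSemistrat Z) : KSemistrat (Inf H) := by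
  classical
  obtain ⟨S, hS, hSm, hSn⟩ := hZ.mono
  let sl : Set (Inf H) → ℕ → Set Z := fun U n => {z | pt H n z ∈ U}
  have hslo : ∀ U, IsOpen U → ∀ n, IsOpen (sl U n) := fun U hU n => hU.1 n
  -- the sets for `U`
  let R : Set (Inf H) → ℕ → Set (Inf H) := fun U m =>
    {y | ∃ n z, y = pt H n z ∧ (infty H ∈ U ∨ n ≤ m) ∧ z ∈ S (sl U n) m} ∪
    {y | ∃ n z, y = pt H n z ∧ infty H ∈ U ∧ H ⊆ sl U n ∧ z ∈ H} ∪
    {y | y = infty H ∧ infty H ∈ U}
  have hRpt : ∀ U m n z, pt H n z ∈ R U m ↔ ((infty H ∈ U ∨ n ≤ m) ∧ z ∈ S (sl U n) m) ∨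
      (infty H ∈ U ∧ H ⊆ sl U n ∧ z ∈ H) := by
    intro U m n z
    constructor
    · rintro ((⟨n', z', h, h1, h2⟩ | ⟨n', z', h, h1, h2, h3⟩) | ⟨h, -⟩)
      · obtain ⟨rfl, rfl⟩ := pt_inj.1 h
        exact Or.inl ⟨h1, h2⟩
      · obtain ⟨rfl, rfl⟩ := pt_inj.1 h
        exact Or.inr ⟨h1, h2, h3⟩
      · exact absurd h (pt_ne_infty n z)
    · rintro (⟨h1, h2⟩ | ⟨h1, h2, h3⟩)
      · exact Or.inl (Or.inl ⟨n, z, rfl, h1, h2⟩)
      · exact Or.inl (Or.inr ⟨n, z, rfl, h1, h2, h3⟩)
  have hRinf : ∀ U m, infty H ∈ R U m ↔ infty H ∈ U := by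
    intro U m
    constructor
    · rintro ((⟨n', z', h, -⟩ | ⟨n', z', h, -⟩) | ⟨-, h⟩)
      · exact absurd h.symm (pt_ne_infty _ _)
      · exact absurd h.symm (pt_ne_infty _ _)
      · exact h
    · intro h
      exact Or.inr ⟨rfl, h⟩
  refine ⟨R, ?_, ?_⟩
  · intro U hU
    refine ⟨?_, ?_, ?_⟩
    · intro m
      rw [← isOpen_compl_iff, isOpen_iff]
      refine ⟨fun n => ?_, ?_⟩
      · have h1 : IsClosed {z | pt H n z ∈ R U m} := by
          have : {z | pt H n z ∈ R U m} =
              (if infty H ∈ U ∨ n ≤ m then S (sl U n) m else ∅) ∪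
              (if infty H ∈ U ∧ H ⊆ sl U n then H else ∅) := by
            ext z
            rw [mem_ofPred_eq, hRpt, mem_union, ← and_assoc]
            by_cases h1 : (infty H ∈ U ∨ n ≤ m)
            · by_cases h2 : (infty H ∈ U ∧ H ⊆ sl U n)
              · rw [if_pos h1, if_pos h2]
                tauto
              · rw [if_pos h1, if_neg h2, mem_empty_iff_false]
                tauto
            · by_cases h2 : (infty H ∈ U ∧ H ⊆ sl U n)
              · rw [if_neg h1, if_pos h2, mem_empty_iff_false]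
                tauto
              · rw [if_neg h1, if_neg h2, mem_empty_iff_false]
                tauto
          rw [this]
          apply IsClosed.union
          · split_ifs
            · exact (hS _ (hslo U hU n)).1 m
            · exact isClosed_empty
          · split_ifs
            · exact hH
            · exact isClosed_empty
        exact h1.isOpen_compl
      · intro hinf
        have hinfU : infty H ∉ U := fun h => hinf ((hRinf U m).2 h)
        refine ⟨m + 1, fun n hn => ?_⟩
        have : {z | pt H n z ∈ (R U m)ᶜ} = Set.univ := by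
          ext z
          simp only [mem_ofPred_eq, mem_compl_iff, mem_univ, iff_true, hRpt]
          rintro (⟨h1 | h1, -⟩ | ⟨h1, -⟩)
          · exact hinfU h1
          · omega
          · exact hinfU h1
        rw [this]
        exact CS.univ H
    · ext y
      revert y
      apply cases_inf
      · simp only [mem_iUnion, hRinf, exists_const]
      · intro n z
        rw [mem_iUnion]
        constructor
        · intro hz
          have hz' : z ∈ sl U n := hz
          rw [(hS _ (hslo U hU n)).2.1] at hz'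
          obtain ⟨i, hi⟩ := mem_iUnion.1 hz'
          refine ⟨max i n, (hRpt _ _ _ _).2 (Or.inl ⟨Or.inr (le_max_right _ _), ?_⟩)⟩
          exact hSn _ _ _ (le_max_left _ _) hi
        · rintro ⟨m, hm⟩
          rcases (hRpt _ _ _ _).1 hm with ⟨-, h2⟩ | ⟨-, h2, h3⟩
          · have : z ∈ sl U n := by
              rw [(hS _ (hslo U hU n)).2.1]
              exact mem_iUnion.2 ⟨m, h2⟩
            exact this
          · exact h2 h3
    · intro K hK hKU
      obtain ⟨n0, hn0⟩ := eventually_subset hH hK
      -- a bound for the first copies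
      have h1 : ∀ n, ∃ m, {z | pt H n z ∈ K} ⊆ S (sl U n) m := fun n =>
        (hS _ (hslo U hU n)).2.2 _ (isCompact_preimage_pt n hK) (fun z hz => hKU hz)
      choose m hm using h1
      by_cases hinf : infty H ∈ U
      · obtain ⟨n1, hn1⟩ := hU.2 hinf
        let N := max n0 n1
        refine ⟨(Finset.range N).sup m, ?_⟩
        apply cases_inf
        · intro _
          exact (hRinf _ _).2 hinf
        · intro n z hz
          rw [hRpt]
          by_cases hn : n < N
          · refine Or.inl ⟨Or.inl hinf, hSn _ _ _ ?_ (hm n hz)⟩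
            exact Finset.le_sup (Finset.mem_range.2 hn)
          · rw [not_lt] at hn
            refine Or.inr ⟨hinf, ?_, ?_⟩
            · exact (hn1 n ((le_max_right _ _).trans hn)).subset
            · exact hn0 n ((le_max_left _ _).trans hn) hz
      · -- only finitely many copies meet `K`
        obtain ⟨t, ht⟩ := hK.elim_finite_subcover
          (fun i : ℕ => ⋃ j ∈ Finset.range i, pt H j '' Set.univ)
          (fun i => isOpen_biUnion fun j _ => isOpen_image_pt j isOpen_univ) (by
            intro y hy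
            revert y
            apply cases_inf
            · intro h
              exact absurd (hKU h) hinf
            · intro n z _
              exact mem_iUnion.2 ⟨n + 1, mem_iUnion₂.2
                ⟨n, Finset.self_mem_range_succ n, z, mem_univ _, rfl⟩⟩)
        let N := t.sup id
        refine ⟨max N ((Finset.range N).sup m), ?_⟩
        apply cases_inf
        · intro h
          exact absurd (hKU h) hinf
        · intro n z hz
          have hnN : n < N := by
            obtain ⟨i, hit, hi⟩ := mem_iUnion₂.1 (ht hz)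
            obtain ⟨j, hj, w, -, hw⟩ := mem_iUnion₂.1 hi
            obtain ⟨rfl, -⟩ := pt_inj.1 hw
            have h2 : i ≤ t.sup id := Finset.le_sup (f := id) hit
            rw [Finset.mem_range] at hj
            exact lt_of_lt_of_le hj h2
          rw [hRpt]
          refine Or.inl ⟨Or.inr (hnN.le.trans (le_max_left _ _)), hSn _ _ _ ?_ (hm n hz)⟩
          exact (Finset.le_sup (Finset.mem_range.2 hnN)).trans (le_max_right _ _)
  · intro U V hU hV hUV m
    have hsl : ∀ n, sl U n ⊆ sl V n := fun n z hz => hUV hz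
    apply cases_inf
    · intro h
      exact (hRinf _ _).2 (hUV ((hRinf _ _).1 h))
    · intro n z hz
      rw [hRpt] at hz ⊢
      rcases hz with ⟨h1, h2⟩ | ⟨h1, h2, h3⟩
      · refine Or.inl ⟨h1.imp (fun h => hUV h) id, ?_⟩
        exact hSm _ _ (hslo U hU n) (hslo V hV n) (hsl n) m h2
      · exact Or.inr ⟨hUV h1, h2.trans (hsl n), h3⟩

/-- The closed subspace which is not a `k_R`-space. -/
def FF (H D : Set Z) : Set (Inf H) := {y | y = infty H ∨ ∃ n, ∃ z ∈ D, y = pt H n z}

theorem pt_mem_FF {D : Set Z} {n : ℕ} {z : Z} : pt H n z ∈ FF H D ↔ z ∈ D := by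
  constructor
  · rintro (h | ⟨m, w, hw, h⟩)
    · exact absurd h (pt_ne_infty n z)
    · obtain ⟨rfl, rfl⟩ := pt_inj.1 h
      exact hw
  · intro h
    exact Or.inr ⟨n, z, h, rfl⟩

theorem isClosed_FF {D : Set Z} (hD : IsClosed D) : IsClosed (FF H D) := by
  rw [← isOpen_compl_iff, isOpen_iff]
  refine ⟨fun n => ?_, fun h => absurd (Or.inl rfl) h⟩
  have : {z | pt H n z ∈ (FF H D)ᶜ} = Dᶜ := by
    ext z
    rw [mem_ofPred_eq, mem_compl_iff, pt_mem_FF, mem_compl_iff]
  rw [this]
  exact hD.isOpen_compl

/-- The main reduction. -/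
theorem reduction [T35Space Z] (hH : IsClosed H) {D : Set Z}
    (hdisj : ∀ z ∈ D, z ∉ H)
    (hns : ¬ ∃ h : Z → ℝ, Continuous h ∧ (∀ z ∈ H, h z = 0) ∧ ∀ z ∈ D, 1 ≤ h z) :
    ∃ f : FF H D → ℝ, (∀ K : Set (FF H D), IsCompact K → ContinuousOn f K) ∧ ¬ Continuous f := by
  classical
  let o : FF H D := ⟨infty H, Or.inl rfl⟩
  refine ⟨fun y => if y = o then 1 else 0, ?_, ?_⟩
  · intro K hK
    -- the copies meeting `K`
    have hK' : IsCompact (Subtype.val '' K) := hK.image continuous_subtype_val
    obtain ⟨n0, hn0⟩ := eventually_subset hH hK'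
    have h1 : ∀ n ≥ n0, ∀ z, ∀ hz : z ∈ D, (⟨pt H n z, pt_mem_FF.2 hz⟩ : FF H D) ∉ K := by
      intro n hn z hz hzK
      exact hdisj z hz (hn0 n hn ⟨_, hzK, rfl⟩)
    -- the neighborhood of infinity
    let O : Set (Inf H) := {y | ∀ n < n0, ∀ z, y ≠ pt H n z}
    have hO : IsOpen O := by
      rw [isOpen_iff]
      refine ⟨fun n => ?_, fun _ => ⟨n0, fun n hn => ?_⟩⟩
      · by_cases hn : n < n0
        · have : {z | pt H n z ∈ O} = ∅ := by
            ext z
            simp only [O, mem_ofPred_eq, mem_empty_iff_false, iff_false]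
            intro h
            exact h n hn z rfl
          rw [this]
          exact isOpen_empty
        · have : {z | pt H n z ∈ O} = Set.univ := by
            ext z
            simp only [O, mem_ofPred_eq, mem_univ, iff_true]
            intro m hm w h
            obtain ⟨rfl, -⟩ := pt_inj.1 h
            exact hn hm
          rw [this]
          exact isOpen_univ
      · have : {z | pt H n z ∈ O} = Set.univ := by
          ext z
          simp only [O, mem_ofPred_eq, mem_univ, iff_true]
          intro m hm w h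
          obtain ⟨rfl, -⟩ := pt_inj.1 h
          omega
        rw [this]
        exact CS.univ H
    have hoO : infty H ∈ O := fun n _ z h => pt_ne_infty n z h.symm
    intro y hy
    by_cases hyo : y = o
    · subst hyo
      have h2 : (fun y : FF H D => if y = o then (1 : ℝ) else 0) =ᶠ[𝓝[K] o] fun _ => 1 := by
        rw [Filter.eventuallyEq_iff_exists_mem]
        refine ⟨K ∩ Subtype.val ⁻¹' O, ?_, ?_⟩
        · exact inter_mem self_mem_nhdsWithin (mem_nhdsWithin_of_mem_nhds
            ((hO.preimage continuous_subtype_val).mem_nhds hoO))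
        · rintro ⟨x, hx⟩ ⟨hxK, hxO⟩
          revert x
          apply cases_inf
          · intro hx _ _
            simp [o]
          · intro n z hx hxK hxO
            exfalso
            have hzD : z ∈ D := pt_mem_FF.1 hx
            by_cases hn : n < n0
            · exact hxO n hn z rfl
            · exact h1 n (not_lt.1 hn) z hzD hxK
      exact (continuousWithinAt_const : ContinuousWithinAt (fun _ => (1 : ℝ)) K
        o).congr_of_eventuallyEq h2 (by simp)
    · have h2 : (fun y : FF H D => if y = o then (1 : ℝ) else 0) =ᶠ[𝓝[K] y] fun _ => 0 := by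
        have hT35 := t35 (H := H)
        have hT1 : T1Space (Inf H) := inferInstance
        have h3 : {x : FF H D | x ≠ o} ∈ 𝓝 y := isOpen_ne.mem_nhds hyo
        refine Filter.eventuallyEq_iff_exists_mem.2 ⟨_, mem_nhdsWithin_of_mem_nhds h3, ?_⟩
        intro x hx
        exact if_neg hx
      exact (continuousWithinAt_const : ContinuousWithinAt (fun _ => (0 : ℝ)) K
        y).congr_of_eventuallyEq h2 (by simp [hyo])
  · intro hc
    have h1 : IsOpen {y : FF H D | y = o} := by
      have := hc.isOpen_preimage (Ioi (1 / 2 : ℝ)) isOpen_Ioi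
      convert this using 1
      ext y
      simp only [mem_ofPred_eq, mem_preimage, mem_Ioi]
      by_cases h : y = o
      · rw [if_pos h]
        simp only [h, true_iff]
        norm_num
      · rw [if_neg h]
        simp only [h, false_iff]
        norm_num
    obtain ⟨U, hU, hUo⟩ := isOpen_induced_iff.1 h1
    have hinf : infty H ∈ U := by
      have : o ∈ {y : FF H D | y = o} := rfl
      rw [← hUo] at this
      exact this
    obtain ⟨n0, hn0⟩ := hU.2 hinf
    obtain ⟨h, hh, hh0, hh1⟩ := hn0 n0 le_rfl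
    apply hns
    refine ⟨h, hh, hh0, ?_⟩
    intro z hz
    apply hh1
    intro hzU
    have h2 : (⟨pt H n0 z, pt_mem_FF.2 hz⟩ : FF H D) ∈ Subtype.val ⁻¹' U := hzU
    rw [hUo] at h2
    have h3 : pt H n0 z = infty H := congrArg Subtype.val h2
    exact pt_ne_infty n0 z h3

end Pool.Agent.Helper76.Kr
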