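import Mathlib
import Pool.Agent.Helper76.KrReduction

set_option autoImplicit false

/-!
# A non-normal `k`-semistratifiable sequential space
-/

namespace Pool.Agent.Helper76.Kr

open Set TopologicalSpace Filter Topology PiNat

/-- Points of the space: `fin y s` for a finite sequence `s` and `lim x z`. Finite sequences are
written backwards, so the children of `s` are the lists `c :: s`. -/
def ZZ : Type := ((ℕ → ℕ) × List ℕ) ⊕ ((ℕ → ℕ) × (ℕ → ℕ))

def fin (y : ℕ → ℕ) (s : List ℕ) : ZZ := Sum.inl (y, s)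

def lim (x z : ℕ → ℕ) : ZZ := Sum.inr (x, z)

theorem fin_inj {y y' : ℕ → ℕ} {s s' : List ℕ} : fin y s = fin y' s' ↔ y = y' ∧ s = s' := by
  unfold fin
  constructor
  · intro h
    have h' := Sum.inl.inj h
    exact ⟨congrArg Prod.fst h', congrArg Prod.snd h'⟩
  · rintro ⟨rfl, rfl⟩
    rfl

theorem lim_inj {x x' z z' : ℕ → ℕ} : lim x z = lim x' z' ↔ x = x' ∧ z = z' := by
  unfold lim
  constructor
  · intro h
    have h' := Sum.inr.inj h
    exact ⟨congrArg Prod.fst h', congrArg Prod.snd h'⟩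
  · rintro ⟨rfl, rfl⟩
    rfl

theorem fin_ne_lim {y x z : ℕ → ℕ} {s : List ℕ} : fin y s ≠ lim x z := by
  intro h
  unfold fin lim at h
  exact Sum.inl_ne_inr h

theorem cases_ZZ {p : ZZ → Prop} (h1 : ∀ y s, p (fin y s)) (h2 : ∀ x z, p (lim x z)) :
    ∀ e, p e := by
  rintro (⟨y, s⟩ | ⟨x, z⟩)
  · exact h1 y s
  · exact h2 x z

theorem res_suffix (z : ℕ → ℕ) {m m' : ℕ} (h : m ≤ m') : res z m <:+ res z m' := by
  induction m', h using Nat.le_induction with
  | base => exact List.suffix_rfl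
  | succ k _ ih => exact ih.trans (List.suffix_cons _ _)

theorem res_eq_of_le {x y : ℕ → ℕ} {m m' : ℕ} (h : m ≤ m') (e : res x m' = res y m') :
    res x m = res y m := by
  rw [res_eq_res] at e ⊢
  exact fun i hi => e (hi.trans_le h)

theorem exists_res_ne {x y : ℕ → ℕ} (h : x ≠ y) : ∃ m, res x m ≠ res y m := by
  by_contra hcon
  push Not at hcon
  exact h (res_injective (funext hcon))

theorem eq_of_suffix {s t u : List ℕ} (h1 : s <:+ u) (h2 : t <:+ u) (h : s.length = t.length) :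
    s = t :=
  (List.suffix_of_suffix_length_le h1 h2 h.le).eq_of_length h

theorem eq_res_of_suffix {z : ℕ → ℕ} {m : ℕ} {t : List ℕ} (h : t <:+ res z m) :
    t = res z t.length := by
  have h1 : t.length ≤ m := by
    have := h.length_le
    rwa [res_length] at this
  exact eq_of_suffix h (res_suffix z h1) (by rw [res_length])

theorem exists_bound (t s : List ℕ) : ∃ n, ∀ c ≥ n, t ≠ c :: s := by
  cases t with
  | nil => exact ⟨0, fun c _ h => List.cons_ne_nil _ _ h.symm⟩
  | cons a t =>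
    refine ⟨a + 1, fun c hc h => ?_⟩
    have := (List.cons.inj h).1
    omega

/-- The basic neighborhoods of `lim x z`. -/
def N (m : ℕ) (x z : ℕ → ℕ) : Set ZZ :=
  {e | (∃ y s, e = fin y s ∧ y ≠ x ∧ res y m = res x m ∧ res z m <:+ s) ∨
    ∃ x' z', e = lim x' z' ∧ res x' m = res x m ∧ res z' m = res z m}

theorem fin_mem_N {m : ℕ} {x z y : ℕ → ℕ} {s : List ℕ} :
    fin y s ∈ N m x z ↔ y ≠ x ∧ res y m = res x m ∧ res z m <:+ s := by
  constructor
  · rintro (⟨y', s', h, h'⟩ | ⟨x', z', h, -⟩)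
    · obtain ⟨rfl, rfl⟩ := fin_inj.1 h
      exact h'
    · exact absurd h fin_ne_lim
  · intro h
    exact Or.inl ⟨y, s, rfl, h⟩

theorem lim_mem_N {m : ℕ} {x z x' z' : ℕ → ℕ} :
    lim x' z' ∈ N m x z ↔ res x' m = res x m ∧ res z' m = res z m := by
  constructor
  · rintro (⟨y', s', h, -⟩ | ⟨x'', z'', h, h'⟩)
    · exact absurd h.symm fin_ne_lim
    · obtain ⟨rfl, rfl⟩ := lim_inj.1 h
      exact h'
  · intro h
    exact Or.inr ⟨x', z', rfl, h⟩

theorem self_mem_N (m : ℕ) (x z : ℕ → ℕ) : lim x z ∈ N m x z := lim_mem_N.2 ⟨rfl, rfl⟩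

theorem N_anti {m m' : ℕ} (h : m ≤ m') (x z : ℕ → ℕ) : N m' x z ⊆ N m x z := by
  apply cases_ZZ
  · intro y s hs
    obtain ⟨h1, h2, h3⟩ := fin_mem_N.1 hs
    exact fin_mem_N.2 ⟨h1, res_eq_of_le h h2, (res_suffix z h).trans h3⟩
  · intro x' z' hs
    obtain ⟨h1, h2⟩ := lim_mem_N.1 hs
    exact lim_mem_N.2 ⟨res_eq_of_le h h1, res_eq_of_le h h2⟩

instance : TopologicalSpace ZZ where
  IsOpen U := (∀ y s, fin y s ∈ U → ∃ n, ∀ c ≥ n, fin y (c :: s) ∈ U) ∧
    ∀ x z, lim x z ∈ U → ∃ m, N m x z ⊆ U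
  isOpen_univ := ⟨fun y s _ => ⟨0, fun c _ => mem_univ _⟩, fun x z _ => ⟨0, subset_univ _⟩⟩
  isOpen_inter := by
    rintro U V ⟨hU, hU'⟩ ⟨hV, hV'⟩
    refine ⟨?_, ?_⟩
    · rintro y s ⟨h1, h2⟩
      obtain ⟨n1, hn1⟩ := hU y s h1
      obtain ⟨n2, hn2⟩ := hV y s h2
      exact ⟨max n1 n2, fun c hc => ⟨hn1 c (le_of_max_le_left hc), hn2 c (le_of_max_le_right hc)⟩⟩
    · rintro x z ⟨h1, h2⟩
      obtain ⟨n1, hn1⟩ := hU' x z h1
      obtain ⟨n2, hn2⟩ := hV' x z h2
      exact ⟨max n1 n2, subset_inter ((N_anti (le_max_left _ _) x z).trans hn1)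
        ((N_anti (le_max_right _ _) x z).trans hn2)⟩
  isOpen_sUnion := by
    intro S hS
    refine ⟨?_, ?_⟩
    · rintro y s ⟨U, hU, hU'⟩
      obtain ⟨n, hn⟩ := (hS U hU).1 y s hU'
      exact ⟨n, fun c hc => ⟨U, hU, hn c hc⟩⟩
    · rintro x z ⟨U, hU, hU'⟩
      obtain ⟨n, hn⟩ := (hS U hU).2 x z hU'
      exact ⟨n, hn.trans (subset_sUnion_of_mem hU)⟩

theorem isOpen_iff' {U : Set ZZ} : IsOpen U ↔
    (∀ y s, fin y s ∈ U → ∃ n, ∀ c ≥ n, fin y (c :: s) ∈ U) ∧
    ∀ x z, lim x z ∈ U → ∃ m, N m x z ⊆ U := Iff.rfl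

theorem isOpen_N (m : ℕ) (x z : ℕ → ℕ) : IsOpen (N m x z) := by
  rw [isOpen_iff']
  refine ⟨?_, ?_⟩
  · intro y s hs
    obtain ⟨h1, h2, h3⟩ := fin_mem_N.1 hs
    exact ⟨0, fun c _ => fin_mem_N.2 ⟨h1, h2, h3.trans (List.suffix_cons _ _)⟩⟩
  · intro x' z' hs
    obtain ⟨h1, h2⟩ := lim_mem_N.1 hs
    -- `m'` separates `x'` from `x` if they are different
    obtain ⟨k, hk⟩ : ∃ k, x' = x ∨ res x k ≠ res x' k := by
      by_cases hx : x' = x
      · exact ⟨0, Or.inl hx⟩
      · obtain ⟨k, hk⟩ := exists_res_ne hx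
        exact ⟨k, Or.inr (Ne.symm hk)⟩
    refine ⟨max m k, ?_⟩
    apply cases_ZZ
    · intro y s hy
      obtain ⟨h3, h4, h5⟩ := fin_mem_N.1 hy
      refine fin_mem_N.2 ⟨?_, (res_eq_of_le (le_max_left _ _) h4).trans h1, ?_⟩
      · rintro rfl
        rcases hk with hk | hk
        · exact h3 hk.symm
        · exact hk (res_eq_of_le (le_max_right _ _) h4)
      · rw [← h2]
        exact (res_suffix z' (le_max_left _ _)).trans h5
    · intro x'' z'' hy
      obtain ⟨h3, h4⟩ := lim_mem_N.1 hy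
      exact lim_mem_N.2 ⟨(res_eq_of_le (le_max_left _ _) h3).trans h1,
        (res_eq_of_le (le_max_left _ _) h4).trans h2⟩

theorem isClosed_N (m : ℕ) (x z : ℕ → ℕ) : IsClosed (N m x z) := by
  rw [← isOpen_compl_iff, isOpen_iff']
  refine ⟨?_, ?_⟩
  · intro y s hs
    obtain ⟨n, hn⟩ := exists_bound (res z m) s
    refine ⟨n, fun c hc h => hs ?_⟩
    obtain ⟨h1, h2, h3⟩ := fin_mem_N.1 h
    refine fin_mem_N.2 ⟨h1, h2, ?_⟩
    rcases List.suffix_cons_iff.1 h3 with h | h
    · exact absurd h (hn c hc)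
    · exact h
  · intro x' z' hs
    refine ⟨m, ?_⟩
    apply cases_ZZ
    · intro y s h h'
      obtain ⟨h1, h2, h3⟩ := fin_mem_N.1 h
      obtain ⟨h4, h5, h6⟩ := fin_mem_N.1 h'
      apply hs
      refine lim_mem_N.2 ⟨h2.symm.trans h5, ?_⟩
      exact eq_of_suffix h3 h6 (by rw [res_length, res_length])
    · intro x'' z'' h h'
      obtain ⟨h1, h2⟩ := lim_mem_N.1 h
      obtain ⟨h3, h4⟩ := lim_mem_N.1 h'
      exact hs (lim_mem_N.2 ⟨h1.symm.trans h3, h2.symm.trans h4⟩)

/-- The part of the tree above `s` which stays inside `U`. -/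
def V (U : Set ZZ) (y : ℕ → ℕ) (s : List ℕ) : Set ZZ :=
  {e | ∃ s', e = fin y s' ∧ s <:+ s' ∧ ∀ t, s <:+ t → t <:+ s' → fin y t ∈ U}

theorem fin_mem_V {U : Set ZZ} {y y' : ℕ → ℕ} {s s' : List ℕ} : fin y' s' ∈ V U y s ↔
    y' = y ∧ s <:+ s' ∧ ∀ t, s <:+ t → t <:+ s' → fin y t ∈ U := by
  constructor
  · rintro ⟨s'', h, h'⟩
    obtain ⟨rfl, rfl⟩ := fin_inj.1 h
    exact ⟨rfl, h'⟩
  · rintro ⟨rfl, h⟩
    exact ⟨s', rfl, h⟩

theorem lim_notMem_V {U : Set ZZ} {y x z : ℕ → ℕ} {s : List ℕ} : lim x z ∉ V U y s := by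
  rintro ⟨s', h, -⟩
  exact fin_ne_lim h.symm

theorem V_subset {U : Set ZZ} {y : ℕ → ℕ} {s : List ℕ} : V U y s ⊆ U := by
  rintro _ ⟨s', rfl, h1, h2⟩
  exact h2 s' h1 List.suffix_rfl

theorem isOpen_V {U : Set ZZ} (hU : IsOpen U) (y : ℕ → ℕ) (s : List ℕ) : IsOpen (V U y s) := by
  rw [isOpen_iff']
  refine ⟨?_, fun x z h => absurd h lim_notMem_V⟩
  intro y' s' h
  obtain ⟨rfl, h1, h2⟩ := fin_mem_V.1 h
  obtain ⟨n, hn⟩ := hU.1 y' s' (h2 s' h1 List.suffix_rfl)
  refine ⟨n, fun c hc => fin_mem_V.2 ⟨rfl, h1.trans (List.suffix_cons _ _), ?_⟩⟩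
  intro t ht1 ht2
  rcases List.suffix_cons_iff.1 ht2 with rfl | h3
  · exact hn c hc
  · exact h2 t ht1 h3

theorem isClosed_V {U : Set ZZ} (y : ℕ → ℕ) (s : List ℕ) : IsClosed (V U y s) := by
  rw [← isOpen_compl_iff, isOpen_iff']
  refine ⟨?_, ?_⟩
  · intro y' s' h
    obtain ⟨n, hn⟩ := exists_bound s s'
    refine ⟨n, fun c hc h' => h ?_⟩
    obtain ⟨rfl, h1, h2⟩ := fin_mem_V.1 h'
    refine fin_mem_V.2 ⟨rfl, ?_, fun t ht1 ht2 => h2 t ht1 (ht2.trans (List.suffix_cons _ _))⟩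
    rcases List.suffix_cons_iff.1 h1 with h3 | h3
    · exact absurd h3 (hn c hc)
    · exact h3
  · intro x z _
    by_cases hx : x = y
    · refine ⟨0, ?_⟩
      subst hx
      apply cases_ZZ
      · intro y' s' h h'
        exact (fin_mem_N.1 h).1 (fin_mem_V.1 h').1
      · intro x' z' _ h'
        exact lim_notMem_V h'
    · obtain ⟨m, hm⟩ := exists_res_ne hx
      refine ⟨m, ?_⟩
      apply cases_ZZ
      · intro y' s' h h'
        obtain ⟨rfl, -⟩ := fin_mem_V.1 h'
        exact hm (fin_mem_N.1 h).2.1.symm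
      · intro x' z' _ h'
        exact lim_notMem_V h'

instance : T1Space ZZ := by
  refine ⟨?_⟩
  apply cases_ZZ
  · intro y s
    rw [← isOpen_compl_iff, isOpen_iff']
    refine ⟨?_, ?_⟩
    · intro y' s' _
      obtain ⟨n, hn⟩ := exists_bound s s'
      refine ⟨n, fun c hc h => ?_⟩
      exact hn c hc (fin_inj.1 h).2.symm
    · intro x z _
      refine ⟨s.length + 1, ?_⟩
      intro e he h
      rw [mem_singleton_iff] at h
      subst h
      have := (fin_mem_N.1 he).2.2.length_le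
      rw [res_length] at this
      omega
  · intro x z
    rw [← isOpen_compl_iff, isOpen_iff']
    refine ⟨fun y s _ => ⟨0, fun c _ h => fin_ne_lim h⟩, ?_⟩
    intro x' z' h
    by_cases hx : x' = x
    · subst hx
      have hz : z' ≠ z := by
        rintro rfl
        exact h rfl
      obtain ⟨m, hm⟩ := exists_res_ne hz
      refine ⟨m, fun e he h' => ?_⟩
      rw [mem_singleton_iff] at h'
      subst h'
      exact hm (lim_mem_N.1 he).2.symm
    · obtain ⟨m, hm⟩ := exists_res_ne hx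
      refine ⟨m, fun e he h' => ?_⟩
      rw [mem_singleton_iff] at h'
      subst h'
      exact hm (lim_mem_N.1 he).1.symm

theorem basis_clopens : IsTopologicalBasis {W : Set ZZ | IsClopen W} := by
  apply isTopologicalBasis_of_isOpen_of_nhds
  · intro W hW
    exact hW.isOpen
  · intro e U he hU
    revert e
    apply cases_ZZ
    · intro y s he
      refine ⟨V U y s, ⟨isClosed_V y s, isOpen_V hU y s⟩, ?_, V_subset⟩
      refine fin_mem_V.2 ⟨rfl, List.suffix_rfl, ?_⟩
      intro t h1 h2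
      have : s = t := h1.eq_of_length (le_antisymm h1.length_le h2.length_le)
      rw [← this]
      exact he
    · intro x z he
      obtain ⟨m, hm⟩ := hU.2 x z he
      exact ⟨N m x z, ⟨isClosed_N m x z, isOpen_N m x z⟩, self_mem_N m x z, hm⟩

instance : T35Space ZZ := by
  have := CompletelyRegularSpace.of_isTopologicalBasis_clopens basis_clopens
  exact @T35Space.mk ZZ _ inferInstance this

theorem tendsto_child (y : ℕ → ℕ) (s : List ℕ) :
    Tendsto (fun c => fin y (c :: s)) atTop (𝓝 (fin y s)) := by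
  rw [tendsto_nhds]
  intro U hU h
  obtain ⟨n, hn⟩ := hU.1 y s h
  exact mem_atTop_sets.2 ⟨n, hn⟩

theorem tendsto_N {e : ℕ → ZZ} {x z : ℕ → ℕ} (h : ∀ m, e m ∈ N m x z) :
    Tendsto e atTop (𝓝 (lim x z)) := by
  rw [tendsto_nhds]
  intro U hU hx
  obtain ⟨n, hn⟩ := hU.2 x z hx
  exact mem_atTop_sets.2 ⟨n, fun m hm => hn (N_anti hm x z (h m))⟩

theorem kr_tendsto {f : ZZ → ℝ} (hf : ∀ K : Set ZZ, IsCompact K → ContinuousOn f K)
    {e : ℕ → ZZ} {a : ZZ} (h : Tendsto e atTop (𝓝 a)) :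
    Tendsto (fun n => f (e n)) atTop (𝓝 (f a)) := by
  have h1 := hf _ h.isCompact_insert_range
  have h2 : ContinuousWithinAt f (insert a (range e)) a := h1 a (mem_insert _ _)
  have h3 : Tendsto e atTop (𝓝[insert a (range e)] a) :=
    tendsto_nhdsWithin_iff.2 ⟨h, Eventually.of_forall fun n => mem_insert_of_mem _ ⟨n, rfl⟩⟩
  exact h2.tendsto.comp h3

theorem kr_ZZ : KR ZZ := by
  intro f hf
  rw [continuous_def]
  intro O hO
  rw [isOpen_iff']
  refine ⟨?_, ?_⟩
  · intro y s hs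
    have := (kr_tendsto hf (tendsto_child y s)).eventually (hO.mem_nhds hs)
    exact eventually_atTop.1 this
  · intro x z hs
    by_contra hcon
    push Not at hcon
    have : ∀ m, ∃ e, e ∈ N m x z ∧ e ∉ f ⁻¹' O := fun m => Set.not_subset.1 (hcon m)
    choose e he he' using this
    have := (kr_tendsto hf (tendsto_N he)).eventually (hO.mem_nhds hs)
    obtain ⟨n, hn⟩ := eventually_atTop.1 this
    exact he' n (hn n le_rfl)

/-- The neighborhoods of `fin y s` used for the `k`-semistratification. -/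
def gf (n : ℕ) (y : ℕ → ℕ) (s : List ℕ) : Set ZZ :=
  {e | ∃ s', e = fin y s' ∧ (s' = s ∨ ∃ c ≥ n, (c :: s) <:+ s')}

theorem fin_mem_gf {n : ℕ} {y y' : ℕ → ℕ} {s s' : List ℕ} :
    fin y' s' ∈ gf n y s ↔ y' = y ∧ (s' = s ∨ ∃ c ≥ n, (c :: s) <:+ s') := by
  constructor
  · rintro ⟨s'', h, h'⟩
    obtain ⟨rfl, rfl⟩ := fin_inj.1 h
    exact ⟨rfl, h'⟩
  · rintro ⟨rfl, h⟩
    exact ⟨s', rfl, h⟩

theorem isOpen_gf (n : ℕ) (y : ℕ → ℕ) (s : List ℕ) : IsOpen (gf n y s) := by
  rw [isOpen_iff']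
  refine ⟨?_, ?_⟩
  · intro y' s' h
    obtain ⟨rfl, rfl | ⟨c, hc, h2⟩⟩ := fin_mem_gf.1 h
    · exact ⟨n, fun c hc => fin_mem_gf.2 ⟨rfl, Or.inr ⟨c, hc, List.suffix_rfl⟩⟩⟩
    · exact ⟨0, fun d _ => fin_mem_gf.2 ⟨rfl, Or.inr ⟨c, hc, h2.trans (List.suffix_cons _ _)⟩⟩⟩
  · rintro x z ⟨s', h, -⟩
    exact absurd h.symm fin_ne_lim

/-- The `k`-semistratification. -/
def SS (U : Set ZZ) (n : ℕ) : Set ZZ :=
  {e | (∀ y s, fin y s ∉ U → e ∉ gf n y s) ∧ ∀ x z, lim x z ∉ U → e ∉ N n x z}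

theorem isClosed_SS (U : Set ZZ) (n : ℕ) : IsClosed (SS U n) := by
  have : SS U n = (⋂ (y : ℕ → ℕ) (s : List ℕ) (_ : fin y s ∉ U), (gf n y s)ᶜ) ∩
      ⋂ (x : ℕ → ℕ) (z : ℕ → ℕ) (_ : lim x z ∉ U), (N n x z)ᶜ := by
    ext e
    simp only [SS, mem_ofPred_eq, mem_inter_iff, mem_iInter, mem_compl_iff]
  rw [this]
  apply IsClosed.inter
  · exact isClosed_iInter fun y => isClosed_iInter fun s => isClosed_iInter fun _ =>
      (isOpen_gf n y s).isClosed_compl
  · exact isClosed_iInter fun y => isClosed_iInter fun s => isClosed_iInter fun _ =>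
      (isOpen_N n y s).isClosed_compl

theorem SS_subset (U : Set ZZ) (n : ℕ) : SS U n ⊆ U := by
  apply cases_ZZ
  · intro y s h
    by_contra hn
    exact h.1 y s hn (fin_mem_gf.2 ⟨rfl, Or.inl rfl⟩)
  · intro x z h
    by_contra hn
    exact h.2 x z hn (self_mem_N n x z)

/-- The first entry of a point. -/
def hd : ZZ → ℕ
  | Sum.inl (_, s) => s.headD 0
  | Sum.inr _ => 0

theorem hd_fin (y : ℕ → ℕ) (c : ℕ) (s : List ℕ) : hd (fin y (c :: s)) = c := rfl

theorem compact_SS {U : Set ZZ} (hU : IsOpen U) {K : Set ZZ} (hK : IsCompact K) (hKU : K ⊆ U) :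
    ∃ n, K ⊆ SS U n := by
  by_contra hcon
  push Not at hcon
  have h1 : ∀ n, ∃ e, e ∈ K ∧ e ∉ SS U n := fun n => Set.not_subset.1 (hcon n)
  choose e heK heS using h1
  have h2 : ∀ n, (∃ y s, fin y s ∉ U ∧ e n ∈ gf n y s) ∨ ∃ x z, lim x z ∉ U ∧ e n ∈ N n x z := by
    intro n
    by_contra h
    push Not at h
    exact heS n ⟨fun y s hs => h.1 y s hs, fun x z hz => h.2 x z hz⟩
  obtain ⟨a, haK, ha⟩ := hK.exists_mapClusterPt (f := atTop) (u := e)
    (by
      rw [Filter.le_principal_iff]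
      exact Filter.mem_map.2 (Filter.univ_mem' heK))
  -- it suffices to find a neighborhood of `a` avoided by almost all `e m`
  have key : ∃ O, IsOpen O ∧ a ∈ O ∧ ∃ m₀, ∀ m ≥ m₀, e m ∉ O := by
    have haU := hKU haK
    clear ha haK
    revert a
    apply cases_ZZ
    · intro y t haU
      obtain ⟨M, hM⟩ : ∃ M, ∀ c ∈ t, c < M := by
        refine ⟨t.sum + 1, fun c hc => ?_⟩
        exact Nat.lt_succ_of_le (List.le_sum_of_mem hc)
      let B : Set ZZ := {d | ∃ s m, d = fin y s ∧ e m = fin y s ∧ m ≤ s.length ∧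
        t.length < s.length}
      have hO : IsOpen (V U y t ∩ Bᶜ) := by
        rw [isOpen_iff']
        refine ⟨?_, fun x z h => absurd h.1 lim_notMem_V⟩
        intro y' s' h
        obtain ⟨n1, hn1⟩ := (isOpen_V hU y t).1 y' s' h.1
        obtain ⟨rfl, -⟩ := fin_mem_V.1 h.1
        refine ⟨max n1 ((Finset.range (s'.length + 2)).sup (fun m => hd (e m)) + 1), ?_⟩
        intro c hc
        refine ⟨hn1 c (le_of_max_le_left hc), ?_⟩
        rintro ⟨s, m, hs, hem, hms, -⟩
        obtain ⟨-, rfl⟩ := fin_inj.1 hs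
        have h3 : hd (e m) = c := by rw [hem, hd_fin]
        have h4 : m ∈ Finset.range (s'.length + 2) := by
          rw [Finset.mem_range]
          rw [List.length_cons] at hms
          omega
        have h5 : hd (e m) ≤ (Finset.range (s'.length + 2)).sup (fun m => hd (e m)) :=
          Finset.le_sup (f := fun m => hd (e m)) h4
        have h6 := le_of_max_le_right hc
        omega
      refine ⟨V U y t ∩ Bᶜ, hO, ⟨?_, ?_⟩, max M (t.length + 1), ?_⟩
      · refine fin_mem_V.2 ⟨rfl, List.suffix_rfl, ?_⟩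
        intro t' h1 h2
        have : t = t' := h1.eq_of_length (le_antisymm h1.length_le h2.length_le)
        rw [← this]
        exact haU
      · rintro ⟨s, m, hs, -, -, h⟩
        obtain ⟨-, rfl⟩ := fin_inj.1 hs
        exact lt_irrefl _ h
      · intro m hm hemO
        obtain ⟨⟨s, hs, hts, hsU⟩, hB⟩ := hemO
        rcases h2 m with ⟨y', s', hs'U, hem⟩ | ⟨x', z', -, hem⟩
        · rw [hs] at hem
          obtain ⟨rfl, rfl | ⟨c, hc, hcs⟩⟩ := fin_mem_gf.1 hem
          · exact hs'U (hsU s hts List.suffix_rfl)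
          · have hs's : s' <:+ s := (List.suffix_cons c s').trans hcs
            rcases List.suffix_or_suffix_of_suffix hts hcs with h3 | h3
            · rcases List.suffix_cons_iff.1 h3 with h4 | h4
              · have h5 : c ∈ t := by
                  rw [h4]
                  exact List.mem_cons_self
                have h6 := hM c h5
                have h7 := le_of_max_le_left hm
                omega
              · exact hs'U (hsU s' h4 hs's)
            · have h5 : c ∈ t := h3.mem List.mem_cons_self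
              have h6 := hM c h5
              have h7 := le_of_max_le_left hm
              omega
        · rw [hs] at hem
          have h3 := (fin_mem_N.1 hem).2.2.length_le
          rw [res_length] at h3
          have h7 := le_of_max_le_right hm
          exact hB ⟨s, m, hs, hs, h3, by omega⟩
    · intro x z haU
      obtain ⟨l, hl⟩ := hU.2 x z haU
      obtain ⟨M, hM⟩ : ∃ M, ∀ i < l, z i < M := by
        refine ⟨(Finset.range l).sup z + 1, fun i hi => ?_⟩
        exact Nat.lt_succ_of_le (Finset.le_sup (Finset.mem_range.2 hi))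
      refine ⟨N (max l M) x z, isOpen_N _ _ _, self_mem_N _ _ _, max l M, ?_⟩
      intro m hm hemO
      have hlm : l ≤ m := le_of_max_le_left hm
      have hMm : M ≤ m := le_of_max_le_right hm
      rcases h2 m with ⟨y, s, hsU, hem⟩ | ⟨x', z', hxU, hem⟩
      · obtain ⟨s', hs', hs''⟩ := hem
        rw [hs'] at hemO
        obtain ⟨h3, h4, h5⟩ := fin_mem_N.1 hemO
        have h6 : res z l <:+ s' := (res_suffix z (le_max_left l M)).trans h5
        apply hsU
        apply hl
        refine fin_mem_N.2 ⟨h3, res_eq_of_le (le_max_left _ _) h4, ?_⟩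
        rcases hs'' with rfl | ⟨c, hc, hcs⟩
        · exact h6
        · have hcase : (c :: s) <:+ res z (max l M) → res z l <:+ s := by
            intro h7
            have h8 := eq_res_of_suffix h7
            rw [List.length_cons, res_succ] at h8
            obtain ⟨h9, h10⟩ := List.cons.inj h8
            have h11 : l ≤ s.length := by
              by_contra hlt
              rw [not_le] at hlt
              have := hM _ hlt
              omega
            rw [h10]
            exact res_suffix z h11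
          rcases List.suffix_or_suffix_of_suffix hcs h5 with h7 | h7
          · exact hcase h7
          · rcases List.suffix_cons_iff.1 h7 with h8 | h8
            · exact hcase (by rw [h8])
            · exact (res_suffix z (le_max_left l M)).trans h8
      · apply hxU
        apply hl
        generalize e m = d at hem hemO
        revert d
        apply cases_ZZ
        · intro y s hem hemO
          obtain ⟨h3, h4, h5⟩ := fin_mem_N.1 hem
          obtain ⟨h6, h7, h8⟩ := fin_mem_N.1 hemO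
          refine lim_mem_N.2 ⟨?_, ?_⟩
          · rw [← res_eq_of_le hlm h4]
            exact res_eq_of_le (le_max_left _ _) h7
          · exact eq_of_suffix ((res_suffix z' hlm).trans h5)
              ((res_suffix z (le_max_left _ _)).trans h8) (by rw [res_length, res_length])
        · intro x'' z'' hem hemO
          obtain ⟨h3, h4⟩ := lim_mem_N.1 hem
          obtain ⟨h5, h6⟩ := lim_mem_N.1 hemO
          refine lim_mem_N.2 ⟨?_, ?_⟩
          · rw [← res_eq_of_le hlm h3]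
            exact res_eq_of_le (le_max_left _ _) h5
          · rw [← res_eq_of_le hlm h4]
            exact res_eq_of_le (le_max_left _ _) h6
  obtain ⟨O, hO, haO, m0, hm0⟩ := key
  have h3 := ha.frequently (hO.mem_nhds haO)
  obtain ⟨m, hm, hmO⟩ := (Filter.frequently_atTop.1 h3) m0
  exact hm0 m hm hmO

theorem kSemistrat_ZZ : KSemistrat ZZ := by
  refine ⟨SS, ?_, ?_⟩
  · intro U hU
    refine ⟨isClosed_SS U, ?_, fun K hK hKU => compact_SS hU hK hKU⟩
    apply Subset.antisymm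
    · intro e he
      obtain ⟨n, hn⟩ := compact_SS hU (isCompact_singleton (x := e)) (by simpa using he)
      exact mem_iUnion.2 ⟨n, hn rfl⟩
    · exact iUnion_subset (SS_subset U)
  · intro U W _ _ hUW n e he
    exact ⟨fun y s hs => he.1 y s (fun h => hs (hUW h)), fun x z hz => he.2 x z
      (fun h => hz (hUW h))⟩

/-- The set of all limit points. -/
def HH : Set ZZ := {e | ∃ x z, e = lim x z}

/-- The set of all roots. -/
def DD : Set ZZ := {e | ∃ y, e = fin y []}

theorem isClosed_HH : IsClosed HH := by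
  rw [← isOpen_compl_iff, isOpen_iff']
  refine ⟨fun y s _ => ⟨0, fun c _ => ?_⟩, fun x z h => absurd ⟨x, z, rfl⟩ h⟩
  rintro ⟨x, z, h⟩
  exact fin_ne_lim h

theorem isClosed_DD : IsClosed DD := by
  rw [← isOpen_compl_iff, isOpen_iff']
  refine ⟨fun y s _ => ⟨0, fun c _ => ?_⟩, fun x z _ => ⟨1, ?_⟩⟩
  · rintro ⟨y', h⟩
    exact List.cons_ne_nil _ _ (fin_inj.1 h).2
  · rintro e he ⟨y, rfl⟩
    have := (fin_mem_N.1 he).2.2.length_le
    rw [res_length] at this
    simp at this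

theorem disj_DD_HH : ∀ z ∈ DD, z ∉ HH := by
  rintro _ ⟨y, rfl⟩ ⟨x, z, h⟩
  exact fin_ne_lim h

theorem not_countable_seq : ¬ (Set.univ : Set (ℕ → ℕ)).Countable := by
  intro h
  rw [Set.countable_univ_iff] at h
  obtain ⟨f, hf⟩ := exists_surjective_nat (ℕ → ℕ)
  obtain ⟨k, hk⟩ := hf (fun n => f n n + 1)
  have h1 : f k k = f k k + 1 := congrFun hk k
  omega

/-- The roots and the limit points are not functionally separated. -/
theorem not_separated :
    ¬ ∃ h : ZZ → ℝ, Continuous h ∧ (∀ z ∈ HH, h z = 0) ∧ ∀ z ∈ DD, 1 ≤ h z := by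
  rintro ⟨h, hh, hH, hD⟩
  let U : Set ZZ := h ⁻¹' Ioi (1 / 2)
  have hU : IsOpen U := isOpen_Ioi.preimage hh
  have hW : IsOpen (h ⁻¹' Iio (1 / 2)) := isOpen_Iio.preimage hh
  -- the states of the recursion
  let P : List ℕ × List ℕ → Prop := fun q =>
    ¬ {y : ℕ → ℕ | res y q.1.length = q.1 ∧ fin y q.2 ∈ U}.Countable
  have hP0 : P ([], []) := by
    intro hc
    apply not_countable_seq
    refine hc.mono ?_
    intro y _
    refine ⟨rfl, ?_⟩
    have : (1 : ℝ) ≤ h (fin y []) := hD _ ⟨y, rfl⟩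
    show (1 / 2 : ℝ) < h (fin y [])
    linarith
  have hstep : ∀ q : {q // P q}, ∃ dc : ℕ × ℕ, P (dc.1 :: q.1.1, dc.2 :: q.1.2) := by
    rintro ⟨⟨r, t⟩, hq⟩
    by_contra hcon
    push Not at hcon
    apply hq
    have hsub : {y : ℕ → ℕ | res y r.length = r ∧ fin y t ∈ U} ⊆
        ⋃ dc : ℕ × ℕ, {y : ℕ → ℕ | res y (dc.1 :: r).length = dc.1 :: r ∧
          fin y (dc.2 :: t) ∈ U} := by
      rintro y ⟨hy1, hy2⟩
      obtain ⟨n, hn⟩ := hU.1 y t hy2
      refine mem_iUnion.2 ⟨(y r.length, n), ?_, hn n le_rfl⟩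
      simp only [List.length_cons, res_succ, hy1]
    refine (countable_iUnion fun dc => ?_).mono hsub
    have := hcon dc
    simp only [P, not_not] at this
    exact this
  choose dc hdc using hstep
  let q : ℕ → {q // P q} := fun n => Nat.rec ⟨([], []), hP0⟩
    (fun _ q => ⟨((dc q).1 :: q.1.1, (dc q).2 :: q.1.2), hdc q⟩) n
  have hq0 : (q 0).1 = ([], []) := rfl
  have hqs : ∀ n, (q (n + 1)).1 = ((dc (q n)).1 :: (q n).1.1, (dc (q n)).2 :: (q n).1.2) :=
    fun n => rfl
  let x : ℕ → ℕ := fun n => (dc (q n)).1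
  let z : ℕ → ℕ := fun n => (dc (q n)).2
  have hqx : ∀ n, (q n).1.1 = res x n := by
    intro n
    induction n with
    | zero => rfl
    | succ n ih => rw [hqs n, res_succ, ← ih]
  have hqz : ∀ n, (q n).1.2 = res z n := by
    intro n
    induction n with
    | zero => rfl
    | succ n ih => rw [hqs n, res_succ, ← ih]
  have hxz : lim x z ∈ h ⁻¹' Iio (1 / 2) := by
    show h (lim x z) < 1 / 2
    rw [hH _ ⟨x, z, rfl⟩]
    norm_num
  obtain ⟨m, hm⟩ := hW.2 x z hxz
  have hPm := (q m).2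
  have hex : ∃ y : ℕ → ℕ, y ≠ x ∧ res y m = res x m ∧ fin y (res z m) ∈ U := by
    by_contra hcon
    push Not at hcon
    apply hPm
    refine (countable_singleton x).mono ?_
    rintro y ⟨hy1, hy2⟩
    rw [hqx, res_length] at hy1
    rw [hqz] at hy2
    by_contra hyx
    exact hcon y hyx hy1 hy2
  obtain ⟨y, hyx, hyr, hyU⟩ := hex
  have h1 : h (fin y (res z m)) < 1 / 2 := hm (fin_mem_N.2 ⟨hyx, hyr, List.suffix_rfl⟩)
  have h2 : 1 / 2 < h (fin y (res z m)) := hyU
  linarith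

/-- The final example. -/
theorem exists_example : ∃ (X : Type) (_ : TopologicalSpace X), T35Space X ∧ KSemistrat X ∧
    KR X ∧ ∃ F : Set X, IsClosed F ∧
      ∃ f : F → ℝ, (∀ K : Set F, IsCompact K → ContinuousOn f K) ∧ ¬ Continuous f :=
  ⟨Inf HH, inferInstance, t35, kSemistrat isClosed_HH kSemistrat_ZZ, kr kr_ZZ, FF HH DD,
    isClosed_FF isClosed_DD, reduction isClosed_HH disj_DD_HH not_separated⟩

end Pool.Agent.Helper76.Kr
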