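import Pool.Agent.Helper76.PointFinite

set_option autoImplicit false
universe u

namespace Pool.Agent.Helper76

/-- For every Tychonoff space X and every nonempty index set ι, the supremum of sizes of point-finite families of nonempty open sets in C_p(X) (pointwise topology) equals the same supremum for the product C_p(X)^ι. -/
theorem pfc_mono :
    ∀ (X : Type u) [TopologicalSpace X] [T35Space X] (ι : Type u) [Nonempty ι],
      sSup {c : Cardinal.{u} | ∃ 𝒰 : Set (Set {f : X → ℝ // Continuous f}),
          (∀ U ∈ 𝒰, IsOpen U ∧ U.Nonempty) ∧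
          (∀ y : {f : X → ℝ // Continuous f}, {U | U ∈ 𝒰 ∧ y ∈ U}.Finite) ∧
          c = Cardinal.mk ↥𝒰}
        =
      sSup {c : Cardinal.{u} | ∃ 𝒰 : Set (Set (ι → {f : X → ℝ // Continuous f})),
          (∀ U ∈ 𝒰, IsOpen U ∧ U.Nonempty) ∧
          (∀ y : ι → {f : X → ℝ // Continuous f}, {U | U ∈ 𝒰 ∧ y ∈ U}.Finite) ∧
          c = Cardinal.mk ↥𝒰} := by
  intro X _ _ ι _
  classical
  set S₁ : Set Cardinal.{u} := {c : Cardinal.{u} | ∃ 𝒰 : Set (Set {f : X → ℝ // Continuous f}),
          (∀ U ∈ 𝒰, IsOpen U ∧ U.Nonempty) ∧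
          (∀ y : {f : X → ℝ // Continuous f}, {U | U ∈ 𝒰 ∧ y ∈ U}.Finite) ∧
          c = Cardinal.mk ↥𝒰} with hS₁
  set S₂ : Set Cardinal.{u} := {c : Cardinal.{u} |
        ∃ 𝒰 : Set (Set (ι → {f : X → ℝ // Continuous f})),
          (∀ U ∈ 𝒰, IsOpen U ∧ U.Nonempty) ∧
          (∀ y : ι → {f : X → ℝ // Continuous f}, {U | U ∈ 𝒰 ∧ y ∈ U}.Finite) ∧
          c = Cardinal.mk ↥𝒰} with hS₂
  have hb₁ : BddAbove S₁ := by
    refine ⟨Cardinal.mk (Set {f : X → ℝ // Continuous f}), ?_⟩
    rintro c ⟨𝒰, -, -, rfl⟩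
    exact Cardinal.mk_set_le 𝒰
  have hb₂ : BddAbove S₂ := by
    refine ⟨Cardinal.mk (Set (ι → {f : X → ℝ // Continuous f})), ?_⟩
    rintro c ⟨𝒰, -, -, rfl⟩
    exact Cardinal.mk_set_le 𝒰
  apply le_antisymm
  · -- preimages under a projection
    have hsub : S₁ ⊆ S₂ := by
      rintro c ⟨𝒰, h1, h2, rfl⟩
      obtain ⟨i₀⟩ := (inferInstance : Nonempty ι)
      let π : (ι → {f : X → ℝ // Continuous f}) → {f : X → ℝ // Continuous f} := fun y => y i₀
      have hπs : Function.Surjective π := fun f => ⟨fun _ => f, rfl⟩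
      have hπc : Continuous π := continuous_apply i₀
      have hinj : Function.Injective (Set.preimage π) := hπs.preimage_injective
      refine ⟨Set.preimage π '' 𝒰, ?_, ?_, ?_⟩
      · rintro _ ⟨U, hU, rfl⟩
        exact ⟨(h1 U hU).1.preimage hπc, (h1 U hU).2.preimage hπs⟩
      · intro y
        refine ((h2 (π y)).image (Set.preimage π)).subset ?_
        rintro _ ⟨⟨U, hU, rfl⟩, hy⟩
        exact ⟨U, ⟨hU, hy⟩, rfl⟩
      · exact (Cardinal.mk_image_eq hinj).symm
    exact csSup_le_csSup' hb₂ hsub
  · by_contra hlt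
    push Not at hlt
    obtain ⟨c, ⟨𝒰, h1, h2, rfl⟩, hc⟩ := exists_lt_of_lt_csSup' hlt
    rcases isEmpty_or_nonempty X with hX | hX
    · -- one-point function space
      have hsub : Subsingleton (ι → {f : X → ℝ // Continuous f}) := by
        constructor
        intro a b
        funext i
        apply Subtype.ext
        funext x
        exact (hX.false x).elim
      have hle : 𝒰 ⊆ {Set.univ} := by
        intro U hU
        obtain ⟨a, ha⟩ := (h1 U hU).2
        exact Set.eq_univ_of_forall fun b => (Subsingleton.elim a b) ▸ ha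
      have hle1 : Cardinal.mk ↥𝒰 ≤ 1 := by
        have := Cardinal.mk_le_mk_of_subset hle
        simpa using this
      have h1S : (1 : Cardinal.{u}) ∈ S₁ := by
        refine ⟨{Set.univ}, ?_, ?_, by simp⟩
        · rintro U hU
          rw [Set.mem_singleton_iff] at hU
          subst hU
          refine ⟨isOpen_univ, ⟨⟨fun x => (hX.false x).elim, ?_⟩, Set.mem_univ _⟩⟩
          exact continuous_of_const (fun x => (hX.false x).elim)
        · intro y
          exact (Set.finite_singleton Set.univ).subset (fun U hU => hU.1)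
      exact absurd (hle1.trans (le_csSup hb₁ h1S)) (not_le.2 hc)
    · obtain ⟨x₀⟩ := hX
      have hω : Cardinal.aleph0 ≤ sSup S₁ := by
        let W : ℕ → Set {f : X → ℝ // Continuous f} := fun n =>
          {f | f.1 x₀ ∈ Set.Ioo (n : ℝ) (n + 1)}
        have hWc : ∀ n : ℕ, (⟨fun _ => (n : ℝ) + 1 / 2, continuous_const⟩ :
            {f : X → ℝ // Continuous f}) ∈ W n := by
          intro n
          simp only [W, Set.mem_ofPred_eq, Set.mem_Ioo]
          constructor <;> linarith
        have hWu : ∀ (f : {f : X → ℝ // Continuous f}) (n m : ℕ), f ∈ W n → f ∈ W m → n = m := by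
          intro f n m hn hm
          simp only [W, Set.mem_ofPred_eq, Set.mem_Ioo] at hn hm
          have h3 : (n : ℝ) < m + 1 := by linarith
          have h4 : (m : ℝ) < n + 1 := by linarith
          have h5 : n < m + 1 := by exact_mod_cast h3
          have h6 : m < n + 1 := by exact_mod_cast h4
          omega
        have hWinj : Function.Injective W := by
          intro n m hnm
          exact hWu _ n m (hWc n) (hnm ▸ hWc n)
        have hmem : Cardinal.mk (Set.range W) ∈ S₁ := by
          refine ⟨Set.range W, ?_, ?_, rfl⟩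
          · rintro _ ⟨n, rfl⟩
            refine ⟨?_, ⟨_, hWc n⟩⟩
            have hcont : Continuous (fun f : {f : X → ℝ // Continuous f} => f.1 x₀) :=
              (continuous_apply x₀).comp continuous_subtype_val
            exact isOpen_Ioo.preimage hcont
          · intro f
            apply Set.Subsingleton.finite
            rintro _ ⟨⟨n, rfl⟩, hn⟩ _ ⟨⟨m, rfl⟩, hm⟩
            rw [hWu f n m hn hm]
        refine le_trans ?_ (le_csSup hb₁ hmem)
        have := Cardinal.mk_range_eq_of_injective hWinj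
        have hinf : Infinite (Set.range W) := Set.infinite_coe_iff.2 (Set.infinite_range_of_injective hWinj)
        exact Cardinal.aleph0_le_mk _
      obtain ⟨𝒱, hV1, hV2, hV3⟩ := Pool.Agent.Helper76.transfer X ι (Order.succ (sSup S₁))
        (Cardinal.isRegular_succ hω) (hω.trans_lt (Order.lt_succ _)) 𝒰 h1 h2
        (Order.succ_le_of_lt hc)
      have hmem : Cardinal.mk ↥𝒱 ∈ S₁ := ⟨𝒱, hV1, hV2, rfl⟩
      exact absurd ((Order.lt_succ (sSup S₁)).trans_le hV3) (not_lt.2 (le_csSup hb₁ hmem))

end Pool.Agent.Helper76
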