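import Mathlib
import Pool.Agent.Helper76.DeltaSystem

set_option autoImplicit false
universe u

namespace Pool.Agent.Helper76

open Cardinal Set Topology

/-- Interpolation at finitely many points in a Tychonoff space. -/
theorem exists_continuous_interp {X : Type u} [TopologicalSpace X] [T35Space X]
    (E : Finset X) (t : X → ℝ) : ∃ h : X → ℝ, Continuous h ∧ ∀ x ∈ E, h x = t x := by
  classical
  have h1 : ∀ x : X, ∃ g : X → ℝ, Continuous g ∧ g x = 1 ∧ ∀ y ∈ E, y ≠ x → g y = 0 := by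
    intro x
    obtain ⟨f, hf, hfx, hfK⟩ := CompletelyRegularSpace.completely_regular x
      ((E.erase x : Finset X) : Set X) (Finset.finite_toSet _).isClosed (by simp)
    refine ⟨fun y => 1 - (f y : ℝ), by fun_prop, by simp [hfx], ?_⟩
    intro y hy hyx
    have := hfK (show y ∈ ((E.erase x : Finset X) : Set X) by simp [hy, hyx])
    simp [this]
  choose g hg hgx hgy using h1
  refine ⟨fun y => ∑ x ∈ E, t x * g x y, by fun_prop, ?_⟩
  intro y hy
  simp only
  rw [Finset.sum_eq_single y]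
  · rw [hgx, mul_one]
  · intro x hx hxy
    rw [hgy x y hy hxy.symm, mul_zero]
  · intro h; exact absurd hy h

/-- A continuous map from the line to a finite power of the line with dense range. -/
theorem exists_dense_curve {A : Type u} [Finite A] :
    ∃ Φ : ℝ → (A → ℝ), Continuous Φ ∧ DenseRange Φ := by
  have := Fintype.ofFinite A
  let b : ℕ → (A → ℝ) := TopologicalSpace.denseSeq (A → ℝ)
  have he : IsClosedEmbedding (fun n : ℕ => (n : ℝ)) := Nat.isClosedEmbedding_coe_real
  obtain ⟨Φ, hΦ⟩ := ContinuousMap.exists_extension' he ⟨b, continuous_of_discreteTopology⟩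
  refine ⟨Φ, Φ.continuous, ?_⟩
  have hb : DenseRange b := TopologicalSpace.denseRange_denseSeq _
  refine hb.mono ?_
  rintro _ ⟨n, rfl⟩
  exact ⟨(n : ℝ), congrFun hΦ n⟩

/-- Basic open neighbourhoods in `(C_p X)^ι`. -/
theorem exists_basic {X : Type u} [TopologicalSpace X] {ι : Type u}
    {U : Set (ι → {f : X → ℝ // Continuous f})} (hU : IsOpen U)
    {y : ι → {f : X → ℝ // Continuous f}} (hy : y ∈ U) :
    ∃ (F : Finset ι) (E : ι → Finset X) (O : ι → X → Set ℝ),
      (∀ i x, IsOpen (O i x)) ∧ (∀ i x, (y i).1 x ∈ O i x) ∧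
      ∀ z : ι → {f : X → ℝ // Continuous f},
        (∀ i ∈ F, ∀ x ∈ E i, (z i).1 x ∈ O i x) → z ∈ U := by
  classical
  obtain ⟨F, u, hu, hFU⟩ := isOpen_pi_iff.1 hU y hy
  have h1 : ∀ i : ι, ∃ (E : Finset X) (O : X → Set ℝ), (∀ x, IsOpen (O x)) ∧
      (∀ x, (y i).1 x ∈ O x) ∧
      (i ∈ F → ∀ z : {f : X → ℝ // Continuous f}, (∀ x ∈ E, z.1 x ∈ O x) → z ∈ u i) := by
    intro i
    by_cases hi : i ∈ F
    · obtain ⟨hopen, hmem⟩ := hu i hi
      obtain ⟨W, hW, hWu⟩ := isOpen_induced_iff.1 hopen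
      have hyW : (y i).1 ∈ W := by
        rw [← hWu] at hmem; exact hmem
      obtain ⟨E, v, hv, hEW⟩ := isOpen_pi_iff.1 hW (y i).1 hyW
      refine ⟨E, fun x => if x ∈ E then v x else univ, ?_, ?_, ?_⟩
      · intro x
        by_cases hx : x ∈ E
        · simp only [hx, if_true]; exact (hv x hx).1
        · simp only [hx, if_false]; exact isOpen_univ
      · intro x
        by_cases hx : x ∈ E
        · simp only [hx, if_true]; exact (hv x hx).2
        · simp only [hx, if_false]; exact mem_univ _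
      · intro _ z hz
        rw [← hWu]
        apply hEW
        intro x hx
        have := hz x hx
        simpa [show x ∈ E from hx] using this
    · exact ⟨∅, fun _ => univ, fun _ => isOpen_univ, fun _ => mem_univ _,
        fun h => absurd h hi⟩
  choose E O hO hyO hz using h1
  refine ⟨F, E, O, hO, hyO, ?_⟩
  intro z hzz
  apply hFU
  intro i hi
  exact hz i hi (z i) (hzz i hi)

/-- The main transfer: a point-finite family of nonempty open sets in `(C_p X)^ι` of size at
least `κ`, with `κ` regular uncountable, gives one in `C_p X`. -/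
theorem transfer (X : Type u) [TopologicalSpace X] [T35Space X] (ι : Type u)
    (κ : Cardinal.{u}) (hκ : κ.IsRegular) (hκ' : ℵ₀ < κ)
    (𝒰 : Set (Set (ι → {f : X → ℝ // Continuous f})))
    (hU : ∀ U ∈ 𝒰, IsOpen U ∧ U.Nonempty)
    (hpf : ∀ y : ι → {f : X → ℝ // Continuous f}, {U | U ∈ 𝒰 ∧ y ∈ U}.Finite)
    (hcard : κ ≤ #𝒰) :
    ∃ 𝒱 : Set (Set {f : X → ℝ // Continuous f}),
      (∀ U ∈ 𝒱, IsOpen U ∧ U.Nonempty) ∧
      (∀ y : {f : X → ℝ // Continuous f}, {U | U ∈ 𝒱 ∧ y ∈ U}.Finite) ∧ κ ≤ #𝒱 := by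
  classical
  have h1 : ∀ U : 𝒰, ∃ (y : ι → {f : X → ℝ // Continuous f}) (F : Finset ι)
      (E : ι → Finset X) (O : ι → X → Set ℝ),
      (∀ i x, IsOpen (O i x)) ∧ (∀ i x, (y i).1 x ∈ O i x) ∧
      ∀ z : ι → {f : X → ℝ // Continuous f},
        (∀ i ∈ F, ∀ x ∈ E i, (z i).1 x ∈ O i x) → z ∈ U.1 := by
    intro U
    obtain ⟨y, hy⟩ := (hU U.1 U.2).2
    obtain ⟨F, E, O, h⟩ := exists_basic (hU U.1 U.2).1 hy
    exact ⟨y, F, E, O, h⟩
  choose y F E O hO hyO hz using h1
  obtain ⟨J, hJ, R, hR⟩ := delta_system κ hκ hκ' F hcard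
  -- at most one index may have `F U` different from containing R; pass to all with `R ⊆ F U`
  obtain ⟨Φ, hΦ, hΦd⟩ := exists_dense_curve (A := R)
  let V : 𝒰 → Set {f : X → ℝ // Continuous f} := fun U =>
    {h | ∀ i : R, ∀ x ∈ E U i.1, Φ (h.1 x) i ∈ O U i.1 x}
  have hVopen : ∀ U, IsOpen (V U) := by
    intro U
    have : V U = ⋂ i : R, ⋂ x ∈ E U i.1, {h : {f : X → ℝ // Continuous f} |
        Φ (h.1 x) i ∈ O U i.1 x} := by
      ext h; simp [V]
    rw [this]
    refine isOpen_iInter_of_finite fun i => ?_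
    refine isOpen_biInter_finset fun x _ => ?_
    have hc : Continuous (fun h : {f : X → ℝ // Continuous f} => Φ (h.1 x) i) := by
      have h2 : Continuous (fun h : {f : X → ℝ // Continuous f} => h.1 x) :=
        (continuous_apply x).comp continuous_subtype_val
      exact (continuous_apply i).comp (hΦ.comp h2)
    exact (hO U i.1 x).preimage hc
  have hVne : ∀ U, (V U).Nonempty := by
    intro U
    have ht : ∀ x : X, ∃ t : ℝ, ∀ i : R, Φ t i ∈ O U i.1 x := by
      intro x
      have hopen : IsOpen (univ.pi fun i : R => O U i.1 x) :=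
        isOpen_set_pi finite_univ fun i _ => hO U i.1 x
      have hne : (univ.pi fun i : R => O U i.1 x).Nonempty :=
        ⟨fun i => (y U i.1).1 x, fun i _ => hyO U i.1 x⟩
      obtain ⟨t, ht⟩ := hΦd.exists_mem_open hopen hne
      exact ⟨t, fun i => ht i (mem_univ _)⟩
    choose t ht using ht
    obtain ⟨h, hh, hht⟩ := exists_continuous_interp (R.biUnion (E U)) t
    refine ⟨⟨h, hh⟩, ?_⟩
    intro i x hx
    have : h x = t x := hht x (Finset.mem_biUnion.2 ⟨i.1, i.2, hx⟩)
    simp only [this]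
    exact ht x i
  have hVpf : ∀ h : {f : X → ℝ // Continuous f}, {U : 𝒰 | U ∈ J ∧ h ∈ V U}.Finite := by
    intro h
    -- the extension point
    let P : ι → 𝒰 → Prop := fun i U => U ∈ J ∧ h ∈ V U ∧ i ∈ F U
    let z : ι → {f : X → ℝ // Continuous f} := fun i =>
      if hi : i ∈ R then ⟨fun x => Φ (h.1 x) ⟨i, hi⟩,
        (continuous_apply (⟨i, hi⟩ : R)).comp (hΦ.comp h.2)⟩
      else if hP : ∃ U, P i U then y hP.choose i else h
    have hmem : ∀ U : 𝒰, U ∈ J → h ∈ V U → z ∈ U.1 := by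
      intro U hUJ hhU
      apply hz U z
      intro i hi x hx
      by_cases hiR : i ∈ R
      · simp only [z, hiR, dif_pos]
        exact hhU ⟨i, hiR⟩ x hx
      · have hP : ∃ U, P i U := ⟨U, hUJ, hhU, hi⟩
        simp only [z, hiR, dif_neg, not_false_eq_true, hP, dif_pos]
        have hch := hP.choose_spec
        have heq : hP.choose = U := by
          by_contra hne
          have := hR _ hch.1 U hUJ hne
          apply hiR
          rw [← this]
          exact Finset.mem_inter.2 ⟨hch.2.2, hi⟩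
        rw [heq]
        exact hyO U i x
    have hfin := hpf z
    have : (Subtype.val '' {U : 𝒰 | U ∈ J ∧ h ∈ V U}).Finite := by
      refine hfin.subset ?_
      rintro _ ⟨U, ⟨hUJ, hhU⟩, rfl⟩
      exact ⟨U.2, hmem U hUJ hhU⟩
    exact this.of_finite_image Subtype.val_injective.injOn
  refine ⟨V '' J, ?_, ?_, ?_⟩
  · rintro _ ⟨U, _, rfl⟩
    exact ⟨hVopen U, hVne U⟩
  · intro h
    refine ((hVpf h).image V).subset ?_
    rintro _ ⟨⟨U, hUJ, rfl⟩, hh⟩
    exact ⟨U, ⟨hUJ, hh⟩, rfl⟩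
  · by_contra hlt
    push Not at hlt
    -- pigeonhole
    have hmap : ∀ U : J, V U.1 ∈ V '' J := fun U => ⟨U.1, U.2, rfl⟩
    obtain ⟨W, hW⟩ := infinite_pigeonhole_card (fun U : J => (⟨V U.1, hmap U⟩ : V '' J)) κ hJ
      hκ.aleph0_le (by rw [hκ.cof_ord]; exact hlt)
    obtain ⟨W, U₀, hU₀J, rfl⟩ := W
    obtain ⟨h, hh⟩ := hVne U₀
    have hfin := hVpf h
    have hsub : (Subtype.val '' ((fun U : J => (⟨V U.1, hmap U⟩ : V '' J)) ⁻¹'
        {⟨V U₀, ⟨U₀, hU₀J, rfl⟩⟩})) ⊆ {U : 𝒰 | U ∈ J ∧ h ∈ V U} := by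
      rintro _ ⟨U, hU, rfl⟩
      refine ⟨U.2, ?_⟩
      have : V U.1 = V U₀ := by
        have := hU
        simp only [mem_preimage, mem_singleton_iff] at this
        exact congrArg Subtype.val this
      rw [this]; exact hh
    have hfin2 : ((fun U : J => (⟨V U.1, hmap U⟩ : V '' J)) ⁻¹'
        {⟨V U₀, ⟨U₀, hU₀J, rfl⟩⟩}).Finite :=
      (hfin.subset hsub).of_finite_image Subtype.val_injective.injOn
    have : κ < ℵ₀ := hW.trans_lt (by
      have := hfin2.to_subtype
      exact Cardinal.lt_aleph0_of_finite _)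
    exact absurd this (not_lt.2 hκ'.le)

end Pool.Agent.Helper76
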